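import Pool.Agent.Helper91.FS.Defs2

/-!
# Project FS, part 2 (MP_0130f7_co): goals

Theorems A and B (part 1) are proved (`Main.lean`).  Part 2: levels with two different weights `k` and `2 k` (needed for
`PSL(2, q)`), and the explicit families `PSL(2, K) ≤ G ≤ PΓL(2, K)` on the projective line, `AGL(1, K) ≤ G ≤ AΓL(1, K)` and
`{a x + b : a ∈ A}` on the affine line.

Every `Goal_X` is a packet; its docstring is the paper proof.  Prove it as `theorem goal_X : Goal_X` (the goals used are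
hypotheses) in your own file `Pool/Agent/<Seat>/FS/X.lean`, namespace `Pool.Agent.<Seat>.FS`.  Notation as in part 1:
`lev n m` all `m`-sets, `1 + wt G A = |Stab A|`, `W G F = ∑_{A∈F} (1 + wt G A)`, `up m F` / `dn m F` the `(m+1)`-sets having some /
all `m`-subsets in `F`.
-/

set_option autoImplicit false

namespace Pool.Agent.Helper91.FS

open Finset
open Pool.Agent.Helper47.SR (Grp mv lev wt Ew W IsInv up dn StarAt HalfStarAt)
open Pool.Agent.Helper49.NF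

/-! ## Levels with two weights -/

/-- a `0`-`1` function on the `(l+1)`-sets, every `l`-set is in exactly `d` of the `(l+1)`-sets of weight 1 -/
def Des (n l d : ℕ) (w : Finset (Fin n) → ℕ) : Prop :=
  (∀ A, w A ≤ 1) ∧ ∀ T ∈ lev n l, ∑ x ∈ univ \ T, w (insert x T) = d

/-- **MDA** (adapt `Pool/Agent/Helper49/NF/M2A.lean`, the case `l = 1`, `δ = 0`).  Proof.  `m = l + 1`, `N = n - l`, `D = N + d`.  For
an `m`-set `A` in an `(m+1)`-set `X` put `F(A,X) = m D + (n-m) ((m+1) w A - t(X))`, `t(X) = ∑_{i∈X} w (X \ i)`.  `F ≥ m (d+1)` always: if `w A =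
0` then `t(X) ≤ m` and `m D - (n-m) m = m (d+1)`; if `w A = 1` then `t(X) ≤ m + 1` and `F ≥ m D`.  (1) `∑_{A⊂X} F = m (m+1) D`.  (2) `∑_{X⊃A} F =
m (n-m) N (1 + w A)`, because `∑_{x∉A} t(A ∪ x) = (n-m) w A + ∑_{y∈A} ∑_{x∉A} w (A \ y ∪ x) = (n-m) w A + m (d - w A)` (`T = A \ y` is an `l`-set,
the sum over `x ∉ T` of `w (T ∪ x)` is `d`, and `x = y` gives `w A`).
(a) sum (2) over `A ∈ F`: `m (n-m) N ∑ (1 + w A) ≤ m (m+1) D #(up m F)`.
(b) `m (m+1) D #(dn m F) + m (d+1) (#(up m F) - #(dn m F)) ≤ m (n-m) N ∑ (1 + w A)`.  Divide by `m`. -/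
def Goal_MDA : Prop :=
  ∀ (n l d : ℕ) (w : Finset (Fin n) → ℕ), l + 2 ≤ n → Des n l d w → ∀ F ⊆ lev n (l + 1),
    (n - (l + 1)) * (n - l) * ∑ A ∈ F, (1 + w A) ≤ (l + 2) * (n - l + d) * #(up (l + 1) F) ∧
    (l + 2) * (n - l + d) * #(dn (l + 1) F) + (d + 1) * #(up (l + 1) F) ≤
      (n - (l + 1)) * (n - l) * ∑ A ∈ F, (1 + w A) + (d + 1) * #(dn (l + 1) F)

/-- **MDS** (hypotheses `SR.Goal_KKA`, `SR.Goal_KKB`, MDA; adapt `Pool/Agent/Helper62/NF/M2S.lean`).  Proof.  `m = l + 1`, `N = n - l`,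
`C = C(n,m)`, `δ = d / N ≤ 1` (`N ∑_{lev n m} w = C d`, from `m ∑ w = C(n,l) d` and `m C = C(n,l) N`), so the hypothesis says
`W'(Y) := ∑_Y (1 + w) ≤ C ((1+δ)/2 + 1/20)`.  `z = n - n/(5m)`; `C(z,m) ≥ 0.79 C` for large `n` (Bernoulli: `C(z,m)/C(n,m) ≥ (1 - (n/(5m))/(n-m+1))^m ≥
1 - (n/5)/(n-m+1)`).
Case 1: `12 m d ≥ n`.  `2 #Y = #{A ∈ Y : w A = 0} + W'(Y) ≤ C (1-δ) + C ((1+δ)/2 + 1/20)`, so `#Y ≤ 0.775 C ≤ C(z,m)`.  KKA: `(m+1) #(dn Y) ≤ (z-m) #Y`,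
KKB: `(m+1) #(up Y) ≥ (n-m) #Y`, so `(d+1) (#(up Y) - #(dn Y)) ≥ (n/(12m)) (n/(5m)) #Y / (m+1) ≥ n² #Y / (200 m³)`; MDA (b).
Case 2: `12 m d < n`.  `#Y ≤ W'(Y) ≤ 0.6 C ≤ C(z,m)` (`δ ≤ 1/(12 m) * n / N`), so `(m+1) (N+d) #(dn Y) ≤ (N+d) (z-m) #Y`, and
`N (n-m) - (N+d) (z-m) ≥ N (n/(5m)) - n²/(12m) - .. ≥ n²/(10m)`.  (Large `n`.) -/
def Goal_MDS : Prop :=
  ∀ l : ℕ, ∃ n₀ : ℕ, ∀ n ≥ n₀, ∀ (d : ℕ) (w : Finset (Fin n) → ℕ), Des n l d w →
    ∀ Y ⊆ lev n (l + 1),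
      20 * ∑ A ∈ Y, (1 + w A) ≤ 10 * ∑ A ∈ lev n (l + 1), (1 + w A) + n.choose (l + 1) →
      200 * (l + 1) ^ 3 * ((l + 2) * (n - l + d) * #(dn (l + 1) Y)) + n ^ 2 * #Y ≤
        200 * (l + 1) ^ 3 * ((n - (l + 1)) * (n - l) * ∑ A ∈ Y, (1 + w A))

/-- **N0D.** Numerical (as `Pool/Agent/Helper7/FS/N0.lean`).  Proof.  `E ≤ n^(m - 1/10)`, `E' ≤ n^(m + 9/10)`, `k, k', s ≤ n^(1/(100m))`, so the
first left side is at most `C_m n^(m + 2 - 1/10 + 1/100)`, and `n² C(n/(4s²), m) ≥ c_m n^(m+2) / s^(2m) ≥ c_m n^(m+2-1/50)`. -/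
def Goal_N0D : Prop :=
  ∀ m : ℕ, 1 ≤ m → ∃ n₀ : ℕ, ∀ n ≥ n₀, ∀ s k k' E E' : ℕ, 1 ≤ s → s ^ (100 * m) ≤ n → k ≤ s → 1 ≤ k' →
    k' ≤ s → E ^ 10 ≤ n ^ (10 * m - 1) → E' ^ 10 ≤ n ^ (10 * m + 9) →
    400 * m ^ 3 * (k' * n ^ 2 * E + 2 * k * (m + 1) * n * E') ≤ n ^ 2 * (n / (4 * s ^ 2)).choose m ∧
    10 * E ≤ n.choose m ∧ 2 * k * (m + 1) * n ≤ k' * (n - m) * (n - (m - 1)) ∧
    m ≤ n / (4 * s ^ 2) ∧ 64 * s ^ 2 * (n / (4 * s ^ 2)) + s * (m + 1) ≤ 63 * (n - m) ∧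
    65 * (s * (m + 1)) ≤ 63 * (n - m) ∧ 2 * (m + 1) ≤ n

/-- **MD** (hypotheses `SR.Goal_SYM`, `NF.Goal_CLS`, MDA, MDS, N0D; adapt `Pool/Agent/Helper47/FS/M2T.lean`, the case `l = 1`, and
`Pool/Agent/Helper71/FS/R1K.lean` for the closing).  Proof.  `m = l + 1`, `N = n - l`, `D = N + d ≤ 2 n`, `W'(F) = ∑_F (1 + w)`.  For `F ⊆ lev n m`:
`k W'(F) ≤ W(F) ≤ k W'(F) + E`; for `F ⊆ lev n (m+1)`: `k' #F ≤ W(F) ≤ k' #F + E'` (the complement has at least the weight `k' * #`).  SYM: `2 W(Y) ≤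
W(lev n m)`, so `2 k W'(Y) ≤ k W'(lev n m) + E` and `10 E ≤ C(n,m)` (N0D): MDS applies.  `z = n/(4s²)`.
Case `C(z,m) ≤ #Y`: `(m+1) D k [W(up S) - W(dn Y)] ≥ (m+1) D k [k' #(up S) - k' #(dn Y) - E'] ≥ k k' [(n-m) N W'(S) - (n-m) N W'(Y) + n² #Y /(200 m³)] -
(m+1) D k E' ≥ k' (n-m) N [W(S) - E - W(Y)] + k k' n² #Y / (200 m³) - (m+1) D k E'` (MDA (a), MDS), and this is at least `(m+1) D k [W(S) - W(Y)]` because
`(m+1) D k ≤ 2 k (m+1) n ≤ k' (n-m) N`, `W(Y) < W(S)`, and `k' n² E + 2 k (m+1) n E' ≤ n² #Y / (400 m³)` (N0D).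
Case `#Y < C(z,m)`: CLS with `s`, `j = m`, `i = z - m`; `Nn G m (s+1) = Nn G (m+1) (s+1) = 0`, `#S ≤ C(n,m)`, as in R1K. -/
def Goal_MD : Prop :=
  ∀ l : ℕ, ∃ n₀ : ℕ, ∀ n ≥ n₀, ∀ (s k k' E E' d : ℕ) (w : Finset (Fin n) → ℕ) (G : Grp n), 1 ≤ s →
    s ^ (100 * (l + 1)) ≤ n → (∀ A ∈ lev n (l + 1), 1 + wt G A ≤ s) →
    (∀ A ∈ lev n (l + 2), 1 + wt G A ≤ s) → Des n l d w → 1 ≤ k →
    (∀ A ∈ lev n (l + 1), k * (1 + w A) ≤ 1 + wt G A) →
    W G (lev n (l + 1)) ≤ k * ∑ A ∈ lev n (l + 1), (1 + w A) + E →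
    AU G (l + 2) k' E' → E ^ 10 ≤ n ^ (10 * (l + 1) - 1) → E' ^ 10 ≤ n ^ (10 * (l + 1) + 9) →
    StarAt G (l + 1)

/-- at most two orbits on the `m`-sets -/
def Two {n : ℕ} (G : Grp n) (m : ℕ) : Prop := ∀ A ∈ lev n m, ∀ B ∈ lev n m, ∀ C ∈ lev n m,
  (∃ γ ∈ G, mv γ A = B) ∨ (∃ γ ∈ G, mv γ A = C) ∨ ∃ γ ∈ G, mv γ B = C

/-- **TWO** (hypotheses `SR.Goal_STAN`, `SR.Goal_ORB`; see `Pool/Agent/Helper50/FS/HOM.lean`).  Proof.  `W(O) = |G|` for an orbit `O` (ORB).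
`S`, `Y` are unions of orbits with `W(Y) < W(S)`, so `Y` has less orbits than `S`, and there are at most two orbits: either `Y = ∅`
(`dn m ∅ = ∅`, STAN for `S`), or `S = lev n m`: then `up m S = lev n (m+1)`, `W(up m S) - W(dn m Y) = W(up m Z)` for `Z = lev n m \ Y`, and
`W(up m Z) ≥ W(Z) = W(S) - W(Y)` by STAN. -/
def Goal_TWO : Prop := ∀ (n m : ℕ) (G : Grp n), Two G m → 2 * m + 1 ≤ n → StarAt G m

/-! ## Overgroups of subgroups of index at most 2 of `PGL(2, q)` -/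

/-- **PG5** (see `Pool/Agent/Helper81/FS/PG4.lean`).  Proof.  Every 4-set `A` has `4 ≤ 1 + wt P A ≤ 1 + wt N A` (the four elements of the Klein group).
Let `1 + wt N A ≠ 4`.  Then some `γ ∈ N`, `mv γ A = A`, is different from the four elements of `V(A) ≤ P` (the identity and the three elements of
`P` inducing double transpositions on `A`; `V(A)` is transitive on `A`).  Multiply `γ` with an element of `V(A)`: there is `τ ∈ N`, `τ ≠ 1`, `mv τ A = A`, `τ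
d = d` for some `d ∈ A`.  `A = {a,b,c,d}`, `τ` permutes `a, b, c`.  For given `(a,b,c)` (`n³` choices) and a permutation of `{a,b,c}` (6 choices) there
are at most `L` such `τ` (`pst`), and `d` is a fixed point of `τ` (at most `f`).  So at most `6 L f n³` sets `A`. -/
def Goal_PG5 : Prop := ∀ (n L f : ℕ) (P N : Grp n), 4 ≤ n → PG n P → P ≤ N → Eg 3 n L f N →
  (∀ A ∈ lev n 4, 4 ≤ 1 + wt N A) ∧ #((lev n 4).filter (fun A => 1 + wt N A ≠ 4)) ≤ 6 * L * f * n ^ 3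

/-- `P0` is a subgroup of `P` of index at most 2, `P0 ≤ G ≤ N`, `P ≤ N`, `P` normalises `G` -/
structure Ov (n : ℕ) (P0 P G N : Grp n) : Prop where
  pg : PG n P
  le0 : P0 ≤ P
  idx : ∀ π ∈ P, ∀ π' ∈ P, π ∉ P0 → π' ∉ P0 → π * π' ∈ P0
  leG : P0 ≤ G
  leN : G ≤ N
  lePN : P ≤ N
  nor : ∀ π ∈ P, ∀ γ ∈ G, π * γ * π⁻¹ ∈ G

/-- **PG6** (hypotheses STBB, PG5).  Proof.  `w A = 1` if `#A = 4` and `4 ≤ 1 + wt G A`, otherwise `0`.  It is `P`-invariant (`nor`: the stabiliser of `π A` is the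
conjugate), and `P` is transitive on the 3-sets, so the degree of `w` on the 3-sets is constant (bijection `x ↦ π x`).  Lower bound: let `A` be a 4-set; the
three involutions `σ₁, σ₂, σ₁ σ₂` of `V(A) ≤ P` (see PG5): one of them is in `P0` (`idx`), so `2 ≤ 1 + wt P0 A ≤ 1 + wt G A`.  Upper bound: if `1 + wt N A = 4`
then `1 + wt G A` divides 4 (Lagrange; or: it is at most 4 and not 3), so it is at most `2 (1 + w A)`.  The other at most `6 L f n³` sets (PG5) have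
`1 + wt G A ≤ 1 + wt N A ≤ L 4³` (STBB).  `Two G 3`: given three 3-sets `A, B, C`; `π A = B`, `π' A = C` with `π, π' ∈ P`; if neither is in `P0` then
`π' π⁻¹ ∈ P0` maps `B` to `C` (`π⁻¹ ∉ P0`). -/
def Goal_PG6 : Prop := ∀ (n L f : ℕ) (P0 P G N : Grp n), 4 ≤ n → Ov n P0 P G N → Eg 3 n L f N →
  Two G 3 ∧ ∃ (w : Finset (Fin n) → ℕ) (d : ℕ), Des n 3 d w ∧
    (∀ A ∈ lev n 4, 2 * (1 + w A) ≤ 1 + wt G A) ∧
    W G (lev n 4) ≤ 2 * ∑ A ∈ lev n 4, (1 + w A) + 1000 * L ^ 2 * f * n ^ 3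

/-! ## The explicit groups -/

/-- **PGLX.** Mathlib's action of `GL(2, K)` on `OnePoint K` (`OnePoint.smul_infty_eq_ite`, `OnePoint.smul_some_eq_ite`).  Proof.  (1) For different
`a, b, c` there is `g` with `g ∞ = a`, `g 0 = b`, `g 1 = c`: take `g = [[p₀ x, q₀ y],[p₁ x, q₁ y]]` for vectors `p, q, r` representing `a, b, c` (`OnePoint.equivProjectivization`),
`r = x p + y q`; or directly: if `a = ∞` take `[[c - b, b],[0, 1]]`, if `b = ∞` take `[[a, c - a],[1, 0]]`, if `c = ∞` take `[[a, -b],[1, -1]]`, otherwise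
`[[a (c - b), b (a - c)],[c - b, a - c]]`.  So `ex` (composition).  (2) `un`: by (1) and conjugation we may assume `a, b, c = ∞, 0, 1`: then `g 1 0 = 0`, `g 0 1 = 0`, `g 0 0 =
g 1 1`, and `g` acts as the identity.  (3) `inv`: by (1) we may assume `a = ∞`, `b = 0` (`n ≥ 3`): `g ∞ = 0` gives `g 0 0 = 0`, `g 0 = ∞` gives `g 1 1 = 0`, so `g * g`
is a scalar matrix, which acts as the identity. -/
def Goal_PGLX : Prop := ∀ (n : ℕ) (K : Type) [Field K] [DecidableEq K] (e : OnePoint K ≃ Fin n),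
  PG n (pgl e)

/-- **PSLX** (hypothesis PGLX or its part (1)).  Proof.  `g` and `c g` (`c` a scalar, `c ≠ 0`) act in the same way on `OnePoint K`, and `det (c g) = c² det g`.  So `g` acts as
an element of `psl` if `det g` is a square.  `K` is finite, so the product of two nonsquares is a square: `idx`.  `Hom (psl e) 1`, `Hom (psl e) 2`: if `g ∞ = a`, `g 0 = b`
then `g * diag(det g ⁻¹, 1)` has determinant 1 and does the same. -/
def Goal_PSLX : Prop := ∀ (n : ℕ) (K : Type) [Field K] [DecidableEq K] (e : OnePoint K ≃ Fin n),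
  psl e ≤ pgl e ∧ (∀ π ∈ pgl e, ∀ π' ∈ pgl e, π ∉ psl e → π' ∉ psl e → π * π' ∈ psl e) ∧
    Hom (psl e) 2 ∧ 3 ≤ n

/-- **NORX.** Proof.  `π = g`, `γ = (h, φ)`: `π γ π⁻¹ = κ γ` where `κ` is given by the matrix `g h (g⁻¹)^φ h⁻¹` (`OnePoint.map_smul`), whose determinant is `det g / φ(det
g)`.  `K` is finite: `x` is a square iff `φ x` is a square, so `x / φ x` is a square for `x ≠ 0` (the quotient of two nonsquares is a square), and `κ ∈ psl e ≤ G`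
(scale the matrix). -/
def Goal_NORX : Prop := ∀ (n : ℕ) (K : Type) [Field K] [DecidableEq K] (e : OnePoint K ≃ Fin n)
  (G : Grp n), psl e ≤ G → G ≤ pgam e → ∀ π ∈ pgl e, ∀ γ ∈ G, π * γ * π⁻¹ ∈ G

/-- **PGAMX** (hypothesis PGLX).  Proof.  `K` is finite with `n - 1` elements, `L = |Aut K|`.  `2^L ≤ |K|`: `K` has `p^r` elements and `Aut K` has `r` elements (an automorphism
is `ZMod p`-linear; `IsGalois.card_aut_eq_finrank` or `AlgEquiv` bounds by `finrank`).  Pointwise stabilisers of three points: by PGLX conjugate them to `∞, 0, 1`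
(`pgl e ≤ pgam e`); if `(g, φ)` fixes `∞, 0, 1` then `g` fixes `∞, 0, 1` too and acts as the identity, so the element is `OnePoint.map φ`: at most `L` elements.
An element `≠ 1` with at least three fixed points is conjugate to `OnePoint.map φ`, `φ ≠ 1`, whose fixed points are `∞` and the elements of the subfield `F` fixed
by `φ`; `F ≠ K`, so `|K| = |F|^d`, `d ≥ 2` (`Module.card_eq_pow_finrank`), `|F| ≤ √n`.  An element with at most two fixed points: `2 ≤ √n + 1`. -/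
def Goal_PGAMX : Prop := ∀ (n : ℕ) (K : Type) [Field K] [DecidableEq K] (e : OnePoint K ≃ Fin n),
  pgl e ≤ pgam e ∧ ∃ L : ℕ, Nat.card (K ≃+* K) = L ∧ 2 ^ L ≤ n ∧ Eg 3 n L (Nat.sqrt n + 1) (pgam e)

/-- **AFG** (hypothesis PGAMX, used for the field `K` on `OnePoint K ≃ Fin (n + 1)`).  Proof.  `L = |Aut K|`.  `Eg 2`: an element of `G` fixing `x ≠ y`: conjugate with `t ↦ (t -
x)/(y - x)`: it becomes `t ↦ φ t`; so at most `L` elements, and an element `≠ 1` has at most `1` or at most `√n` fixed points (as in PGAMX; or use PGAMX for the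
extension to `OnePoint K`).  `cyc G 3`: let `γ t = a φ t + b` map `x ↦ y ↦ z ↦ x` (distinct).  `a = (z - y)/(φ y - φ x)`, `b = y - a φ x`, so `γ` is determined by `φ, x, y, z`, and
`a φ z + b = x` gives for `u = (z - y)/(y - x)`: `u (φ u + 1) = -1`, i.e. `u = -1/(1 + φ u)`: `u` is a fixed point of the element `([[0, -1],[1, 1]], φ)` of `pgam`, which is
not the identity (it maps `∞` to `0`), so there are at most `√(n+1) + 1` such `u` for every `φ`.  The pairs `(γ, {x,y,z})` are at most as many as the `(φ, x, y, u)`. -/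
def Goal_AFG : Prop := ∀ (n : ℕ) (K : Type) [Field K] (e : K ≃ Fin n) (G : Grp n), G ≤ agam e →
  ∃ L : ℕ, 2 ^ L ≤ n + 1 ∧ Eg 2 n L (Nat.sqrt (n + 1) + 1) G ∧
    cyc G 3 ≤ L * (Nat.sqrt (n + 1) + 1) * n ^ 2

/-- **AFH.** Proof.  (1) `x ↦ x + b` is in `aff e A`.  (2) `x ↦ a x + b` maps `(0, 1)` to any pair `(b, a + b)`, `a ≠ 0`.  (3) If `a x + b = x` has two solutions then `a = 1`, `b = 0`.
(4) If `γ x = a x + b` has order 3 then `a³ = 1` (the leading coefficient of `γ³`; evaluate at `0` and `1`), so there are at most 3 possibilities for `a` (roots of `X³ - 1`) and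
`n` for `b`. -/
def Goal_AFH : Prop := ∀ (n : ℕ) (K : Type) [Field K] (e : K ≃ Fin n),
  (∀ A : Subgroup Kˣ, (∀ x y, ∃ γ ∈ aff e A, γ x = y) ∧ (∀ γ ∈ aff e A, γ ≠ 1 → fx γ ≤ 1) ∧
    #((els (aff e A)).filter (fun γ => orderOf γ = 3)) ≤ 3 * n) ∧
  Hom (aff e ⊤) 2 ∧ 2 ≤ n

end Pool.Agent.Helper91.FS
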