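import Pool.Agent.Helper91.FS.Defs

/-!
# Project FS (MP_0130f7_co): goals

The theorem: groups `G ≤ S_n` (`n` large) in which `t` points have a small pointwise stabiliser and the elements `≠ 1`
have few fixed points; only the levels `m ≤ 5 t` need an extra hypothesis.  Applications: small groups with few fixed
points (`t = 1`), Frobenius groups and other transitive groups with small two-point stabilisers (`t = 2`), `PGL(2, q)`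
(`t = 3`).

Every `Goal_X` is a packet; its docstring is the paper proof.  Prove it as `theorem goal_X : Goal_X` (the goals used are
hypotheses, e.g. `theorem goal_NST (h1 : Goal_STBB) .. : Goal_NST`) in your own file `Pool/Agent/<Seat>/FS/X.lean`,
namespace `Pool.Agent.<Seat>.FS`.  Many proofs are adaptations of landed files of project NF (named in the docstrings; all
landed names are in `Pool/Agent/Helper49/NF/Main.lean`).  Notation as in NF: `lev n m` all `m`-sets, `1 + wt G A = |Stab A|`,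
`W G F = ∑_{A∈F} (1 + wt G A) = #F + Ew G F`, `up m F` / `dn m F` the `(m+1)`-sets having some / all `m`-subsets in `F`.
-/

set_option autoImplicit false

namespace Pool.Agent.Helper91.FS

open Finset
open Pool.Agent.Helper47.SR (Grp mv lev wt Ew W IsInv up dn StarAt HalfStarAt)
open Pool.Agent.Helper49.NF

/-! ## Part 1: counting -/

/-- **STBB.** Proof.  (1) The map `γ ↦ (γ x)_{x∈T}` from the set on the left to the functions `T → B`; if `γ₀`, `γ` have the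
same image then `γ₀⁻¹ γ` fixes the points of `T`, so the fibres have at most `L` elements.  (2) `B = univ`, any `T` with `t`
elements (`t ≤ n`).  (3) `T ⊆ A` with `t` elements, `B = A`: the elements counted by `1 + wt` map `A` to `A`. -/
def Goal_STBB : Prop :=
  ∀ (t n L f : ℕ) (G : Grp n), Eg t n L f G →
    (∀ T B : Finset (Fin n), #T = t → #((els G).filter (fun γ => ∀ x ∈ T, γ x ∈ B)) ≤ L * #B ^ t) ∧
    #(els G) ≤ L * n ^ t ∧ ∀ A : Finset (Fin n), t ≤ #A → 1 + wt G A ≤ L * #A ^ t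

/-- **ORBT.** (Adapt `Pool/Agent/Helper69/NF/ORBK.lean`.)  Sets invariant under a group with small `t`-point stabilisers.
Proof.  Let `A` be `H`-invariant with `#A = j`.  Call an orbit small if it has less than `b` points.  `A` contains at most
`t - 1` small orbits: otherwise choose points `x` in `t` different small orbits, `T` the set of them; `γ ↦ (γ x)_{x∈T}` maps
`H` into the product of these orbits (at most `(b-1)^t` elements) with fibres of at most `L` elements (cosets of the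
pointwise stabiliser of `T`), so `|H| ≤ L (b-1)^t < L b^t ≤ s ≤ |H|`.  `A` contains at most `j / b` other orbits.  So `A` is
determined by a set of at most `t - 1 + j / b` representatives (`small_sets` in the ORBK file). -/
def Goal_ORBT : Prop :=
  ∀ (t n L s b j : ℕ) (H : Grp n), 1 ≤ t → (∀ T : Finset (Fin n), #T = t → pst H T ≤ L) → 1 ≤ L → 1 ≤ b →
    L * b ^ t ≤ s → s ≤ Nat.card H → inv H j ≤ (n + 1) ^ (t - 1 + j / b)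

/-- **NST** (hypotheses STBB, ORBT, `NF.Goal_ORBC`; adapt `Pool/Agent/Helper94/NF/NS.lean`).  Proof.  As NS, with `|G| ≤ L n^t` and
`1 + wt G A ≤ L j^t ≤ L n^t` (STBB, `t ≤ j`) instead of `K n`; `pst H T ≤ pst G T ≤ L` for `H ≤ G`. -/
def Goal_NST : Prop :=
  ∀ (t n L f : ℕ) (G : Grp n), Eg t n L f G → ∀ j s, t ≤ j → j ≤ n → 1 ≤ s →
    (∀ b, 1 ≤ b → L * b ^ t ≤ s → Nn G j s ≤ (L * n ^ t) ^ (s + 1) * (n + 1) ^ (t - 1 + j / b)) ∧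
    (2 * j ≤ n → Nn G j s ≤ (L * n ^ t) ^ (s + 1) * (4 ^ f * ((n + 1) * (n / s).choose (j / s))))

/-- **EJT** (hypotheses STBB, `NF.Goal_CYC`; see `Pool/Agent/Helper24/NF/EJ.lean`).  Proof.  `Ew G (lev n j) = ∑_{γ∈G, γ≠1}
#{A | mv γ A = A}`, CYC, `fx γ ≤ f`, `C(·, p)` is monotone, `|G| ≤ L n^t`. -/
def Goal_EJT : Prop :=
  ∀ (t n L f : ℕ) (G : Grp n), Eg t n L f G → ∀ j, Ew G (lev n j) ≤ L * n ^ t * Mb n f j

/-- **NSBT** (hypothesis NST; adapt `Pool/Agent/Helper34/NF/NSB.lean`).  Proof.  As NSB; `(L n^t)^(s+1) = (L n)^(s+1) * (n^(t-1))^(s+1)` and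
`n^((t-1)(s+1)) ≤ 2^(Lg n * t * (8 Lg n + 1)) ≤ 4^(t * Lg n * (8 Lg n + 3))` for `s ≤ 8 Lg n`.  (`n ≤ 2 ^ Lg n`.) -/
def Goal_NSBT : Prop :=
  ∀ (t n L f : ℕ) (G : Grp n), Eg t n L f G → ∀ m, t ≤ m → 2 * (m + 1) ≤ n →
    (∀ s, 1 ≤ s → s ≤ 8 * Lg n → Nn G m s ≤ Bb n L (F1 t n f) m s ∧
      Nn G (m + 1) s ≤ Bb n L (F1 t n f) m s) ∧
    Ew G (lev n m) ≤ Bb n L (F1 t n f) m 2 ∧ Ew G (lev n (m + 1)) ≤ Bb n L (F1 t n f) m 2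

/-- **REDT** (hypotheses STBB, `NF.Goal_SB`, `SR.Goal_SYM`, `SR.Goal_STAN`, `SR.Goal_TR2`, `SR.Goal_KKA`; adapt
`Pool/Agent/Helper86/NF/RED.lean`).  Proof.  As RED, with `1 + wt ≤ L (m+1)^t` on `dn m Y`: `W(dn Y) ≤ L (m+1)^t #(dn Y) ≤ L
(m+1)^(t-1) (n-m) #Y ≤ L n^t W(Y) < L n^t W(S)`. -/
def Goal_REDT : Prop :=
  ∀ (t n L f m : ℕ) (G : Grp n), Eg t n L f G → t ≤ m → 2 * (m + 1) ≤ n →
    n * Ew G (lev n m) ≤ 2 * n.choose m →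
    (∀ S Y, Fam G m S Y → 2 ^ (m + 1) ≤ W G (dn m Y) → 2 ^ (m + 1) < L * n ^ t * W G S →
      W G S < 2 * TT G m → Sat G m S Y) →
    StarAt G m

/-! ## Part 2: fixed levels -/

/-- **SBK** (hypotheses `SR.Goal_KKA`, `SR.Goal_KKB`; adapt `Pool/Agent/Helper90/NF/SB.lean`).  Proof.  For `F ⊆ lev n m`: `k #F ≤ W(F) ≤ k
#F + E` (the complement has weight at least `k` times its cardinality), in the same way for `k'`, `E'` and level `m+1`.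
`k (m+1) W(dn Y) ≤ k k' (m+1) #(dn Y) + k (m+1) E' ≤ k k' (z-m) #Y + k (m+1) E' ≤ k' (z-m) W(Y) + k (m+1) E'` (KKA),
`k (m+1) W(up S) ≥ k k' (m+1) #(up S) ≥ k k' (n-m) #S ≥ k' (n-m) (W(S) - E)` (KKB, `w = n`).  So
`k (m+1) [W(up S) + W(Y) - W(dn Y) - W(S)] ≥ (k' (n-m) - k (m+1)) (W(S) - W(Y)) + k' (n-z) W(Y) - k' (n-m) E - k (m+1) E'`. -/
def Goal_SBK : Prop :=
  ∀ (n m z k k' E E' : ℕ) (G : Grp n) (S Y : Finset (Finset (Fin n))), 1 ≤ m → 2 * (m + 1) ≤ n →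
    m ≤ z → z ≤ n → Fam G m S Y → #Y ≤ z.choose m → AU G m k E → AU G (m + 1) k' E' →
    k * (m + 1) ≤ k' * (n - m) →
    k' * (n - m) * E + k * (m + 1) * E' ≤ k' * (n - z) * W G Y → Sat G m S Y

/-- **R1K** (hypotheses SBK, `NF.Goal_CLS`, `SR.Goal_SYM`; adapt `Pool/Agent/Helper79/NF/R1A.lean`).  Proof.  SYM: `2 W(Y) ≤ W(lev n m)`, so
`2 k #Y ≤ k C(n,m) + E`, `2 #Y ≤ C(n,m) + E ≤ 2 C(n-r,m)`.  If `C(z,m) ≤ W(Y)`: SBK with `z := n - r` (`k' ≥ 1`).  Otherwise `#Y ≤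
W(Y) < C(z,m)`: CLS with `s`, `j = m`, `i = z - m`; `Nn G m (s+1) = Nn G (m+1) (s+1) = 0`, and `#S ≤ C(n,m)`. -/
def Goal_R1K : Prop :=
  ∀ (n m s r z k k' E E' : ℕ) (G : Grp n), 1 ≤ m → 2 * (m + 1) ≤ n → 1 ≤ s → m ≤ z → z ≤ n → m + r ≤ n →
    (∀ A ∈ lev n m, 1 + wt G A ≤ s) → (∀ A ∈ lev n (m + 1), 1 + wt G A ≤ s) →
    AU G m k E → AU G (m + 1) k' E' → k * (m + 1) ≤ k' * (n - m) →
    n.choose m + E ≤ 2 * (n - r).choose m →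
    k' * (n - m) * E + k * (m + 1) * E' ≤ r * z.choose m →
    64 * s ^ 2 * z + s * (m + 1) ≤ 63 * (n - m) → 65 * (s * (m + 1)) ≤ 63 * (n - m) → StarAt G m

/-- **N0.** Numerical, `m` is fixed and `n → ∞`.  Proof.  With `x = E`: `x ≤ n^(m - 1/10)`, `E' ≤ n^(m + 9/10)`,
`s ≤ n^(1/(100m))`, so the left side of the first claim is at most `(m+2) n^(m + 9/10 + 1/100)`, and the right side is at least
`(n/(8m)) (z/m)^m` (`Nat.pow_le_choose` or similar), `z ≥ n/(5 s²)`, i.e. at least `c n^(m+1) / s^(2m) ≥ c n^(m+1-1/50)`; compare the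
100-th powers.  Second claim: `3 C(n,m) ≤ 4 C(n - n/(4m), m)` (Bernoulli: `C(n-r,m)/C(n,m) ≥ (1 - r/(n-m))^m ≥ 1 - m r/(n-m)`,
`r = n/(4m)`; see N1C of NF, `Pool/Agent/Helper41/NF/N1C.lean`, careful with `m = 1`) and `E ≤ C(n,m)/8`; then `3 C + 3 E ≤ 4.5 C`.. so
precisely: prove `16 C(n,m) ≤ 22 C(n-r,m)` (true since `(1 - m r/(n-m))` tends to at least `3/4 > 8/11`) and `8 E ≤ C(n,m)`. -/
def Goal_N0 : Prop :=
  ∀ m : ℕ, 1 ≤ m → ∃ n₀ : ℕ, ∀ n ≥ n₀, ∀ s k k' E E' : ℕ, 1 ≤ s → s ^ (100 * m) ≤ n → k ≤ s → 1 ≤ k' →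
    k' ≤ s → E ^ 10 ≤ n ^ (10 * m - 1) → E' ^ 10 ≤ n ^ (10 * m + 9) →
    k' * (n - m) * E + k * (m + 1) * E' ≤ n / (4 * m) * (n / (4 * s ^ 2)).choose m ∧
    n.choose m + E ≤ 2 * (n - n / (4 * m)).choose m ∧ k * (m + 1) ≤ k' * (n - m) ∧
    m ≤ n / (4 * s ^ 2) ∧ 64 * s ^ 2 * (n / (4 * s ^ 2)) + s * (m + 1) ≤ 63 * (n - m) ∧
    65 * (s * (m + 1)) ≤ 63 * (n - m) ∧ 2 * (m + 1) ≤ n ∧ m + n / (4 * m) ≤ n

/-- **LEVF** (hypotheses R1K, N0).  Proof.  `r = n/(4m)`, `z = n/(4s²)`; `k ≤ s` because `lev n m` is not empty. -/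
def Goal_LEVF : Prop :=
  ∀ m : ℕ, 1 ≤ m → ∃ n₀ : ℕ, ∀ n ≥ n₀, ∀ (s k k' E E' : ℕ) (G : Grp n), 1 ≤ s → s ^ (100 * m) ≤ n →
    (∀ A ∈ lev n m, 1 + wt G A ≤ s) → (∀ A ∈ lev n (m + 1), 1 + wt G A ≤ s) →
    AU G m k E → AU G (m + 1) k' E' → E ^ 10 ≤ n ^ (10 * m - 1) → E' ^ 10 ≤ n ^ (10 * m + 9) →
    StarAt G m

/-! ## Part 3: the levels above `5 t` -/

/-- **CMPT.** Numerical.  Proof.  `f0` = the largest number with `f0^5 ≤ n^4`; `(2 f0)^5 ≥ (f0+1)^5 > n^4`, so `32 f0^5 ≥ n^4`.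
`Ma n f0 j ≥ f0^(j-1)` (the term `p = j`, `r = 0`).  Every term `C(f,p) C(n/2,r) ≤ f^p n^r` (`p + 2r ≤ j`) of `Mb n f j` satisfies
`(f^p n^r)^5 ≤ n^(3p+5r) ≤ n^(3j)`, and there are at most `(j+1)^2` terms, so `(n^t Mb)^5 ≤ n^(5t) (j+1)^10 n^(3j)`.  It
suffices that `32^(j-1) (j+1)^10 n^(5t+3j) ≤ n^(5+4(j-1)) = n^(4j+1)`, i.e. `32^(j-1) (j+1)^10 ≤ n^(j+1-5t)`.  Now
`32^(j-1) (j+1)^10 ≤ 2^(15 (j+1))` and `(5t+2) (j+1-5t) ≥ 2 (j+1) ≥ j+1` for `j ≥ 5t+1`, so `n ≥ 2^(15 (5t+2))` suffices. -/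
def Goal_CMPT : Prop :=
  ∀ t : ℕ, 1 ≤ t → ∃ n₀ : ℕ, ∀ n ≥ n₀, ∃ f0 : ℕ, f0 ^ 5 ≤ n ^ 4 ∧ ∀ f j : ℕ, f ^ 5 ≤ n ^ 3 →
    5 * t + 1 ≤ j → n ^ t * Mb n f j ≤ n * Ma n f0 j

/-- **R1AT** (hypotheses STBB, EJT, R1K, CMPT, `NF.Goal_N1A`, `NF.Goal_N1C`; see `Pool/Agent/Helper79/NF/R1A.lean`).
Proof.  `K = L (m+1)^(t-1)`, `s = K (m+1) = L (m+1)^t`, so `1 + wt ≤ s` on the levels `m`, `m+1` (STBB), and
`K^100 ≤ n` since `(L^100)^10 ≤ n`, `(m+1)^(100 t) ≤ (m^2)^(100 t)`, `m^(400 t) ≤ n`.  By EJT and CMPT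
`Ew(lev n j) ≤ L n^t Mb n f j ≤ K n Ma n f0 j`, `j = m, m+1`.  N1A (with `K`, `f0`) and N1C (with `K`) give the numerical hypotheses of R1K for
`r = n/(4m)`, `z = n/(4s²)`, `k = k' = 1`, `E = Ew(lev n m)`, `E' = Ew(lev n (m+1))` (`W(lev n j) = C(n,j) + Ew`): `4 E ≤ C(n,m)` follows as in
the R1A file, and then `C(n,m) + E ≤ (5/4) C(n,m) ≤ (5/3) C(n-r,m)`. -/
def Goal_R1AT : Prop :=
  ∀ t : ℕ, 1 ≤ t → ∃ n₀ : ℕ, ∀ n ≥ n₀, ∀ (L f : ℕ) (G : Grp n), Eg t n L f G → L ^ (1000 * t) ≤ n →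
    f ^ 5 ≤ n ^ 3 → ∀ m, 5 * t < m → m ^ (400 * t) ≤ n → StarAt G m

/-- **NUMK** (hypothesis `NF.Goal_LOG`).  Numerical.  Proof.  `L * (16 Lg n)^t = 8 K Lg n` with `K = 2 * 16^(t-1) * L * (Lg n)^(t-1)`, and
`K^100 ≤ n` by LOG (`L^100` has the 10-th power at most `n`; compare 2-nd powers: `L^200 ≤ n^(1/5)..`). -/
def Goal_NUMK : Prop :=
  ∀ t : ℕ, 1 ≤ t → ∃ n₀ : ℕ, ∀ n ≥ n₀, ∀ L : ℕ, 1 ≤ L → L ^ (1000 * t) ≤ n →
    ∃ K : ℕ, 1 ≤ K ∧ K ^ 100 ≤ n ∧ L * (16 * Lg n) ^ t = 8 * K * Lg n ∧ 1 ≤ Lg n ∧ L ^ 100 ≤ n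

/-- **NUMD** (hypothesis `NF.Goal_LOG`; compare `Pool/Agent/Helper39/NF/N1D.lean`).  Numerical.  Proof.  `l = Lg n`, `n ≤ 2^l`,
`n + 1 ≤ 2^(l+1)`, `L ≤ n`, so `L n^t ≤ 2^((t+1) l)`; `b = 16 l`, `h = L b^t`.  `(n+1)^(t-1+(m+1)/b) ≤ 2^((l+1)(t-1) + (l+1)(m+1)/(16 l))
≤ 2^(2lt + (m+1)/8)`.  So both claims follow from `C_t L (l+1)^(t+1) ≤ m` (a constant `C_t`), e.g. the exponent of the second left
side is at most `6 + (t+1) l (h+3) + 2 l t + (m+1)/8`.  And `C_t L (l+1)^(t+1) ≤ m` because its `400 t`-th power is at most `n`: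
`L^(400 t)` has the power `5/2` at most `n`, `(C_t (l+1)^(t+1))^(400 t)` has the power `5/3` at most `n` by LOG. -/
def Goal_NUMD : Prop :=
  ∀ t : ℕ, 1 ≤ t → ∃ n₀ : ℕ, ∀ n ≥ n₀, ∀ m L : ℕ, n < m ^ (400 * t) → m ≤ n → 1 ≤ L → L ^ (1000 * t) ≤ n →
    2 * (n + 1) * (L * n ^ t * (n + 2) ^ 2 * n) ≤ 2 ^ m ∧
    64 * (L * n ^ t * ((L * n ^ t) ^ (L * (16 * Lg n) ^ t + 2) *
      (n + 1) ^ (t - 1 + (m + 1) / (16 * Lg n)))) ≤ 2 ^ (m + 1)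

/-- **R1BT** (hypotheses EJT, NST, REDT, `NF.Goal_CLS`, `NF.Goal_CMB`, `NF.Goal_N1B`, NUMK, NUMD; adapt
`Pool/Agent/Helper40/NF/R1B.lean`).  Proof.  As R1B with `L n^t` instead of `K n`, `h = L (16 Lg n)^t = 8 K Lg n` (NUMK), `z = n/(4h²)`:
N1B with `K` (`f^5 ≤ n^3 ≤ n^4`).  CMB gives `2^m Mb n f j ≤ (m+2)² n C(z,m)`, `j = m, m+1`, so by EJT and NUMD (first part) `2 TT G m ≤
C(z,m)` and `n Ew(lev n m) ≤ C(z,m) ≤ 2 C(n,m)`.  REDT: `#Y ≤ W(Y) < W(S) < 2 TT ≤ C(z,m)`.  CLS with `s = h`, `j = m`, `i = z - m`: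
`Nn G j (h+1) ≤ (L n^t)^(h+2) (n+1)^(t-1+(m+1)/b)`, `b = 16 Lg n` (NST, `L b^t = h ≤ h+1`), and `64 L n^t Nn ≤ 2^(m+1) < L n^t W(S)` (NUMD). -/
def Goal_R1BT : Prop :=
  ∀ t : ℕ, 1 ≤ t → ∃ n₀ : ℕ, ∀ n ≥ n₀, ∀ (L f : ℕ) (G : Grp n), Eg t n L f G → L ^ (1000 * t) ≤ n →
    f ^ 5 ≤ n ^ 3 → ∀ m, t ≤ m → n < m ^ (400 * t) → m ^ 10 ≤ n ^ 9 → StarAt G m

/-- **F1N** (hypothesis `NF.Goal_LOG`).  Numerical.  Proof.  `(x + y)^5 ≤ 32 (x^5 + y^5)`, `y = 2 t Lg n (8 Lg n + 3)`, `y^5 ≤ n` by LOG,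
`32 (n^3 + n) ≤ n^4`. -/
def Goal_F1N : Prop :=
  ∀ t : ℕ, 1 ≤ t → ∃ n₀ : ℕ, ∀ n ≥ n₀, ∀ f : ℕ, f ^ 5 ≤ n ^ 3 →
    (F1 t n f) ^ 5 ≤ n ^ 4 ∧ (F1 t n f + t * Lg n) ^ 5 ≤ n ^ 4

/-- **R2T** (hypotheses NSBT, REDT, F1N, `NF.Goal_CLS`, `NF.Goal_N2S`, `NF.Goal_N2J`, `NF.Goal_N2I`, `NF.Goal_N2H`; adapt
`Pool/Agent/Helper8/NF/R2.lean`).  Proof.  As R2 with `K = L`, `f` replaced by `f1 = F1 t n f`.  The only change: the least `s ≥ 2` with `128 (n+1) Bb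
n L f1 m (s+1) ≤ W(S)` exists and `s + 1 ≤ 8 Lg n`: N2S for `f1 + t Lg n` and `Bb n L (f1 + t Lg n) m s = 4^(t Lg n) Bb n L f1 m s ≥ n^t Bb n L f1
m s` give `L n (128 (n+1) n^t Bb n L f1 m (8 Lg n)) ≤ 2^(m+1) < L n^t W(S)`. -/
def Goal_R2T : Prop :=
  ∀ t : ℕ, 1 ≤ t → ∃ n₀ : ℕ, ∀ n ≥ n₀, ∀ (L f : ℕ) (G : Grp n), Eg t n L f G → L ^ (1000 * t) ≤ n →
    f ^ 5 ≤ n ^ 3 → ∀ m, t ≤ m → n ^ 9 < m ^ 10 → 100 * m ≤ 47 * n → StarAt G m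

/-- **R3T** (hypotheses NSBT, REDT, F1N, `NF.Goal_T3`, `SR.Goal_STAN`, `NF.Goal_N2H`, `NF.Goal_N3`; adapt
`Pool/Agent/Helper84/NF/R3.lean`).  Proof.  As R3 with `K = L`, `f` replaced by `F1 t n f` (`2, 3 ≤ 8 Lg n`). -/
def Goal_R3T : Prop :=
  ∀ t : ℕ, 1 ≤ t → ∃ n₀ : ℕ, ∀ n ≥ n₀, ∀ (L f : ℕ) (G : Grp n), Eg t n L f G → L ^ (1000 * t) ≤ n →
    f ^ 5 ≤ n ^ 3 → ∀ m, t ≤ m → 47 * n < 100 * m → 2 * (m + 1) ≤ n → StarAt G m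

/-! ## Part 4: homogeneous levels, invariant sets of small size -/

/-- **HOM** (hypotheses `SR.Goal_STAN`, `SR.Goal_ORB`).  Proof.  (1) `S`, `Y` are `∅` or `lev n m`, so `W(Y) < W(S)` gives `Y = ∅`, `dn m ∅ = ∅`
(a set with `m + 1 ≥ 1` elements has an element), and STAN.  (2) By STAN for `S = lev n j` (`up j (lev n j) = lev n (j+1)`) and ORB the number of
orbits on the `j`-sets increases with `j`, `2j + 1 ≤ n`; it is positive.  Induction on `m - j`. -/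
def Goal_HOM : Prop :=
  ∀ (n m : ℕ) (G : Grp n), Hom G m → (2 * m + 1 ≤ n → StarAt G m) ∧
    (2 * m ≤ n → ∀ j, j ≤ m → Hom G j)

/-- **EJR.** Proof.  `Ew G (lev n j)` is the number of pairs `(γ, A)`, `1 ≠ γ ∈ G`, `#A = j`, `mv γ A = A`.  For `x ∈ A` let `O` be the orbit of `x` under
the powers of `γ` (`SameCycle`), `O ⊆ A`, `B = A \ O` is `γ`-invariant.  (i) Some `x ∈ A` has `#B ≥ t`.  If `O = {x}` then `x` is a fixed point of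
`γ`, `#B = j - 1`: at most `f Ew(lev n (j-1))` pairs (`(γ, A) ↦ (γ, B, x)` is injective, `A = B ∪ {x}`).  If `#O ≥ 2` then `t ≤ #B ≤ j - 2`: at most
`n ∑_k Ew(lev n k)` pairs (`A = B ∪ O` is determined by `(γ, B, x)`).  (ii) All the orbits in `A` have more than `j - t` elements.  Two different
ones would give `2 (j - t + 1) ≤ j`, `j ≤ 2t - 2`.  So `A` is one orbit: `cyc G j` pairs.  Second claim: `A` is the orbit of `x`, determined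
by `(γ, x)`. -/
def Goal_EJR : Prop :=
  ∀ (t n L f : ℕ) (G : Grp n), Eg t n L f G → ∀ j, t + 1 ≤ j → 2 * t - 1 ≤ j →
    Ew G (lev n j) ≤ f * Ew G (lev n (j - 1)) + n * ∑ k ∈ Ico t (j - 1), Ew G (lev n k) + cyc G j ∧
    cyc G j ≤ n * #(els G)

/-- **LOWT** (hypotheses STBB, EJR).  Proof.  `Ew(lev n k) ≤ W(lev n k) ≤ L k^t C(n,k) ≤ L k^t n^k` for `k ≥ t`.  First part: `Ew(lev n j) ≤ f L j^t n^(j-1) +
n j L j^t n^(j-2) + n L n^t`, and `n^(t+1) ≤ n^(j-1)`: at most `3 L j^(t+1) (f + 1) n^(j-1)`; its 10-th power is at most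
`C L^10 (f+1)^10 n^(10j-10)`, `(f+1)^10 ≤ (2f)^10 + 2^10 ≤ 2^11 n^6`, `L^10 ≤ n` and so it is at most `C' n^(10j-3)`.  Second part (`t = 2`, `j = 3`): `Ew(lev n 3) ≤ f
4 L n^2 + cyc G 3`; `(x + y)^10 ≤ 2^10 (x^10 + y^10)`, `x^10 ≤ C n n^6 n^20`, `y^10 ≤ n^28`. -/
def Goal_LOWT : Prop :=
  (∀ t j : ℕ, 1 ≤ t → t ≤ 3 → t + 2 ≤ j → ∃ n₀ : ℕ, ∀ n ≥ n₀, ∀ (L f : ℕ) (G : Grp n), Eg t n L f G →
    L ^ (1000 * t) ≤ n → f ^ 5 ≤ n ^ 3 → Ew G (lev n j) ^ 10 ≤ n ^ (10 * j - 1)) ∧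
  ∃ n₀ : ℕ, ∀ n ≥ n₀, ∀ (L f : ℕ) (G : Grp n), Eg 2 n L f G → L ^ 2000 ≤ n → f ^ 5 ≤ n ^ 3 →
    cyc G 3 ^ 5 ≤ n ^ 14 → Ew G (lev n 3) ^ 10 ≤ n ^ 29

/-! ## Part 5: level 2 for transitive groups -/

/-- **DEG2** (hypothesis STBB; compare `Pool/Agent/Helper33/NF/DEG.lean`).  Proof.  `w y = 1` if `y ∈ lev n 2`, `pst G y = 1` and some `γ ∈ G` swaps the two
elements of `y`, otherwise `w y = 0`.  If `y = {u,v}`, `pst G y = 1`: the elements `≠ 1` fixing `y` swap `u`, `v`, and there is at most one (the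
quotient of two of them fixes `u` and `v`), so `wt G y = w y`.  If `pst G y ≠ 1` then `wt G y ≤ 4 L` (STBB) and `y` is one of the `bad2 G` pairs.  `w`
is `G`-invariant (conjugation), `G` is transitive, so `∑_u w {u,v}` does not depend on `v` (choose `γ` with `γ v = v'`, substitute `u = γ u'`). -/
def Goal_DEG2 : Prop :=
  ∀ (n L f : ℕ) (G : Grp n), Eg 2 n L f G → Hom G 1 → ∃ (w : Finset (Fin n) → ℕ) (d : ℕ),
    (∀ y, w y ≤ 1) ∧ (∀ y ∈ lev n 2, w y ≤ wt G y) ∧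
    (∀ v, ∑ u ∈ univ.erase v, w {u, v} = d) ∧
    ∀ F ⊆ lev n 2, Ew G F ≤ ∑ y ∈ F, w y + 4 * L * bad2 G

/-- **M2T** (hypotheses STBB, DEG2, `NF.Goal_M2A`, `NF.Goal_M2S`, `NF.Goal_CLS`, `SR.Goal_KKA`, `SR.Goal_KKB`; compare
`Pool/Agent/Helper2/NF/M2.lean`).  Proof.  `w`, `d` from DEG2, `δ = 0`, `D = n - 1 + d`, `d ≤ n - 1`, `λ = (n-1)(n-2)`, `β = bad2 G`, `W'(F) = #F + ∑_F w ≤
W(F) ≤ W'(F) + 4 L β`.  `E3 = Ew(lev n 3)`.  `2 W(Y) ≤ W(lev n 2) ≤ n (n-1+d)/2 + 4 L β` (`2 ∑_y w y = ∑_v d = n d`), `800 L β ≤ n^2`, so M2S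
applies to `Y`: `1600 * 3D #(dn Y) + n² #Y ≤ 1600 λ W'(Y)`.  M2A (a): `λ W'(S) ≤ 3D #(up S)`.  So
`3D [W(up S) + W(Y) - W(dn Y) - W(S)] ≥ λ W'(S) + 3D (W(Y) - W(S)) - 3D #(dn Y) - 3D E3 ≥ (λ - 3D) (W(S) - W(Y)) - 4 L β λ - 6 n E3 + n² #Y / 1600`,
which is `≥ 0` if `n #Y ≥ 6400 L β n + 9600 E3` (`3D ≤ 6n ≤ λ`).  If `n #Y < 6400 L β n + 9600 E3` then `#Y ≤ C(2+i, 2)`, `i = n/(200 L²)`,
since `β^10 ≤ n^19`, `E3^10 ≤ n^29`, `L^2000 ≤ n`: CLS with `s = 9 L`, `j = 2`, this `i` (`#S ≤ C(n,2)`; `1 + wt ≤ 4 L` on pairs, `≤ 9 L` on triples by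
STBB, so both `Nn G _ (s+1)` are `0`); `64 * 3 * 81 L² i + 27 L.. ≤ 78 n + .. ≤ 189 (n-2)`. -/
def Goal_M2T : Prop :=
  ∃ n₀ : ℕ, ∀ n ≥ n₀, ∀ (L f : ℕ) (G : Grp n), Eg 2 n L f G → Hom G 1 → L ^ 2000 ≤ n →
    bad2 G ^ 10 ≤ n ^ 19 → Ew G (lev n 3) ^ 10 ≤ n ^ 29 → HalfStarAt G 2

/-! ## Part 6: `PGL(2, q)` -/

/-- sharply 3-transitive groups in which every element swapping two points is an involution (`PGL(2, q)`, Tits) -/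
structure PG (n : ℕ) (G : Grp n) : Prop where
  ex : ∀ a b c a' b' c' : Fin n, a ≠ b → a ≠ c → b ≠ c → a' ≠ b' → a' ≠ c' → b' ≠ c' →
    ∃ γ ∈ G, γ a = a' ∧ γ b = b' ∧ γ c = c'
  un : ∀ a b c : Fin n, a ≠ b → a ≠ c → b ≠ c → ∀ γ ∈ G, γ a = a → γ b = b → γ c = c → γ = 1
  inv : ∀ a b : Fin n, a ≠ b → ∀ γ ∈ G, γ a = b → γ b = a → γ * γ = 1

/-- **PG4.** Proof.  (1) Let `A = {a,b,c,d}`.  The `γ` with `a ↦ b ↦ a`, `c ↦ d` is an involution, so `d ↦ c`; so the three double transpositions of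
`A` are induced by elements of `G`, `1 + wt ≥ 4`.  An element of `G` fixing `A` is determined by its action on `A`, so `1 + wt ≤ 24`.  (2) Suppose
that `1 + wt > 4`.  Then some `γ ∈ G` induces on `A` a permutation which is not in the Klein group `V`: a transposition, a 4-cycle or a 3-cycle.
If it is the 4-cycle `a → b → c → d → a`, multiply with the element `σ ∈ G` inducing `(a b)(c d)`: `γ σ` fixes `b` and `d`, swaps `a` and `c`.  So in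
the first two cases there is an involution `τ ∈ G` which fixes two points `b`, `d` of `A` and swaps the others `a`, `c`; `τ` is determined by
`(b, a, c)`, and `d` is a fixed point of `τ`, of which there are at most 2: at most `2 n^3` such `A`.  In the case of the 3-cycle `a → b → c → a`: `γ` fixes `d`; `γ` is
determined by `(a,b,c)` and has at most 2 fixed points: at most `2 n^3` such `A`.  So `W(lev n 4) ≤ 4 C(n,4) + 20 * 4 n^3`. -/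
def Goal_PG4 : Prop :=
  ∀ (n : ℕ) (G : Grp n), 4 ≤ n → PG n G → (∀ A ∈ lev n 4, 4 ≤ 1 + wt G A) ∧
    W G (lev n 4) ≤ 4 * n.choose 4 + 80 * n ^ 3

end Pool.Agent.Helper91.FS
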