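import Pool.Agent.Helper91.FS.Fin

/-!
# Project FS: corollaries
-/

set_option autoImplicit false

namespace Pool.Agent.Helper91.FS

open Finset
open Pool.Agent.Helper47.SR (Grp mv lev wt Ew W IsInv up dn StarAt HalfStarAt QL QR QuotientHasSCD)
open Pool.Agent.Helper49.NF

/-- the statement of Theorem A -/
def StA : Prop := ∀ t : ℕ, 1 ≤ t → ∃ n₀ : ℕ, ∀ n ≥ n₀, ∀ (L f : ℕ) (G : Grp n), Eg t n L f G →
  L ^ (1000 * t) ≤ n → f ^ 5 ≤ n ^ 3 → Hom G (t - 1) →
  (∀ m, t ≤ m → m ≤ 5 * t → Hom G m ∨ (AUn n G m ∧ AUn n G (m + 1))) → QuotientHasSCD n G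

/-- the statement of Theorem B -/
def StB : Prop := ∃ n₀ : ℕ, ∀ n ≥ n₀, ∀ (L f : ℕ) (G : Grp n), Eg 2 n L f G →
  L ^ 2000 ≤ n → f ^ 5 ≤ n ^ 3 → Hom G 1 → cyc G 3 ^ 5 ≤ n ^ 14 →
  (Hom G 2 ∨ bad2 G ^ 10 ≤ n ^ 19) → QuotientHasSCD n G

theorem hom_zero {n : ℕ} (G : Grp n) : Hom G 0 := by
  intro A hA B hB
  have h1 : A = ∅ := Finset.card_eq_zero.1 (Finset.mem_powersetCard.1 hA).2
  have h2 : B = ∅ := Finset.card_eq_zero.1 (Finset.mem_powersetCard.1 hB).2
  refine ⟨1, G.one_mem, ?_⟩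
  rw [h1, h2]
  rfl

theorem Mb_pow (n f j : ℕ) (hf : f ^ 5 ≤ n ^ 3) (hn1 : 1 ≤ n) :
    Mb n f j ^ 5 ≤ (j + 1) ^ 10 * n ^ (3 * j) := by
  classical
  let S := (range (j + 1)) ×ˢ (range (j + 1))
  let φ : ℕ × ℕ → ℕ := fun v => if v.1 + 2 * v.2 ≤ j then f.choose v.1 * (n / 2).choose v.2 else 0
  have hterm : ∀ v ∈ S, φ v ^ 5 ≤ n ^ (3 * j) := by
    intro v _
    by_cases h : v.1 + 2 * v.2 ≤ j
    · simp only [φ, if_pos h]
      calc (f.choose v.1 * (n / 2).choose v.2) ^ 5 ≤ (f ^ v.1 * n ^ v.2) ^ 5 := by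
            apply Nat.pow_le_pow_left
            exact Nat.mul_le_mul (Nat.choose_le_pow _ _)
              ((Nat.choose_le_pow _ _).trans (Nat.pow_le_pow_left (Nat.div_le_self _ _) _))
        _ = (f ^ 5) ^ v.1 * n ^ (5 * v.2) := by
            rw [mul_pow, ← pow_mul, ← pow_mul, ← pow_mul, mul_comm v.1 5, mul_comm v.2 5]
        _ ≤ (n ^ 3) ^ v.1 * n ^ (5 * v.2) := Nat.mul_le_mul_right _ (Nat.pow_le_pow_left hf _)
        _ = n ^ (3 * v.1 + 5 * v.2) := by rw [← pow_mul, ← pow_add]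
        _ ≤ n ^ (3 * j) := Nat.pow_le_pow_right hn1 (by omega)
    · simp only [φ, if_neg h]
      exact Nat.zero_le _
  have hne : S.Nonempty := ⟨(0, 0), by simp [S]⟩
  obtain ⟨v0, hv0, hmax⟩ := Finset.exists_max_image S φ hne
  have h1 : Mb n f j ≤ (j + 1) ^ 2 * φ v0 := by
    have h2 : Mb n f j = ∑ v ∈ S, φ v := by
      unfold Mb
      rw [Finset.sum_product]
    rw [h2]
    calc ∑ v ∈ S, φ v ≤ ∑ _v ∈ S, φ v0 := Finset.sum_le_sum hmax
      _ = (j + 1) ^ 2 * φ v0 := by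
          rw [Finset.sum_const, smul_eq_mul, Finset.card_product, Finset.card_range]
          ring
  calc Mb n f j ^ 5 ≤ ((j + 1) ^ 2 * φ v0) ^ 5 := Nat.pow_le_pow_left h1 5
    _ = (j + 1) ^ 10 * φ v0 ^ 5 := by rw [mul_pow, ← pow_mul]
    _ ≤ (j + 1) ^ 10 * n ^ (3 * j) := Nat.mul_le_mul_left _ (hterm v0 hv0)

theorem Ew_le_card {n : ℕ} (hCYC : Goal_CYC) (G : Grp n) (f : ℕ) (hf : ∀ γ ∈ G, γ ≠ 1 → fx γ ≤ f)
    (j : ℕ) : Ew G (lev n j) ≤ #(els G) * Mb n f j := by
  have hmem : ∀ γ ∈ (els G).filter (fun γ => γ ≠ 1), fx γ ≤ f := by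
    intro γ hγ
    rw [Finset.mem_filter, mem_els] at hγ
    exact hf γ hγ.1 hγ.2
  rw [Pool.Agent.Helper24.NF.Ew_double]
  calc ∑ γ ∈ (els G).filter (fun γ => γ ≠ 1), #((lev n j).filter (fun A => mv γ A = A))
      ≤ ∑ γ ∈ (els G).filter (fun γ => γ ≠ 1), Mb n f j := by
        apply Finset.sum_le_sum
        intro γ hγ
        refine (hCYC n γ j).trans ?_
        unfold Mb
        apply Finset.sum_le_sum
        intro p _
        apply Finset.sum_le_sum
        intro r _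
        by_cases hpr : p + 2 * r ≤ j
        · simp only [if_pos hpr]
          exact Nat.mul_le_mul_right _ (Nat.choose_le_choose _ (hmem γ hγ))
        · simp [hpr]
    _ = #((els G).filter (fun γ => γ ≠ 1)) * Mb n f j := by
        rw [Finset.sum_const, smul_eq_mul]
    _ ≤ #(els G) * Mb n f j := Nat.mul_le_mul_right _ (Finset.card_filter_le _ _)

/-- the maximal number of fixed points of the elements `≠ 1` -/
noncomputable def mfx {n : ℕ} (G : Grp n) : ℕ := ((els G).filter (fun γ => γ ≠ 1)).sup fx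

theorem le_mfx {n : ℕ} (G : Grp n) : ∀ γ ∈ G, γ ≠ 1 → fx γ ≤ mfx G := by
  intro γ hγ hγ1
  apply Finset.le_sup (f := fx)
  rw [Finset.mem_filter, mem_els]
  exact ⟨hγ, hγ1⟩

theorem mfx_pow {n : ℕ} (G : Grp n) (h : ∀ γ ∈ G, γ ≠ 1 → fx γ ^ 5 ≤ n ^ 3) :
    mfx G ^ 5 ≤ n ^ 3 := by
  unfold mfx
  rcases ((els G).filter (fun γ => γ ≠ 1)).eq_empty_or_nonempty with he | hne
  · rw [he]; simp
  · obtain ⟨γ, hγ, hγe⟩ := Finset.exists_mem_eq_sup _ hne fx
    rw [hγe]
    rw [Finset.mem_filter, mem_els] at hγ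
    exact h γ hγ.1 hγ.2

/-- small groups with few fixed points -/
theorem cor_small (hA : StA) (hCYC : Goal_CYC) : ∃ n₀ : ℕ, ∀ n ≥ n₀, ∀ G : Grp n,
    #(els G) ^ 1000 ≤ n → (∀ γ ∈ G, γ ≠ 1 → fx γ ^ 5 ≤ n ^ 3) → QuotientHasSCD n G := by
  obtain ⟨n₀, h⟩ := hA 1 le_rfl
  refine ⟨n₀ + 7 ^ 20 + 2, fun n hn G hG hf => ?_⟩
  have hn1 : 1 ≤ n := by omega
  have hels : 1 ≤ #(els G) := by
    rw [Nat.one_le_iff_ne_zero, Finset.card_ne_zero]
    exact ⟨1, (mem_els G 1).2 G.one_mem⟩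
  have hE : Eg 1 n (#(els G)) (mfx G) G :=
    { t1 := le_rfl
      tn := hn1
      L1 := hels
      st := fun T _ => Finset.card_filter_le _ _
      fix := le_mfx G }
  have hf5 := mfx_pow G hf
  have hG10 : #(els G) ^ 10 ≤ n := (Nat.pow_le_pow_right hels (by norm_num)).trans hG
  refine h n (by omega) _ _ G hE hG hf5 (hom_zero G) ?_
  have hsm : ∀ j, 1 ≤ j → j ≤ 6 → Small n G j := by
    intro j hj hj6
    unfold Small
    have h1 : Mb n (mfx G) j ^ 5 ≤ (j + 1) ^ 10 * n ^ (3 * j) := Mb_pow n (mfx G) j hf5 hn1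
    calc Ew G (lev n j) ^ 10 ≤ (#(els G) * Mb n (mfx G) j) ^ 10 :=
          Nat.pow_le_pow_left (Ew_le_card hCYC G _ (le_mfx G) j) 10
      _ = #(els G) ^ 10 * (Mb n (mfx G) j ^ 5) ^ 2 := by rw [mul_pow, ← pow_mul]
      _ ≤ n * ((j + 1) ^ 10 * n ^ (3 * j)) ^ 2 := Nat.mul_le_mul hG10 (Nat.pow_le_pow_left h1 2)
      _ = n * ((j + 1) ^ 20 * n ^ (6 * j)) := by
          rw [mul_pow, ← pow_mul, ← pow_mul]
          congr 3
          ring
      _ ≤ n * (n * n ^ (6 * j)) := by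
          apply Nat.mul_le_mul_left
          apply Nat.mul_le_mul_right
          calc (j + 1) ^ 20 ≤ 7 ^ 20 := Nat.pow_le_pow_left (by omega) 20
            _ ≤ n := by omega
      _ = n ^ (6 * j + 2) := by ring
      _ ≤ n ^ (10 * j - 1) := Nat.pow_le_pow_right hn1 (by omega)
  intro m hm1 hm5
  exact Or.inr ⟨(hsm m hm1 (by omega)).au, (hsm (m + 1) (by omega) (by omega)).au⟩

/-- transitivity on points -/
theorem hom_one {n : ℕ} (G : Grp n) (h : ∀ x y : Fin n, ∃ γ ∈ G, γ x = y) : Hom G 1 := by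
  intro A hA B hB
  obtain ⟨x, rfl⟩ := Finset.card_eq_one.1 (Finset.mem_powersetCard.1 hA).2
  obtain ⟨y, rfl⟩ := Finset.card_eq_one.1 (Finset.mem_powersetCard.1 hB).2
  obtain ⟨γ, hγ, hxy⟩ := h x y
  refine ⟨γ, hγ, ?_⟩
  simp [mv, hxy]

/-- a cycle of length 3 -/
theorem cyc3 {n : ℕ} (γ : Equiv.Perm (Fin n)) (A : Finset (Fin n)) (hA : #A = 3)
    (hinv : mv γ A = A) (hs : ∀ x ∈ A, ∀ y ∈ A, γ.SameCycle x y) :
    ∀ x ∈ A, (γ ^ 3) x = x := by
  classical
  intro x hx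
  have hm : ∀ y ∈ A, γ y ∈ A := by
    intro y hy
    rw [← hinv]
    simp [mv, hy]
  have h0 : x ∈ A := hx
  have h1 : γ x ∈ A := hm _ h0
  have h2 : γ (γ x) ∈ A := hm _ h1
  have h3 : γ (γ (γ x)) ∈ A := hm _ h2
  have hne1 : γ x ≠ x := by
    intro h
    obtain ⟨y, hy, hyx⟩ := Finset.exists_mem_ne (by omega : 1 < #A) x
    obtain ⟨i, hi⟩ := hs x hx y hy
    rw [Equiv.Perm.zpow_apply_eq_self_of_apply_eq_self h] at hi
    exact hyx hi.symm
  have hne2 : γ (γ x) ≠ x := by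
    intro h
    have h4 : #({x, γ x} : Finset (Fin n)) ≤ 2 := Finset.card_le_two
    obtain ⟨y, hy, hyn⟩ : ∃ y ∈ A, y ∉ ({x, γ x} : Finset (Fin n)) := by
      by_contra hc
      push Not at hc
      have := Finset.card_le_card (show A ⊆ {x, γ x} from hc)
      omega
    obtain ⟨i, hi⟩ := hs x hx y hy
    have h5 : (γ ^ 2) x = x := by rw [pow_two, Equiv.Perm.mul_apply]; exact h
    have h6 : ∀ k : ℤ, (γ ^ (2 * k)) x = x := by
      intro k
      rw [zpow_mul]
      exact Equiv.Perm.zpow_apply_eq_self_of_apply_eq_self (by exact_mod_cast h5) k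
    apply hyn
    rw [Finset.mem_insert, Finset.mem_singleton]
    rcases Int.even_or_odd' i with ⟨k, rfl | rfl⟩
    · left; rw [← hi, h6]
    · right
      rw [← hi, add_comm, zpow_add, Equiv.Perm.mul_apply, h6, zpow_one]
  have h7 : (γ ^ 3) x = γ (γ (γ x)) := by
    rw [pow_succ, pow_two]
    rfl
  rw [h7]
  by_contra hne3
  have h8 : γ x ≠ γ (γ x) := fun h => hne1 (γ.injective h).symm
  have h9 : γ x ≠ γ (γ (γ x)) := fun h => hne2 (γ.injective h).symm
  have h10 : γ (γ x) ≠ γ (γ (γ x)) := fun h => h8 (γ.injective h)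
  have h11 : ({x, γ x, γ (γ x), γ (γ (γ x))} : Finset (Fin n)) ⊆ A := by
    intro y hy
    simp only [Finset.mem_insert, Finset.mem_singleton] at hy
    rcases hy with rfl | rfl | rfl | rfl <;> assumption
  have h12 : #({x, γ x, γ (γ x), γ (γ (γ x))} : Finset (Fin n)) = 4 := by
    rw [Finset.card_insert_of_notMem, Finset.card_insert_of_notMem, Finset.card_insert_of_notMem,
      Finset.card_singleton]
    · rw [Finset.mem_singleton]; exact h10
    · simp only [Finset.mem_insert, Finset.mem_singleton, not_or]; exact ⟨h8, h9⟩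
    · simp only [Finset.mem_insert, Finset.mem_singleton, not_or]
      exact ⟨hne1.symm, hne2.symm, fun h => hne3 h.symm⟩
  have := Finset.card_le_card h11
  omega

/-- the number of the cycles of length `j` of one permutation -/
theorem cyc_one {n : ℕ} (γ : Equiv.Perm (Fin n)) (j : ℕ) (hj : 1 ≤ j) :
    #((lev n j).filter (fun A => mv γ A = A ∧ ∀ x ∈ A, ∀ y ∈ A, γ.SameCycle x y)) ≤ n := by
  classical
  have hsub : (lev n j).filter (fun A => mv γ A = A ∧ ∀ x ∈ A, ∀ y ∈ A, γ.SameCycle x y) ⊆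
      (univ : Finset (Fin n)).image (fun x => univ.filter (fun y => γ.SameCycle x y)) := by
    intro A hA
    rw [Finset.mem_filter] at hA
    obtain ⟨hA1, hinv, hs⟩ := hA
    have hc : #A = j := (Finset.mem_powersetCard.1 hA1).2
    obtain ⟨x, hx⟩ : A.Nonempty := by
      rw [← Finset.card_pos]
      omega
    rw [Finset.mem_image]
    refine ⟨x, Finset.mem_univ _, ?_⟩
    ext y
    rw [Finset.mem_filter]
    constructor
    · rintro ⟨_, hy⟩
      have hstep : ∀ z, z ∈ A ↔ γ z ∈ A := by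
        intro z
        constructor
        · intro hz
          rw [← hinv]
          exact Finset.mem_map.2 ⟨z, hz, rfl⟩
        · intro hz
          rw [← hinv] at hz
          obtain ⟨w, hw, hwz⟩ := Finset.mem_map.1 hz
          have : w = z := γ.injective hwz
          rwa [this] at hw
      obtain ⟨i, rfl⟩ := hy
      have hz : ∀ i : ℤ, (γ ^ i) x ∈ A := by
        intro i
        induction i using Int.induction_on with
        | zero => simpa using hx
        | succ k ih =>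
            rw [add_comm, zpow_add, zpow_one, Equiv.Perm.mul_apply]
            exact (hstep _).1 ih
        | pred k ih =>
            rw [hstep]
            have : γ ((γ ^ (-(k : ℤ) - 1)) x) = (γ ^ (-(k : ℤ))) x := by
              rw [← Equiv.Perm.mul_apply, ← zpow_one_add]
              congr 2
              ring
            rw [this]
            exact ih
      exact hz i
    · intro hy
      exact ⟨Finset.mem_univ _, hs x hx y hy⟩
  calc _ ≤ #((univ : Finset (Fin n)).image (fun x => univ.filter (fun y => γ.SameCycle x y))) :=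
        Finset.card_le_card hsub
    _ ≤ #(univ : Finset (Fin n)) := Finset.card_image_le
    _ = n := by rw [Finset.card_univ, Fintype.card_fin]

end Pool.Agent.Helper91.FS
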