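import Pool.Agent.Helper91.FS.Fin2

/-!
# Project FS: corollaries of part 2
-/

set_option autoImplicit false

namespace Pool.Agent.Helper91.FS

open Finset
open Pool.Agent.Helper47.SR (Grp mv lev wt Ew W IsInv up dn StarAt HalfStarAt QL QR QuotientHasSCD)
open Pool.Agent.Helper49.NF

theorem two_fixed {n : ℕ} {γ : Equiv.Perm (Fin n)} {x y : Fin n} (hxy : x ≠ y) (hx : γ x = x)
    (hy : γ y = y) : 2 ≤ fx γ := by
  classical
  have h : ({x, y} : Finset (Fin n)) ⊆ univ.filter (fun z => γ z = z) := by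
    intro z hz
    rw [Finset.mem_insert, Finset.mem_singleton] at hz
    rw [Finset.mem_filter]
    rcases hz with rfl | rfl
    · exact ⟨mem_univ _, hx⟩
    · exact ⟨mem_univ _, hy⟩
  have h2 := Finset.card_le_card h
  rw [Finset.card_pair hxy] at h2
  simpa [fx] using h2

/-- Frobenius groups -/
theorem cor_frob (hB : StB) : ∃ n₀ : ℕ, ∀ n ≥ n₀, ∀ G : Grp n,
    (∀ x y : Fin n, ∃ γ ∈ G, γ x = y) → (∀ γ ∈ G, γ ≠ 1 → fx γ ≤ 1) →
    (#((els G).filter (fun γ => orderOf γ = 3))) ^ 5 ≤ n ^ 9 → QuotientHasSCD n G := by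
  classical
  obtain ⟨n₀, h⟩ := hB
  refine ⟨n₀ + 2, fun n hn G htr hfx he => ?_⟩
  have hst : ∀ T : Finset (Fin n), #T = 2 → pst G T = 1 := by
    intro T hT
    obtain ⟨x, y, hxy, rfl⟩ := Finset.card_eq_two.1 hT
    have h1 : (els G).filter (fun γ => ∀ z ∈ ({x, y} : Finset (Fin n)), γ z = z) = {1} := by
      ext γ
      rw [Finset.mem_filter, mem_els, Finset.mem_singleton]
      constructor
      · rintro ⟨hγ, hz⟩
        by_contra hne
        have h2 := two_fixed hxy (hz x (by simp)) (hz y (by simp))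
        have h3 := hfx γ hγ hne
        omega
      · rintro rfl
        exact ⟨G.one_mem, fun z _ => rfl⟩
    unfold pst
    rw [h1, Finset.card_singleton]
  have hE : Eg 2 n 1 1 G :=
    { t1 := by norm_num
      tn := by omega
      L1 := le_rfl
      st := fun T hT => (hst T hT).le
      fix := hfx }
  have hn1 : 1 ≤ n := by omega
  have hbad : bad2 G = 0 := by
    unfold bad2
    rw [Finset.card_eq_zero, Finset.filter_eq_empty_iff]
    intro T hT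
    rw [not_not]
    exact hst T (Finset.mem_powersetCard.1 hT).2
  have hcyc : cyc G 3 ≤ #((els G).filter (fun γ => orderOf γ = 3)) * n := by
    unfold cyc
    have h1 : ∀ γ ∈ (els G).filter (fun γ => γ ≠ 1),
        #((lev n 3).filter (fun A => mv γ A = A ∧ ∀ x ∈ A, ∀ y ∈ A, γ.SameCycle x y)) ≤
          if orderOf γ = 3 then n else 0 := by
      intro γ hγ
      rw [Finset.mem_filter, mem_els] at hγ
      split_ifs with ho
      · exact cyc_one γ 3 (by norm_num)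
      · rw [Nat.le_zero, Finset.card_eq_zero, Finset.filter_eq_empty_iff]
        rintro A hA ⟨hinv, hs⟩
        apply ho
        have hc : #A = 3 := (Finset.mem_powersetCard.1 hA).2
        have h3 := cyc3 γ A hc hinv hs
        obtain ⟨x, hx, y, hy, hxy⟩ := Finset.one_lt_card.1 (by omega : 1 < #A)
        have h4 : γ ^ 3 = 1 := by
          by_contra hne
          have h5 := two_fixed hxy (h3 x hx) (h3 y hy)
          have h6 := hfx _ (G.pow_mem hγ.1 3) hne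
          omega
        exact orderOf_eq_prime h4 hγ.2
    refine (Finset.sum_le_sum h1).trans ?_
    rw [← Finset.sum_filter, Finset.sum_const, smul_eq_mul]
    apply Nat.mul_le_mul_right
    apply Finset.card_le_card
    intro γ hγ
    rw [Finset.mem_filter, Finset.mem_filter] at hγ
    rw [Finset.mem_filter]
    exact ⟨hγ.1.1, hγ.2⟩
  refine h n (by omega) 1 1 G hE ?_ ?_ (hom_one G htr) ?_ (Or.inr ?_)
  · rw [one_pow]; exact hn1
  · rw [one_pow]; exact Nat.one_le_pow _ _ hn1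
  · calc cyc G 3 ^ 5 ≤ (#((els G).filter (fun γ => orderOf γ = 3)) * n) ^ 5 :=
          Nat.pow_le_pow_left hcyc 5
      _ = #((els G).filter (fun γ => orderOf γ = 3)) ^ 5 * n ^ 5 := mul_pow _ _ _
      _ ≤ n ^ 9 * n ^ 5 := Nat.mul_le_mul_right _ he
      _ = n ^ 14 := by ring
  · rw [hbad]
    simp

/-- the numbers in the explicit examples -/
theorem num_exp (hLOG : Goal_LOG) : ∃ n₀ : ℕ, ∀ n ≥ n₀,
    (∀ L : ℕ, 2 ^ L ≤ n + 1 → L ^ 3000 ≤ n ∧ L ^ 2000 ≤ n ∧ (L ^ 10) ^ 5 ≤ n) ∧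
    (Nat.sqrt (n + 1) + 1) ^ 5 ≤ n ^ 3 ∧ (Nat.sqrt n + 1) ^ 5 ≤ n ^ 3 := by
  obtain ⟨n₀, h⟩ := hLOG 1 3000
  refine ⟨n₀ + 32768, fun n hn => ⟨fun L hL => ?_, ?_⟩⟩
  · have h1 := h n (by omega)
    rw [one_mul] at h1
    have h2 : L ≤ Lg n + 1 := by
      by_contra hc
      push Not at hc
      have h3 : n < 2 ^ (Lg n + 1) := by
        have h5 : n ≤ 2 ^ Lg n := Nat.le_pow_clog (by norm_num) n
        have h6 : 2 ^ (Lg n + 1) = 2 * 2 ^ Lg n := by ring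
        omega
      have h4 : 2 ^ (Lg n + 2) ≤ 2 ^ L := Nat.pow_le_pow_right (by norm_num) hc
      have h5 : 2 ^ (Lg n + 2) = 2 * 2 ^ (Lg n + 1) := by ring
      omega
    have h3 : 1 ≤ Lg n + 1 := Nat.le_add_left _ _
    have h4 : ∀ k, k ≤ 3000 → L ^ k ≤ n := fun k hk =>
      (Nat.pow_le_pow_left h2 k).trans ((Nat.pow_le_pow_right h3 hk).trans h1)
    refine ⟨h4 _ le_rfl, h4 _ (by norm_num), ?_⟩
    rw [← pow_mul]
    exact h4 _ (by norm_num)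
  · have key : ∀ s : ℕ, s ^ 2 ≤ n + 1 → (s + 1) ^ 5 ≤ n ^ 3 := by
      intro s hs
      have h1 : (s + 1) ^ 2 ≤ 8 * n := by nlinarith
      have h2 : 64 * (s + 1) ≤ n := by
        rw [← Nat.pow_le_pow_iff_left (n := 2) (by norm_num)]
        calc (64 * (s + 1)) ^ 2 = 4096 * (s + 1) ^ 2 := by ring
          _ ≤ 4096 * (8 * n) := Nat.mul_le_mul_left _ h1
          _ = 32768 * n := by ring
          _ ≤ n * n := Nat.mul_le_mul_right _ (by omega)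
          _ = n ^ 2 := by ring
      calc (s + 1) ^ 5 = ((s + 1) ^ 2) ^ 2 * (s + 1) := by ring
        _ ≤ (8 * n) ^ 2 * (s + 1) := Nat.mul_le_mul_right _ (Nat.pow_le_pow_left h1 2)
        _ = n ^ 2 * (64 * (s + 1)) := by ring
        _ ≤ n ^ 2 * n := Nat.mul_le_mul_left _ h2
        _ = n ^ 3 := by ring
    refine ⟨key _ (Nat.sqrt_le' _), key _ ((Nat.sqrt_le' _).trans (Nat.le_succ _))⟩

/-- all groups between `PSL(2, K)` and `PΓL(2, K)` -/
theorem cor_proj (hOV : ∃ n₀ : ℕ, ∀ n ≥ n₀, ∀ (L f : ℕ) (P0 P G N : Grp n), Ov n P0 P G N →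
      Hom G 2 → Eg 3 n L f N → L ^ 3000 ≤ n → f ^ 5 ≤ n ^ 3 → QuotientHasSCD n G)
    (hLOG : Goal_LOG) (h1 : Goal_PGLX) (h2 : Goal_PSLX) (h3 : Goal_NORX) (h4 : Goal_PGAMX) :
    ∃ n₀ : ℕ, ∀ n ≥ n₀, ∀ (K : Type) [Field K] [DecidableEq K] (e : OnePoint K ≃ Fin n)
      (G : Grp n), psl e ≤ G → G ≤ pgam e → QuotientHasSCD n G := by
  obtain ⟨a1, hOV⟩ := hOV
  obtain ⟨a2, hN⟩ := num_exp hLOG
  refine ⟨a1 + a2, fun n hn K _ _ e G hG1 hG2 => ?_⟩
  obtain ⟨b1, b2, b3, -⟩ := h2 n K e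
  obtain ⟨c1, L, -, c3, c4⟩ := h4 n K e
  obtain ⟨d1, -, d3⟩ := hN n (by omega)
  exact hOV n (by omega) L (Nat.sqrt n + 1) (psl e) (pgl e) G (pgam e)
    { pg := h1 n K e
      le0 := b1
      idx := b2
      leG := hG1
      leN := hG2
      lePN := c1
      nor := h3 n K e G hG1 hG2 } (b3.mono hG1) c4 (d1 L (c3.trans (Nat.le_succ n))).1 d3

/-- all groups between `AGL(1, K)` and `AΓL(1, K)` -/
theorem cor_agam (hB : StB) (hLOG : Goal_LOG) (hHOM : Goal_HOM) (h1 : Goal_AFG) (h2 : Goal_AFH) :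
    ∃ n₀ : ℕ, ∀ n ≥ n₀, ∀ (K : Type) [Field K] (e : K ≃ Fin n) (G : Grp n),
      aff e ⊤ ≤ G → G ≤ agam e → QuotientHasSCD n G := by
  obtain ⟨a1, hB⟩ := hB
  obtain ⟨a2, hN⟩ := num_exp hLOG
  refine ⟨a1 + a2 + 10, fun n hn K _ e G hG1 hG2 => ?_⟩
  obtain ⟨L, b1, b2, b3⟩ := h1 n K e G hG2
  obtain ⟨-, c2, -⟩ := h2 n K e
  obtain ⟨d1, d2, -⟩ := hN n (by omega)
  obtain ⟨-, d4, d5⟩ := d1 L b1
  have hH : Hom G 2 := c2.mono hG1
  refine hB n (by omega) L (Nat.sqrt (n + 1) + 1) G b2 d4 d2 ((hHOM n 2 G hH).2 (by omega) 1 (by norm_num))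
    ?_ (Or.inl hH)
  have hL : L ^ 5 ≤ n := (Nat.pow_le_pow_right b2.L1 (by norm_num)).trans
    ((pow_mul L 10 5).le.trans d5)
  calc cyc G 3 ^ 5 ≤ (L * (Nat.sqrt (n + 1) + 1) * n ^ 2) ^ 5 := Nat.pow_le_pow_left b3 5
    _ = L ^ 5 * (Nat.sqrt (n + 1) + 1) ^ 5 * n ^ 10 := by ring
    _ ≤ n * n ^ 3 * n ^ 10 := Nat.mul_le_mul_right _ (Nat.mul_le_mul hL d2)
    _ = n ^ 14 := by ring

/-- the groups `{a x + b : a ∈ A}` -/
theorem cor_aff (hF : ∃ n₀ : ℕ, ∀ n ≥ n₀, ∀ G : Grp n,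
    (∀ x y : Fin n, ∃ γ ∈ G, γ x = y) → (∀ γ ∈ G, γ ≠ 1 → fx γ ≤ 1) →
    (#((els G).filter (fun γ => orderOf γ = 3))) ^ 5 ≤ n ^ 9 → QuotientHasSCD n G)
    (h2 : Goal_AFH) :
    ∃ n₀ : ℕ, ∀ n ≥ n₀, ∀ (K : Type) [Field K] (e : K ≃ Fin n) (A : Subgroup Kˣ),
      QuotientHasSCD n (aff e A) := by
  obtain ⟨a1, hF⟩ := hF
  refine ⟨a1 + 3 ^ 5, fun n hn K _ e A => ?_⟩
  obtain ⟨b1, b2, b3⟩ := (h2 n K e).1 A
  refine hF n (by omega) _ b1 b2 ?_
  have hn1 : 1 ≤ n := by omega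
  calc _ ≤ (3 * n) ^ 5 := Nat.pow_le_pow_left b3 5
    _ = 3 ^ 5 * n ^ 5 := by ring
    _ ≤ n * n ^ 5 := Nat.mul_le_mul_right _ (by omega)
    _ = n ^ 6 := by ring
    _ ≤ n ^ 9 := Nat.pow_le_pow_right hn1 (by norm_num)

end Pool.Agent.Helper91.FS
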