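import Pool.Agent.Helper91.FS.Goals2
import Mathlib.GroupTheory.Solvable

/-!
# Project FS, part 3 (MP_0130f7_co): transitive groups of prime degree

A transitive group of prime degree `p` which is not doubly transitive, or which is solvable, is a group of maps `a x + b` on `ZMod p`
(Burnside, Galois).  Every `Goal_X` is a packet; its docstring is the paper proof.  Prove it as `theorem goal_X : Goal_X` in
`Pool/Agent/<Seat>/FS/X.lean`, namespace `Pool.Agent.<Seat>.FS`.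
-/

set_option autoImplicit false

namespace Pool.Agent.Helper91.FS

open Finset
open Pool.Agent.Helper47.SR (Grp)
open Pool.Agent.Helper49.NF

/-- **BUR1** (P. Müller's proof of Burnside's theorem).  Proof.  Every function `f : ZMod p → ZMod p` is given by a unique polynomial of degree
`≤ p - 1`; `deg f` is its degree.  `S_j = ∑_{u∈U} u^j`, `(D f) x = ∑_{u∈U} (f (x + u) - f x)`, so `D x^m = ∑_{j=1}^m C(m,j) S_j x^(m-j)`.
(0) There is `j` with `1 ≤ j ≤ (p-1)/2` and `S_j ≠ 0`: let `V` be the smaller one of `U` and `{x ≠ 0, x ∉ U}` (both nonempty), `|V| ≤ (p-1)/2`.  If `∑_{v∈V} v^j = 0` for `1 ≤ j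
≤ |V|` then (Vandermonde, the `v` are different) all `v = 0`, a contradiction.  For `1 ≤ j ≤ p - 2` the sum of `x^j` over all `x ≠ 0` is `0` (`FiniteField.sum_pow_lt_card_sub_one`), so
`S_j = ± ∑_{v∈V} v^j`.  Let `r ≤ (p-1)/2` be the least `j ≥ 1` with `S_j ≠ 0`.
(1) If `deg f = m ≥ r` then `deg (D f) = m - r` (leading coefficient times `C(m,r) S_r ≠ 0`), in particular `D f ≠ 0`; if `deg f < r` then `D f = 0`.
(2) `D (f ∘ π) = (D f) ∘ π`: for fixed `x` the map `u ↦ π (x+u) - π x` is an injective map `U → U`, so a bijection.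
(3) `r = 1`: `D π = (D id) ∘ π = S_1`, a constant `≠ 0`, so `deg π = 1`.
(4) `r ≥ 2`: `D id = 0`, so `D π = 0` and `k = deg π < r`, `k ≥ 1`.  Suppose `k ≥ 2`; let `j` be the least number with `k j ≥ r`.  `k (r-1) ≥ 2 (r-1) ≥ r`, so `1 ≤ j ≤ r - 1`, and `k j ≤ (r-1) + k ≤
2r - 2 ≤ p - 1`, so `deg (π^j) = k j ≥ r` and `D (π^j) ≠ 0`; but `D (π^j) = (D x^j) ∘ π = 0`.  So `k = 1`. -/
def Goal_BUR1 : Prop :=
  ∀ (p : ℕ) [Fact p.Prime] (U : Finset (ZMod p)) (π : Equiv.Perm (ZMod p)), U.Nonempty → 0 ∉ U →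
    (∃ x, x ≠ 0 ∧ x ∉ U) → (∀ i j, i - j ∈ U → π i - π j ∈ U) → ∃ a b : ZMod p, ∀ x, π x = a * x + b

/-- **BUR2** (hypothesis BUR1).  Proof.  `G` is transitive, so `p` divides `|G|`; let `σ ∈ G` have order `p` (Cauchy); it is a cycle of length `p` (all its cycles have length `1` or
`p`), `e i = σ^i x₀`, `σ (e i) = e (i + 1)`.  Let `O` be the set of the pairs `(γ x, γ y)`, `γ ∈ G`, and `U = {u : (e u, e 0) ∈ O}`.  `O` is `σ`-invariant, so `(e i, e j) ∈ O` iff
`i - j ∈ U`; `0 ∉ U`, `U` is not empty, and `(x', y') ∉ O` gives an element `≠ 0` not in `U`.  For `γ ∈ G` the permutation `π = e⁻¹ γ e` satisfies `i - j ∈ U → π i - π j ∈ U`; BUR1, and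
`a ≠ 0` as `π` is injective. -/
def Goal_BUR2 : Prop :=
  ∀ (p : ℕ) [Fact p.Prime] (G : Grp p), (∀ x y : Fin p, ∃ γ ∈ G, γ x = y) →
    (∃ x y x' y' : Fin p, x ≠ y ∧ x' ≠ y' ∧ ∀ γ ∈ G, ¬ (γ x = x' ∧ γ y = y')) →
    ∃ e : ZMod p ≃ Fin p, G ≤ aff e ⊤

/-- **SOLP.** Proof.  The last nontrivial term of the derived series of `G` is an abelian normal subgroup `A ≠ 1` of `G`.  The orbits of `A` are permuted by `G` transitively, so they have the same
cardinality, which divides `p` and is not 1 (`A ≠ 1`): `A` is transitive.  `A` is abelian and transitive, so an element of `A` with a fixed point is `1`; `|A| = p`.  Let `σ ≠ 1` be in `A`, `e i = σ^i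
x₀`.  For `γ ∈ G`: `γ σ γ⁻¹ ∈ A`, so it is `σ^a`, and `γ x₀ = σ^b x₀`; `γ (σ^i x₀) = σ^(a i) γ x₀ = σ^(a i + b) x₀`, and `a ≠ 0` mod `p`. -/
def Goal_SOLP : Prop :=
  ∀ (p : ℕ) [Fact p.Prime] (G : Grp p), (∀ x y : Fin p, ∃ γ ∈ G, γ x = y) → Group.IsSolvable G →
    ∃ e : ZMod p ≃ Fin p, G ≤ aff e ⊤

end Pool.Agent.Helper91.FS
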