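import Pool.Agent.Helper91.FS.Goals2

/-!
# Project FS, part 4 (MP_0130f7_co): groups of fixity 2
-/

set_option autoImplicit false

namespace Pool.Agent.Helper91.FS

open Finset
open Pool.Agent.Helper47.SR (Grp mv lev wt Ew W IsInv up dn StarAt HalfStarAt)
open Pool.Agent.Helper49.NF

/-- **ZCNT** (see `Pool/Agent/Helper64/FS/EJR.lean`).  Proof.  `Ew G (lev n j)` is the number of pairs `(γ, A)`, `1 ≠ γ ∈ G`, `#A = j`, `mv γ A = A`.  An element `≠ 1` has at most two
fixed points.  `j = 3`: `γ` permutes `A`; not the identity; if it is a transposition on `A` then `γ²` fixes the three points of `A`, so `γ² = 1` (order 2), and `A = {x, γ x, z}`, `z` a fixed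
point of `γ`, `γ x ≠ x`: at most `n` sets for every `γ` (`x` determines the pair, at most `n/2` pairs, at most 2 fixed points `z`); if it is a 3-cycle then `γ³ = 1` (order 3) and `A` is the orbit of
one of its points: at most `n` sets.  `j = 4`: the cycle type of `γ` on `A` is `2 1 1` (`γ² = 1`, at most `n` sets), `2 2` (`γ² = 1`, `A` is determined by two points: at most `n²` sets), `3 1` (`γ³` fixes `A`,
so `γ³ = 1`; at most `2 n` sets), `4` (at most `n` sets, any `γ`). -/
def Goal_ZCNT : Prop :=
  ∀ (n : ℕ) (G : Grp n), (∀ γ ∈ G, γ ≠ 1 → fx γ ≤ 2) →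
    Ew G (lev n 3) ≤ n * (#((els G).filter (fun γ => orderOf γ = 2)) +
      #((els G).filter (fun γ => orderOf γ = 3))) ∧
    Ew G (lev n 4) ≤ 2 * n ^ 2 * #((els G).filter (fun γ => orderOf γ = 2)) +
      2 * n * #((els G).filter (fun γ => orderOf γ = 3)) + n * #(els G)

end Pool.Agent.Helper91.FS
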