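import Pool.Agent.Helper91.FS.Cor2
import Pool.Agent.Helper91.FS.Goals3
import Pool.Agent.Helper91.FS.Goals4

/-!
# Project FS: corollaries of the parts 3 and 4
-/

set_option autoImplicit false

namespace Pool.Agent.Helper91.FS

open Finset
open Pool.Agent.Helper47.SR (Grp mv lev wt Ew W IsInv up dn StarAt HalfStarAt QL QR QuotientHasSCD)
open Pool.Agent.Helper49.NF

/-- transitive groups, two-point stabilisers -/
def StB2 : Prop := ∃ n₀ : ℕ, ∀ n ≥ n₀, ∀ (L f : ℕ) (G : Grp n), Eg 2 n L f G →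
  L ^ 2000 ≤ n → f ^ 5 ≤ n ^ 3 → Hom G 1 → cyc G 3 ^ 5 ≤ n ^ 14 →
  (Two G 2 ∨ TWn n G 2) → QuotientHasSCD n G

theorem thB2 (hA : StA2) (hLOWT : Goal_LOWT) : StB2 := by
  obtain ⟨n1, h1⟩ := hA 2 (by norm_num)
  obtain ⟨n2, h2⟩ := small_levels hLOWT 2 (by norm_num) (by norm_num)
  obtain ⟨n3, h3⟩ := hLOWT.2
  refine ⟨n1 + n2 + n3, fun n hn L f G hG hL hf hH hc h2' => ?_⟩
  have hsm := h2 n (by omega) L f G hG hL hf
  have hE3 : Small n G 3 := h3 n (by omega) L f G hG hL hf hc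
  refine h1 n (by omega) L f G hG hL hf ?_
  intro m hm
  rcases Nat.lt_or_ge m 2 with hc2 | hc2
  · left
    interval_cases m
    · exact (hom_zero G).two
    · exact hH.two
  · rcases Nat.lt_or_ge m 3 with hc3 | hc3
    · have : m = 2 := by omega
      subst this
      rcases h2' with h | h
      · exact Or.inl h
      · exact Or.inr ⟨le_rfl, h, hE3.au⟩
    · right
      refine ⟨by omega, ?_, (hsm (m + 1) (by omega) (by omega)).au⟩
      rcases Nat.lt_or_ge m 4 with hc4 | hc4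
      · have : m = 3 := by omega
        subst this
        exact hE3.au.tw (by norm_num)
      · exact (hsm m (by omega) (by omega)).au.tw (by omega)

/-- groups of fixity 2 -/
theorem cor_fix2 (hA : StA2) (hLOWT : Goal_LOWT) (hZ : Goal_ZCNT) (hHOM : Goal_HOM) :
    ∃ n₀ : ℕ, ∀ n ≥ n₀, ∀ G : Grp n, Hom G 2 → (∀ γ ∈ G, γ ≠ 1 → fx γ ≤ 2) →
      #(els G) ^ 5 ≤ n ^ 14 →
      (#((els G).filter (fun γ => orderOf γ = 2)) +
        #((els G).filter (fun γ => orderOf γ = 3))) ^ 5 ≤ n ^ 9 → QuotientHasSCD n G := by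
  classical
  obtain ⟨n1, h1⟩ := hA 3 (by norm_num)
  obtain ⟨n2, h2⟩ := small_levels hLOWT 3 (by norm_num) le_rfl
  refine ⟨n1 + n2 + 528 ^ 2 + 10, fun n hn G hH hfx ho hi => ?_⟩
  have hn1 : 1 ≤ n := by omega
  have hst : ∀ T : Finset (Fin n), #T = 3 → pst G T ≤ 1 := by
    intro T hT
    obtain ⟨x, y, z, hxy, hxz, hyz, rfl⟩ := Finset.card_eq_three.1 hT
    have h1 : (els G).filter (fun γ => ∀ w ∈ ({x, y, z} : Finset (Fin n)), γ w = w) ⊆ {1} := by
      intro γ hγ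
      rw [Finset.mem_filter, mem_els] at hγ
      rw [Finset.mem_singleton]
      by_contra hne
      have h3 := hfx γ hγ.1 hne
      have h4 : ({x, y, z} : Finset (Fin n)) ⊆ univ.filter (fun w => γ w = w) := by
        intro w hw
        rw [Finset.mem_filter]
        exact ⟨mem_univ _, hγ.2 w hw⟩
      have h5 := Finset.card_le_card h4
      rw [hT] at h5
      have h6 : #(univ.filter (fun w => γ w = w)) = fx γ := by simp [fx]
      omega
    exact (Finset.card_le_card h1).trans (by simp)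
  have hE : Eg 3 n 1 2 G :=
    { t1 := by norm_num
      tn := by omega
      L1 := le_rfl
      st := hst
      fix := hfx }
  obtain ⟨z3, z4⟩ := hZ n G hfx
  obtain ⟨i, hi'⟩ : ∃ i, i = #((els G).filter (fun γ => orderOf γ = 2)) +
        #((els G).filter (fun γ => orderOf γ = 3)) := ⟨_, rfl⟩
  rw [← hi'] at hi z3
  have hsm3 : Small n G 3 := by
    unfold Small
    calc Ew G (lev n 3) ^ 10 ≤ (n * i) ^ 10 := Nat.pow_le_pow_left z3 10
      _ = n ^ 10 * (i ^ 5) ^ 2 := by ring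
      _ ≤ n ^ 10 * (n ^ 9) ^ 2 := Nat.mul_le_mul_left _ (Nat.pow_le_pow_left hi 2)
      _ = n ^ 28 := by ring
      _ ≤ n ^ (10 * 3 - 1) := Nat.pow_le_pow_right hn1 (by norm_num)
  have hsm4 : Small n G 4 := by
    unfold Small
    have z4' : Ew G (lev n 4) ≤ 2 * n ^ 2 * i + n * #(els G) := by
      refine z4.trans ?_
      have e1 : 2 * n * #((els G).filter (fun γ => orderOf γ = 3)) ≤
          2 * n ^ 2 * #((els G).filter (fun γ => orderOf γ = 3)) := by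
        apply Nat.mul_le_mul_right
        nlinarith
      rw [hi', mul_add]
      omega
    have e5 : ∀ a b : ℕ, (a + b) ^ 5 ≤ 16 * (a ^ 5 + b ^ 5) := by
      intro a b
      have h := add_pow_le (Nat.zero_le a) (Nat.zero_le b) 5
      simpa using h
    have e6 : (2 * n ^ 2 * i + n * #(els G)) ^ 5 ≤ 528 * n ^ 19 := by
      refine (e5 _ _).trans ?_
      have f1 : (2 * n ^ 2 * i) ^ 5 ≤ 32 * n ^ 19 := by
        calc (2 * n ^ 2 * i) ^ 5 = 32 * n ^ 10 * i ^ 5 := by ring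
          _ ≤ 32 * n ^ 10 * n ^ 9 := Nat.mul_le_mul_left _ hi
          _ = 32 * n ^ 19 := by ring
      have f2 : (n * #(els G)) ^ 5 ≤ n ^ 19 := by
        calc (n * #(els G)) ^ 5 = n ^ 5 * #(els G) ^ 5 := by ring
          _ ≤ n ^ 5 * n ^ 14 := Nat.mul_le_mul_left _ ho
          _ = n ^ 19 := by ring
      omega
    calc Ew G (lev n 4) ^ 10 ≤ (2 * n ^ 2 * i + n * #(els G)) ^ 10 := Nat.pow_le_pow_left z4' 10
      _ = ((2 * n ^ 2 * i + n * #(els G)) ^ 5) ^ 2 := by ring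
      _ ≤ (528 * n ^ 19) ^ 2 := Nat.pow_le_pow_left e6 2
      _ = 528 ^ 2 * n ^ 38 := by ring
      _ ≤ n * n ^ 38 := Nat.mul_le_mul_right _ (by omega)
      _ = n ^ (10 * 4 - 1) := by ring
  have hsm := h2 n (by omega) 1 2 G hE (by rw [one_pow]; exact hn1)
    (by calc 2 ^ 5 ≤ n ^ 1 := by rw [pow_one]; omega
          _ ≤ n ^ 3 := Nat.pow_le_pow_right hn1 (by norm_num))
  have hsm' : ∀ j, 3 ≤ j → j ≤ 16 → Small n G j := by
    intro j h3 h16
    rcases Nat.lt_or_ge j 5 with hc | hc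
    · interval_cases j
      · exact hsm3
      · exact hsm4
    · exact hsm j hc (by omega)
  have h12 := (hHOM n 2 G hH).2 (by omega)
  refine h1 n (by omega) 1 2 G hE (by rw [one_pow]; exact hn1)
    (by calc 2 ^ 5 ≤ n ^ 1 := by rw [pow_one]; omega
          _ ≤ n ^ 3 := Nat.pow_le_pow_right hn1 (by norm_num)) ?_
  intro m hm
  rcases Nat.lt_or_ge m 3 with hc | hc
  · left
    exact (h12 m (by omega)).two
  · right
    exact ⟨hc, (hsm' m hc (by omega)).au.tw (by omega), (hsm' (m + 1) (by omega) (by omega)).au⟩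

/-- transitive groups of prime degree -/
theorem cor_prime (hF : ∃ n₀ : ℕ, ∀ n ≥ n₀, ∀ G : Grp n,
    (∀ x y : Fin n, ∃ γ ∈ G, γ x = y) → (∀ γ ∈ G, γ ≠ 1 → fx γ ≤ 1) →
    (#((els G).filter (fun γ => orderOf γ = 3))) ^ 5 ≤ n ^ 9 → QuotientHasSCD n G)
    (h2 : Goal_AFH) (h3 : Goal_BUR2) (h4 : Goal_SOLP) :
    ∃ n₀ : ℕ, ∀ p ≥ n₀, p.Prime → ∀ G : Grp p, (∀ x y : Fin p, ∃ γ ∈ G, γ x = y) →
      (Group.IsSolvable G ∨ ∃ x y x' y' : Fin p, x ≠ y ∧ x' ≠ y' ∧ ∀ γ ∈ G, ¬ (γ x = x' ∧ γ y = y')) →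
      QuotientHasSCD p G := by
  obtain ⟨a1, hF⟩ := hF
  refine ⟨a1 + 3 ^ 5, fun p hp hpr G htr hG => ?_⟩
  haveI : Fact p.Prime := ⟨hpr⟩
  obtain ⟨e, he⟩ : ∃ e : ZMod p ≃ Fin p, G ≤ aff e ⊤ := by
    rcases hG with h | h
    · exact h4 p G htr h
    · exact h3 p G htr h
  obtain ⟨-, b2, b3⟩ := (h2 p (ZMod p) e).1 ⊤
  refine hF p (by omega) G htr (fun γ hγ h1 => b2 γ (he hγ) h1) ?_
  have hn1 : 1 ≤ p := by omega
  have b4 : #((els G).filter (fun γ => orderOf γ = 3)) ≤ 3 * p := by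
    refine (Finset.card_le_card ?_).trans b3
    intro γ hγ
    rw [Finset.mem_filter, mem_els] at hγ ⊢
    exact ⟨he hγ.1, hγ.2⟩
  calc _ ≤ (3 * p) ^ 5 := Nat.pow_le_pow_left b4 5
    _ = 3 ^ 5 * p ^ 5 := by ring
    _ ≤ p * p ^ 5 := Nat.mul_le_mul_right _ (by omega)
    _ = p ^ 6 := by ring
    _ ≤ p ^ 9 := Nat.pow_le_pow_right hn1 (by norm_num)

end Pool.Agent.Helper91.FS
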