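import Pool.Agent.Helper49.NF.Goals

/-!
# Project FS (MP_0130f7_co): symmetric chain decompositions of `B_n / G` for groups with few invariant sets

Definitions.
-/

set_option autoImplicit false

namespace Pool.Agent.Helper91.FS

open Finset
open Pool.Agent.Helper47.SR (Grp mv lev wt Ew W IsInv up dn StarAt HalfStarAt)
open Pool.Agent.Helper49.NF

variable {n : ℕ}

/-- the number of the elements of `G` which fix all the points of `T` -/
noncomputable def pst (G : Grp n) (T : Finset (Fin n)) : ℕ :=
  #((els G).filter (fun γ => ∀ x ∈ T, γ x = x))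

/-- the pointwise stabilisers of `t` points have order at most `L`, elements `≠ 1` fix at most `f` points -/
structure Eg (t n L f : ℕ) (G : Grp n) : Prop where
  t1 : 1 ≤ t
  tn : t ≤ n
  L1 : 1 ≤ L
  st : ∀ T : Finset (Fin n), #T = t → pst G T ≤ L
  fix : ∀ γ ∈ G, γ ≠ 1 → fx γ ≤ f

/-- the stabilisers of the `j`-sets have order at least `k`, and the total excess is at most `E` -/
structure AU (G : Grp n) (j k E : ℕ) : Prop where
  k1 : 1 ≤ k
  lb : ∀ A ∈ lev n j, k ≤ 1 + wt G A
  ex : W G (lev n j) ≤ k * n.choose j + E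

/-- `G` is transitive on the `m`-sets -/
def Hom (G : Grp n) (m : ℕ) : Prop := ∀ A ∈ lev n m, ∀ B ∈ lev n m, ∃ γ ∈ G, mv γ A = B

/-- the number of pairs `(γ, A)`: `γ ≠ 1` an element of `G`, `A` the support of a cycle of length `j` of `γ` (`j ≥ 2`) -/
noncomputable def cyc (G : Grp n) (j : ℕ) : ℕ := by
  classical
  exact ∑ γ ∈ (els G).filter (fun γ => γ ≠ 1),
    #((lev n j).filter (fun A => mv γ A = A ∧ ∀ x ∈ A, ∀ y ∈ A, γ.SameCycle x y))

/-- the number of the pairs of points with a nontrivial pointwise stabiliser -/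
noncomputable def bad2 (G : Grp n) : ℕ := #((lev n 2).filter (fun y => pst G y ≠ 1))

/-- `f` enlarged by a term of order `(log n)²` -/
def F1 (t n f : ℕ) : ℕ := f + t * Lg n * (8 * Lg n + 3)

end Pool.Agent.Helper91.FS
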