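import Pool.Agent.Helper91.FS.Goals
import Mathlib.Topology.Compactification.OnePoint.ProjectiveLine
import Mathlib.FieldTheory.Finite.Basic

/-!
# Project FS, part 2: the projective and the affine line
-/

set_option autoImplicit false

namespace Pool.Agent.Helper91.FS

open Pool.Agent.Helper47.SR (Grp)
open scoped MatrixGroups

section

variable {n : ℕ} {K : Type} [Field K] [DecidableEq K]

theorem omap_id (x : OnePoint K) : OnePoint.map (RingEquiv.refl K) x = x := by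
  cases x <;> rfl

theorem omap_comp (φ ψ : K ≃+* K) (x : OnePoint K) :
    OnePoint.map φ (OnePoint.map ψ x) = OnePoint.map (ψ.trans φ) x := by
  cases x <;> rfl

theorem omap_smul (φ : K ≃+* K) (g : GL (Fin 2) K) (x : OnePoint K) :
    OnePoint.map φ (g • x) = (g.map (φ : K →+* K)) • OnePoint.map φ x :=
  OnePoint.map_smul (φ : K →+* K) g x

/-- `PGL(2, K)` on the projective line, transported to `Fin n` -/
def pgl (e : OnePoint K ≃ Fin n) : Grp n where
  carrier := {γ | ∃ g : GL (Fin 2) K, ∀ x, γ (e x) = e (g • x)}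
  mul_mem' := by
    rintro γ γ' ⟨g, hg⟩ ⟨g', hg'⟩
    refine ⟨g * g', fun x => ?_⟩
    rw [Equiv.Perm.mul_apply, hg', hg, mul_smul]
  one_mem' := ⟨1, fun x => by rw [one_smul]; rfl⟩
  inv_mem' := by
    rintro γ ⟨g, hg⟩
    refine ⟨g⁻¹, fun x => ?_⟩
    rw [Equiv.Perm.inv_eq_iff_eq, hg, smul_inv_smul]

/-- `PSL(2, K)` -/
def psl (e : OnePoint K ≃ Fin n) : Grp n where
  carrier := {γ | ∃ g : GL (Fin 2) K, (g : Matrix (Fin 2) (Fin 2) K).det = 1 ∧
    ∀ x, γ (e x) = e (g • x)}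
  mul_mem' := by
    rintro γ γ' ⟨g, hd, hg⟩ ⟨g', hd', hg'⟩
    refine ⟨g * g', ?_, fun x => ?_⟩
    · rw [Units.val_mul, Matrix.det_mul, hd, hd', one_mul]
    · rw [Equiv.Perm.mul_apply, hg', hg, mul_smul]
  one_mem' := ⟨1, by simp, fun x => by rw [one_smul]; rfl⟩
  inv_mem' := by
    rintro γ ⟨g, hd, hg⟩
    refine ⟨g⁻¹, ?_, fun x => ?_⟩
    · have h : ((g⁻¹ * g : GL (Fin 2) K) : Matrix (Fin 2) (Fin 2) K).det = 1 := by
        rw [inv_mul_cancel]; simp
      rw [Units.val_mul, Matrix.det_mul, hd, mul_one] at h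
      exact h
    · rw [Equiv.Perm.inv_eq_iff_eq, hg, smul_inv_smul]

/-- `PΓL(2, K)` -/
def pgam (e : OnePoint K ≃ Fin n) : Grp n where
  carrier := {γ | ∃ (g : GL (Fin 2) K) (φ : K ≃+* K), ∀ x, γ (e x) = e (g • OnePoint.map φ x)}
  mul_mem' := by
    rintro γ γ' ⟨g, φ, hg⟩ ⟨g', φ', hg'⟩
    refine ⟨g * g'.map (φ : K →+* K), φ'.trans φ, fun x => ?_⟩
    rw [Equiv.Perm.mul_apply, hg', hg, mul_smul, omap_smul, omap_comp]
  one_mem' := ⟨1, RingEquiv.refl K, fun x => by rw [one_smul, omap_id]; rfl⟩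
  inv_mem' := by
    rintro γ ⟨g, φ, hg⟩
    refine ⟨(g⁻¹).map (φ.symm : K →+* K), φ.symm, fun x => ?_⟩
    rw [Equiv.Perm.inv_eq_iff_eq, hg, ← omap_smul, omap_comp, RingEquiv.symm_trans_self, omap_id,
      smul_inv_smul]

end

section

variable {n : ℕ} {K : Type} [Field K]

/-- `AΓL(1, K)` on the affine line, transported to `Fin n` -/
def agam (e : K ≃ Fin n) : Grp n where
  carrier := {γ | ∃ (a : Kˣ) (b : K) (φ : K ≃+* K), ∀ x, γ (e x) = e (a * φ x + b)}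
  mul_mem' := by
    rintro γ γ' ⟨a, b, φ, hg⟩ ⟨a', b', φ', hg'⟩
    refine ⟨a * Units.map φ a', a * φ b' + b, φ'.trans φ, fun x => ?_⟩
    rw [Equiv.Perm.mul_apply, hg', hg]
    congr 1
    simp only [map_add, map_mul, Units.val_mul, Units.coe_map, MonoidHom.coe_coe,
      RingEquiv.coe_trans, Function.comp]
    ring
  one_mem' := ⟨1, 0, RingEquiv.refl K, fun x => by simp⟩
  inv_mem' := by
    rintro γ ⟨a, b, φ, hg⟩
    refine ⟨Units.map φ.symm a⁻¹, - (φ.symm (a⁻¹ : Kˣ) * φ.symm b), φ.symm, fun x => ?_⟩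
    rw [Equiv.Perm.inv_eq_iff_eq, hg]
    congr 1
    simp only [map_add, map_mul, map_neg, Units.coe_map, MonoidHom.coe_coe,
      RingEquiv.apply_symm_apply]
    have h : (a : K) * ((a⁻¹ : Kˣ) : K) = 1 := Units.mul_inv a
    calc x = (a : K) * ((a⁻¹ : Kˣ) : K) * x + (- ((a : K) * ((a⁻¹ : Kˣ) : K) * b) + b) := by
          rw [h]; ring
      _ = _ := by ring

/-- the group of the maps `x ↦ a x + b` with `a ∈ A` -/
def aff (e : K ≃ Fin n) (A : Subgroup Kˣ) : Grp n where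
  carrier := {γ | ∃ a ∈ A, ∃ b : K, ∀ x, γ (e x) = e (a * x + b)}
  mul_mem' := by
    rintro γ γ' ⟨a, ha, b, hg⟩ ⟨a', ha', b', hg'⟩
    refine ⟨a * a', A.mul_mem ha ha', a * b' + b, fun x => ?_⟩
    rw [Equiv.Perm.mul_apply, hg', hg]
    congr 1
    rw [Units.val_mul]
    ring
  one_mem' := ⟨1, A.one_mem, 0, fun x => by simp⟩
  inv_mem' := by
    rintro γ ⟨a, ha, b, hg⟩
    refine ⟨a⁻¹, A.inv_mem ha, - ((a⁻¹ : Kˣ) * b), fun x => ?_⟩
    rw [Equiv.Perm.inv_eq_iff_eq, hg]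
    congr 1
    have h : (a : K) * ((a⁻¹ : Kˣ) : K) = 1 := Units.mul_inv a
    calc x = (a : K) * ((a⁻¹ : Kˣ) : K) * x + (- ((a : K) * ((a⁻¹ : Kˣ) : K) * b) + b) := by
          rw [h]; ring
      _ = _ := by ring

end

end Pool.Agent.Helper91.FS
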