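import Pool.Agent.Helper91.FS.Goals
import Pool.Agent.Helper24.NF.EJ

/-! Project FS: EJT, NSBT, REDT -/

set_option autoImplicit false

namespace Pool.Agent.Helper91.FS

open Finset
open Pool.Agent.Helper47.SR (Grp mv lev wt Ew W IsInv up dn StarAt HalfStarAt Goal_SYM Goal_STAN
  Goal_TR2 Goal_KKA)
open Pool.Agent.Helper49.NF

theorem mem_els {n : ℕ} (G : Grp n) (γ : Equiv.Perm (Fin n)) : γ ∈ els G ↔ γ ∈ G := by
  unfold els
  simp

theorem W_eq {n : ℕ} (G : Grp n) (F : Finset (Finset (Fin n))) : W G F = #F + Ew G F := by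
  unfold W Ew
  rw [Finset.sum_add_distrib]
  simp

theorem card_lev (n m : ℕ) : #(lev n m) = n.choose m := by
  rw [Finset.card_powersetCard, Finset.card_univ, Fintype.card_fin]

theorem goal_EJT (h1 : Goal_STBB) (h2 : Goal_CYC) : Goal_EJT := by
  intro t n L f G hG j
  have hcard := (h1 t n L f G hG).2.1
  have hE : #((els G).filter (fun γ => γ ≠ 1)) ≤ L * n ^ t :=
    (Finset.card_filter_le _ _).trans hcard
  have hmem : ∀ γ ∈ (els G).filter (fun γ => γ ≠ 1), fx γ ≤ f := by
    intro γ hγ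
    rw [Finset.mem_filter, mem_els] at hγ
    exact hG.fix γ hγ.1 hγ.2
  rw [Pool.Agent.Helper24.NF.Ew_double]
  calc ∑ γ ∈ (els G).filter (fun γ => γ ≠ 1), #((lev n j).filter (fun A => mv γ A = A))
      ≤ ∑ γ ∈ (els G).filter (fun γ => γ ≠ 1), Mb n f j := by
        apply Finset.sum_le_sum
        intro γ hγ
        refine (h2 n γ j).trans ?_
        unfold Mb
        apply Finset.sum_le_sum
        intro p _
        apply Finset.sum_le_sum
        intro r _
        by_cases hpr : p + 2 * r ≤ j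
        · simp only [if_pos hpr]
          exact Nat.mul_le_mul_right _ (Nat.choose_le_choose _ (hmem γ hγ))
        · simp [hpr]
    _ = #((els G).filter (fun γ => γ ≠ 1)) * Mb n f j := by
        rw [Finset.sum_const, smul_eq_mul]
    _ ≤ L * n ^ t * Mb n f j := Nat.mul_le_mul_right _ hE

lemma le_two_pow_Lg (n : ℕ) : n ≤ 2 ^ Lg n := Nat.le_pow_clog (by norm_num) n

lemma choose_succ_le' (N b : ℕ) : N.choose (b + 1) ≤ N * N.choose b := by
  have h := Nat.choose_succ_right_eq N b
  calc N.choose (b + 1) ≤ N.choose (b + 1) * (b + 1) := Nat.le_mul_of_pos_right _ (Nat.succ_pos b)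
    _ = N.choose b * (N - b) := h
    _ ≤ N.choose b * N := Nat.mul_le_mul_left _ (Nat.sub_le N b)
    _ = N * N.choose b := mul_comm _ _

lemma ew_le' {n : ℕ} (G : Grp n) (m : ℕ) : Ew G (lev n m) ≤ Nn G m 2 := by
  unfold Ew Nn
  rw [sum_filter]
  apply sum_le_sum
  intro A _
  by_cases h : 2 ≤ 1 + wt G A
  · rw [if_pos h]
    omega
  · rw [if_neg h]
    omega

/-- the power of `n ^ (t - 1)` is absorbed by the larger `f` -/
lemma absorb (t n L f s : ℕ) (ht : 1 ≤ t) (hs : s ≤ 8 * Lg n) :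
    (L * n ^ t) ^ (s + 1) * 4 ^ f ≤ 4 ^ (F1 t n f) * (L * n) ^ (s + 1) := by
  obtain ⟨u, rfl⟩ : ∃ u, t = u + 1 := ⟨t - 1, by omega⟩
  have h1 : (n ^ u) ^ (s + 1) ≤ 4 ^ ((u + 1) * Lg n * (8 * Lg n + 3)) := by
    calc (n ^ u) ^ (s + 1) = n ^ (u * (s + 1)) := by rw [pow_mul]
      _ ≤ (2 ^ Lg n) ^ (u * (s + 1)) := Nat.pow_le_pow_left (le_two_pow_Lg n) _
      _ = 2 ^ (Lg n * (u * (s + 1))) := by rw [← pow_mul]
      _ ≤ 4 ^ (Lg n * (u * (s + 1))) := Nat.pow_le_pow_left (by norm_num) _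
      _ ≤ 4 ^ ((u + 1) * Lg n * (8 * Lg n + 3)) := by
          apply Nat.pow_le_pow_right (by norm_num)
          calc Lg n * (u * (s + 1)) = u * Lg n * (s + 1) := by ring
            _ ≤ (u + 1) * Lg n * (8 * Lg n + 3) := by
                apply Nat.mul_le_mul
                · exact Nat.mul_le_mul_right _ (Nat.le_succ _)
                · omega
  calc (L * n ^ (u + 1)) ^ (s + 1) * 4 ^ f = (L * n) ^ (s + 1) * (n ^ u) ^ (s + 1) * 4 ^ f := by
        rw [pow_succ n u, ← mul_pow]
        congr 2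
        ring
    _ ≤ (L * n) ^ (s + 1) * 4 ^ ((u + 1) * Lg n * (8 * Lg n + 3)) * 4 ^ f := by
        apply Nat.mul_le_mul_right
        exact Nat.mul_le_mul_left _ h1
    _ = 4 ^ (F1 (u + 1) n f) * (L * n) ^ (s + 1) := by
        unfold F1
        rw [pow_add 4 f]
        ring

theorem goal_NSBT (hNS : Goal_NST) : Goal_NSBT := by
  intro t n L f G hG m hm1 hm2
  have ht := hG.t1
  have key : ∀ s, 1 ≤ s → s ≤ 8 * Lg n → Nn G m s ≤ Bb n L (F1 t n f) m s ∧
      Nn G (m + 1) s ≤ Bb n L (F1 t n f) m s := by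
    intro s hs hsL
    have hN : n / s ≤ n := Nat.div_le_self n s
    have hab := absorb t n L f s ht hsL
    have fin : ∀ C, C ≤ (n + 1) * (n / s).choose (m / s) →
        (L * n ^ t) ^ (s + 1) * (4 ^ f * ((n + 1) * C)) ≤ Bb n L (F1 t n f) m s := by
      intro C hC
      unfold Bb
      calc (L * n ^ t) ^ (s + 1) * (4 ^ f * ((n + 1) * C))
          = ((L * n ^ t) ^ (s + 1) * 4 ^ f) * ((n + 1) * C) := by ring
        _ ≤ (4 ^ (F1 t n f) * (L * n) ^ (s + 1)) * ((n + 1) * ((n + 1) * (n / s).choose (m / s))) :=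
            Nat.mul_le_mul hab (Nat.mul_le_mul_left _ hC)
        _ = 4 ^ (F1 t n f) * (L * n) ^ (s + 1) * (n + 1) ^ 2 * (n / s).choose (m / s) := by ring
    constructor
    · have h1 := (hNS t n L f G hG m s hm1 (by omega) hs).2 (by omega)
      exact h1.trans (fin _ (Nat.le_mul_of_pos_left _ (Nat.succ_pos n)))
    · have h1 := (hNS t n L f G hG (m + 1) s (by omega) (by omega) hs).2 hm2
      refine h1.trans (fin _ ?_)
      rw [Nat.succ_div]
      split_ifs with hd
      · calc (n / s).choose (m / s + 1) ≤ (n / s) * (n / s).choose (m / s) :=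
              choose_succ_le' _ _
          _ ≤ (n + 1) * (n / s).choose (m / s) := by
              apply Nat.mul_le_mul_right
              omega
      · exact Nat.le_mul_of_pos_left _ (Nat.succ_pos n)
  have h2 : 2 ≤ 8 * Lg n := by
    have h3 : 1 ≤ Lg n := by
      have := le_two_pow_Lg n
      by_contra h
      have h0 : Lg n = 0 := by omega
      rw [h0] at this
      omega
    omega
  refine ⟨key, ?_, ?_⟩
  · exact (ew_le' G m).trans (key 2 (by norm_num) h2).1
  · exact (ew_le' G (m + 1)).trans (key 2 (by norm_num) h2).2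

theorem goal_REDT (hSTB : Goal_STBB) (hSB : Goal_SB) (hSYM : Goal_SYM) (hSTAN : Goal_STAN)
    (hTR2 : Goal_TR2) (hKKA : Goal_KKA) : Goal_REDT := by
  intro t n L f m G hG htm hn hE H
  refine hSYM n G m ?_
  intro S Y hS hY hSi hYi hhalf hlt
  have ht := hG.t1
  have hm : 1 ≤ m := ht.trans htm
  have hF : Fam G m S Y := ⟨hS, hY, hSi, hYi, hlt⟩
  have hYc : #Y ≤ n.choose m := by
    rw [← card_lev]
    exact Finset.card_le_card hY
  have hn1 : 1 ≤ n := ht.trans hG.tn
  have hK1 : 1 ≤ L := hG.L1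
  by_cases hd : W G (dn m Y) < 2 ^ (m + 1)
  · have h1 := hTR2 n G m Y hY hYi hd
    have h2 := hSTAN n G m (by omega) S hS hSi
    omega
  · rw [not_lt] at hd
    have h1 : W G (dn m Y) ≤ L * (m + 1) ^ t * #(dn m Y) := by
      unfold W
      have h2 : ∀ B ∈ dn m Y, 1 + wt G B ≤ L * (m + 1) ^ t := by
        intro B hB
        have h3 : B ∈ lev n (m + 1) := (Finset.mem_filter.mp hB).1
        have h4 : #B = m + 1 := (Finset.mem_powersetCard.mp h3).2
        have h5 := (hSTB t n L f G hG).2.2 B (by omega)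
        rwa [h4] at h5
      calc ∑ A ∈ dn m Y, (1 + wt G A) ≤ ∑ _A ∈ dn m Y, L * (m + 1) ^ t := Finset.sum_le_sum h2
        _ = L * (m + 1) ^ t * #(dn m Y) := by rw [Finset.sum_const, smul_eq_mul, mul_comm]
    have h2 : (m + 1) * #(dn m Y) ≤ (n - m) * #Y := hKKA n m n hm (by omega) Y hY hYc
    have hYW : #Y ≤ W G Y := by rw [W_eq]; omega
    have h3 : W G (dn m Y) ≤ L * n ^ t * W G Y := by
      obtain ⟨u, rfl⟩ : ∃ u, t = u + 1 := ⟨t - 1, by omega⟩
      calc W G (dn m Y) ≤ L * (m + 1) ^ (u + 1) * #(dn m Y) := h1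
        _ = L * (m + 1) ^ u * ((m + 1) * #(dn m Y)) := by rw [pow_succ]; ring
        _ ≤ L * n ^ u * ((n - m) * #Y) := by
            apply Nat.mul_le_mul _ h2
            exact Nat.mul_le_mul_left _ (Nat.pow_le_pow_left (by omega) _)
        _ ≤ L * n ^ u * (n * W G Y) :=
            Nat.mul_le_mul_left _ (Nat.mul_le_mul (Nat.sub_le _ _) hYW)
        _ = L * n ^ (u + 1) * W G Y := by rw [pow_succ]; ring
    have hKn : 0 < L * n ^ t := Nat.mul_pos hK1 (Nat.pow_pos hn1)
    have h4 : L * n ^ t * W G Y < L * n ^ t * W G S := Nat.mul_lt_mul_of_pos_left hlt hKn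
    have h5 : 2 ^ (m + 1) < L * n ^ t * W G S := lt_of_le_of_lt (hd.trans h3) h4
    by_cases hA : TT G m ≤ W G Y
    · have hc : #Y ≤ (n - 1).choose m := by
        have h6 : 2 * W G Y ≤ n.choose m + Ew G (lev n m) := by
          rw [W_eq G (lev n m), card_lev] at hhalf
          exact hhalf
        have h7 : 2 * n * #Y ≤ (n + 2) * n.choose m := by
          calc 2 * n * #Y = n * (2 * #Y) := by ring
            _ ≤ n * (n.choose m + Ew G (lev n m)) := Nat.mul_le_mul_left _ (by omega)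
            _ = n * n.choose m + n * Ew G (lev n m) := by ring
            _ ≤ n * n.choose m + 2 * n.choose m := Nat.add_le_add_left hE _
            _ = (n + 2) * n.choose m := by ring
        obtain ⟨p, hp⟩ : ∃ p, n = p + 1 := ⟨n - 1, by omega⟩
        subst hp
        have h8 : p.choose m * (p + 1) = (p + 1).choose m * (p + 1 - m) :=
          Nat.choose_mul_succ_eq p m
        rw [Nat.add_sub_cancel]
        have h9 : 2 * (p + 1) * #Y ≤ 2 * (p + 1) * p.choose m := by
          calc 2 * (p + 1) * #Y ≤ (p + 1 + 2) * (p + 1).choose m := h7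
            _ ≤ (2 * (p + 1 - m)) * (p + 1).choose m := Nat.mul_le_mul_right _ (by omega)
            _ = 2 * ((p + 1).choose m * (p + 1 - m)) := by ring
            _ = 2 * (p.choose m * (p + 1)) := by rw [h8]
            _ = 2 * (p + 1) * p.choose m := by ring
        exact Nat.le_of_mul_le_mul_left h9 (by omega)
      refine hSB n m (n - 1) G S Y hm hn (by omega) (by omega) hF hc ?_
      have h6 : n - (n - 1) = 1 := by omega
      rw [h6, one_mul]
      exact hA.trans (Nat.le_add_right _ _)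
    · rw [not_le] at hA
      by_cases hB : TT G m ≤ (n - 2 * m - 1) * (W G S - W G Y)
      · refine hSB n m n G S Y hm hn (by omega) le_rfl hF hYc ?_
        exact hB.trans (Nat.le_add_left _ _)
      · rw [not_le] at hB
        refine H S Y hF hd h5 ?_
        have h6 : W G S - W G Y ≤ (n - 2 * m - 1) * (W G S - W G Y) :=
          Nat.le_mul_of_pos_left _ (by omega)
        omega

theorem goal_LEVF (hR : Goal_R1K) (hN : Goal_N0) : Goal_LEVF := by
  intro m hm
  obtain ⟨n0, h⟩ := hN m hm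
  refine ⟨n0, ?_⟩
  intro n hn s k k' E E' G hs hsn w1 w2 a1 a2 e1 e2
  -- a set of size m and one of size m+1 exist because of the numerical facts
  have hk : ∀ j, j ≤ n → ∀ κ F, AU G j κ F → (∀ A ∈ lev n j, 1 + wt G A ≤ s) → κ ≤ s := by
    intro j hj κ F hA hw
    have h1 : 0 < #(lev n j) := by
      rw [card_lev]
      exact Nat.choose_pos hj
    obtain ⟨A, hA'⟩ := Finset.card_pos.1 h1
    exact (hA.lb A hA').trans (hw A hA')
  have hmn : 2 * (m + 1) ≤ n := by
    have := h n hn s 0 1 0 0 hs hsn (Nat.zero_le _) le_rfl hs (by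
      rw [zero_pow (by norm_num)]; exact Nat.zero_le _) (by
      rw [zero_pow (by norm_num)]; exact Nat.zero_le _)
    exact this.2.2.2.2.2.2.1
  have hks : k ≤ s := hk m (by omega) k E a1 w1
  have hks' : k' ≤ s := hk (m + 1) (by omega) k' E' a2 w2
  obtain ⟨c1, c2, c3, c4, c5, c6, c7, c8⟩ := h n hn s k k' E E' hs hsn hks a2.k1 hks' e1 e2
  exact hR n m s (n / (4 * m)) (n / (4 * s ^ 2)) k k' E E' G hm c7 hs c4 (Nat.div_le_self _ _) c8
    w1 w2 a1 a2 c3 c2 c1 c5 c6

end Pool.Agent.Helper91.FS
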