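import Pool.Agent.Helper91.FS.Goals

/-! Project FS: the numerical goals NUMK, NUMD, F1N, CMPT -/

set_option autoImplicit false

namespace Pool.Agent.Helper91.FS

open Finset
open Pool.Agent.Helper49.NF

lemma Lg_pos (n : ℕ) (hn : 2 ≤ n) : 1 ≤ Lg n := by
  have h1 : n ≤ 2 ^ Lg n := Nat.le_pow_clog (by norm_num) n
  by_contra h
  have h0 : Lg n = 0 := by omega
  rw [h0] at h1
  omega

theorem goal_NUMK (hLOG : Goal_LOG) : Goal_NUMK := by
  intro t ht
  obtain ⟨u, rfl⟩ : ∃ u, t = u + 1 := ⟨t - 1, by omega⟩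
  obtain ⟨n₀, h⟩ := hLOG ((2 * 16 ^ u) ^ 200) (200 * u)
  refine ⟨n₀ + 2, ?_⟩
  intro n hn L hL1 hL
  have hlog := h n (by omega)
  have hl := Lg_pos n (by omega)
  have hL100 : L ^ 100 ≤ n := (Nat.pow_le_pow_right hL1 (by omega)).trans hL
  have hL200 : L ^ 200 ≤ n := (Nat.pow_le_pow_right hL1 (by omega)).trans hL
  refine ⟨2 * 16 ^ u * L * Lg n ^ u, ?_, ?_, ?_, hl, hL100⟩
  · exact Nat.one_le_iff_ne_zero.2 (by positivity)
  · rw [← Nat.pow_le_pow_iff_left (n := 2) (by norm_num)]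
    calc ((2 * 16 ^ u * L * Lg n ^ u) ^ 100) ^ 2
        = ((2 * 16 ^ u) ^ 200 * Lg n ^ (200 * u)) * L ^ 200 := by
          rw [← pow_mul, mul_pow, mul_pow (2 * 16 ^ u) L, ← pow_mul (Lg n) u 200, mul_comm u 200]
          ring
      _ ≤ n * n := by
          refine Nat.mul_le_mul (le_trans ?_ hlog) hL200
          exact Nat.mul_le_mul_left _ (Nat.pow_le_pow_left (Nat.le_succ _) _)
      _ = n ^ 2 := by ring
  · rw [mul_pow, pow_succ 16 u, pow_succ (Lg n) u]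
    ring

theorem goal_F1N (hLOG : Goal_LOG) : Goal_F1N := by
  intro t _
  obtain ⟨n₀, h⟩ := hLOG ((2 * (8 * t)) ^ 5) 10
  refine ⟨n₀ + 32, ?_⟩
  intro n hn f hf
  have hlog := h n (by omega)
  have key : (F1 t n f + t * Lg n) ^ 5 ≤ n ^ 4 := by
    have h1 : F1 t n f + t * Lg n ≤ f + 8 * t * (Lg n + 1) ^ 2 := by
      unfold F1
      have : t * Lg n * (8 * Lg n + 3) + t * Lg n ≤ 8 * t * (Lg n + 1) ^ 2 := by nlinarith
      omega
    refine (Nat.pow_le_pow_left h1 5).trans ?_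
    rcases le_total f (8 * t * (Lg n + 1) ^ 2) with hc | hc
    · calc (f + 8 * t * (Lg n + 1) ^ 2) ^ 5 ≤ (2 * (8 * t * (Lg n + 1) ^ 2)) ^ 5 :=
            Nat.pow_le_pow_left (by omega) 5
        _ = (2 * (8 * t)) ^ 5 * (Lg n + 1) ^ 10 := by ring
        _ ≤ n := hlog
        _ = n ^ 1 := (pow_one n).symm
        _ ≤ n ^ 4 := Nat.pow_le_pow_right (by omega) (by norm_num)
    · calc (f + 8 * t * (Lg n + 1) ^ 2) ^ 5 ≤ (2 * f) ^ 5 :=
            Nat.pow_le_pow_left (by omega) 5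
        _ = 32 * f ^ 5 := by ring
        _ ≤ n * n ^ 3 := Nat.mul_le_mul (by omega) hf
        _ = n ^ 4 := by ring
  exact ⟨(Nat.pow_le_pow_left (Nat.le_add_right _ _) 5).trans key, key⟩

theorem goal_NUMD (hLOG : Goal_LOG) : Goal_NUMD := by
  intro t ht
  obtain ⟨C0, hC0⟩ : ∃ C0, C0 = 6 + (t + 1) * 16 ^ t + 3 * (t + 1) + t + (t + 11) := ⟨_, rfl⟩
  obtain ⟨c, hc⟩ : ∃ c, c = (2 * C0) ^ (800 * t) := ⟨_, rfl⟩
  obtain ⟨n₀, h⟩ := hLOG c (800 * t * (t + 1))
  refine ⟨n₀ + 2, ?_⟩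
  intro n hn m L hnm hmn hL1 hL
  have hlog := h n (by omega)
  have hl := Lg_pos n (by omega)
  have hnl : n ≤ 2 ^ Lg n := Nat.le_pow_clog (by norm_num) n
  generalize Lg n = l at *
  have hLn : L ≤ n := (Nat.le_self_pow (by omega) L).trans hL
  have hL800 : L ^ (800 * t) ≤ n := (Nat.pow_le_pow_right hL1 (by omega)).trans hL
  obtain ⟨X, hX⟩ : ∃ X, X = L * (l + 1) ^ (t + 1) := ⟨_, rfl⟩
  have hm : 2 * C0 * X < m := by
    apply lt_of_pow_lt_pow_left₀ (400 * t) (Nat.zero_le _)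
    refine lt_of_le_of_lt ?_ hnm
    rw [← Nat.pow_le_pow_iff_left (n := 2) (by norm_num)]
    calc ((2 * C0 * X) ^ (400 * t)) ^ 2 = (c * (l + 1) ^ (800 * t * (t + 1))) * L ^ (800 * t) := by
          rw [hX, hc, ← pow_mul, show 400 * t * 2 = 800 * t by ring, mul_pow, mul_pow L,
            ← pow_mul (l + 1), mul_comm (t + 1) (800 * t)]
          ring
      _ ≤ n * n := Nat.mul_le_mul hlog hL800
      _ = n ^ 2 := by ring
  clear hlog hc c hnm hn h n₀
  have hlX : l + 1 ≤ X := by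
    rw [hX]
    calc l + 1 ≤ 1 * (l + 1) ^ (t + 1) := by
          rw [one_mul]; exact Nat.le_self_pow (by omega) _
      _ ≤ L * (l + 1) ^ (t + 1) := Nat.mul_le_mul_right _ hL1
  have hg : L * n ^ t ≤ 2 ^ ((t + 1) * l) := by
    calc L * n ^ t ≤ 2 ^ l * (2 ^ l) ^ t := Nat.mul_le_mul (hLn.trans hnl) (Nat.pow_le_pow_left hnl _)
      _ = 2 ^ ((t + 1) * l) := by rw [← pow_mul, ← pow_add]; congr 1; ring
  have hn1 : n + 1 ≤ 2 ^ (l + 1) := by
    rw [pow_succ]
    have : 1 ≤ 2 ^ l := Nat.one_le_two_pow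
    omega
  have hn2 : n + 2 ≤ 2 ^ (l + 2) := by
    rw [pow_add]
    have : 1 ≤ 2 ^ l := Nat.one_le_two_pow
    omega
  have hCX : (t + 11) * X ≤ C0 * X := Nat.mul_le_mul_right _ (by omega)
  refine ⟨?_, ?_⟩
  · calc 2 * (n + 1) * (L * n ^ t * (n + 2) ^ 2 * n)
        ≤ 2 * 2 ^ (l + 1) * (2 ^ ((t + 1) * l) * (2 ^ (l + 2)) ^ 2 * 2 ^ l) := by gcongr
      _ = 2 ^ (1 + (l + 1) + ((t + 1) * l + (l + 2) * 2 + l)) := by
          rw [← pow_mul, pow_add 2 (1 + (l + 1)), pow_add 2 1, pow_one,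
            pow_add 2 ((t + 1) * l + (l + 2) * 2), pow_add 2 ((t + 1) * l)]
      _ ≤ 2 ^ m := by
          apply Nat.pow_le_pow_right (by norm_num)
          have h1 : 1 + (l + 1) + ((t + 1) * l + (l + 2) * 2 + l) ≤ (t + 11) * (l + 1) := by
            nlinarith
          have h2 : (t + 11) * (l + 1) ≤ (t + 11) * X := Nat.mul_le_mul_left _ hlX
          have h3 : C0 * X ≤ 2 * C0 * X := by nlinarith
          omega
  · obtain ⟨q, hq⟩ : ∃ q, q = (m + 1) / (16 * l) := ⟨_, rfl⟩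
    rw [← hq]
    have hq1 : 16 * l * q ≤ m + 1 := by rw [hq]; exact Nat.mul_div_le _ _
    have hq2 : 8 * ((l + 1) * q) ≤ m + 1 := by
      refine le_trans ?_ hq1
      have : l + 1 ≤ 2 * l := by omega
      calc 8 * ((l + 1) * q) ≤ 8 * (2 * l * q) := by gcongr
        _ = 16 * l * q := by ring
    obtain ⟨hh, hhh⟩ : ∃ hh, hh = L * (16 * l) ^ t := ⟨_, rfl⟩
    rw [← hhh]
    have hb : l * hh ≤ 16 ^ t * X := by
      rw [hhh, hX, mul_pow, pow_succ]
      calc l * (L * (16 ^ t * l ^ t)) = 16 ^ t * (L * (l ^ t * l)) := by ring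
        _ ≤ 16 ^ t * (L * ((l + 1) ^ t * (l + 1))) := by
            gcongr <;> omega
    calc 64 * (L * n ^ t * ((L * n ^ t) ^ (hh + 2) * (n + 1) ^ (t - 1 + q)))
        ≤ 64 * (2 ^ ((t + 1) * l) * ((2 ^ ((t + 1) * l)) ^ (hh + 2) *
          (2 ^ (l + 1)) ^ (t - 1 + q))) := by gcongr
      _ = 2 ^ (6 + ((t + 1) * l + ((t + 1) * l * (hh + 2) + (l + 1) * (t - 1 + q)))) := by
          rw [← pow_mul, ← pow_mul, pow_add 2 6, pow_add 2 ((t + 1) * l),
            pow_add 2 ((t + 1) * l * (hh + 2))]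
          norm_num
      _ ≤ 2 ^ (m + 1) := by
          apply Nat.pow_le_pow_right (by norm_num)
          have e1 : (t + 1) * l + (t + 1) * l * (hh + 2) = (t + 1) * (l * hh) + 3 * (t + 1) * l := by
            ring
          have e2 : (t + 1) * (l * hh) ≤ (t + 1) * 16 ^ t * X := by
            calc (t + 1) * (l * hh) ≤ (t + 1) * (16 ^ t * X) := Nat.mul_le_mul_left _ hb
              _ = (t + 1) * 16 ^ t * X := by ring
          have e3 : 3 * (t + 1) * l ≤ 3 * (t + 1) * X := Nat.mul_le_mul_left _ (by omega)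
          have e4 : (l + 1) * (t - 1 + q) ≤ t * X + (l + 1) * q := by
            rw [Nat.mul_add]
            have : (l + 1) * (t - 1) ≤ X * t := Nat.mul_le_mul hlX (by omega)
            rw [mul_comm X t] at this
            omega
          have e5 : 6 ≤ 6 * X := by omega
          have e6 : 6 * X + (t + 1) * 16 ^ t * X + 3 * (t + 1) * X + t * X ≤ C0 * X := by
            rw [hC0]
            calc 6 * X + (t + 1) * 16 ^ t * X + 3 * (t + 1) * X + t * X =
                (6 + (t + 1) * 16 ^ t + 3 * (t + 1) + t) * X := by ring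
              _ ≤ _ := Nat.mul_le_mul_right _ (by omega)
          have e7 : 2 * C0 * X = 2 * (C0 * X) := by ring
          omega

theorem goal_CMPT : Goal_CMPT := by
  classical
  intro t ht
  refine ⟨2 ^ (15 * (5 * t + 2)), ?_⟩
  intro n hn
  have hn1 : 1 ≤ n := le_trans Nat.one_le_two_pow hn
  let f0 := Nat.findGreatest (fun x => x ^ 5 ≤ n ^ 4) n
  have hf0 : f0 ^ 5 ≤ n ^ 4 :=
    Nat.findGreatest_spec (P := fun x => x ^ 5 ≤ n ^ 4) (m := 0) (Nat.zero_le _) (by simp)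
  have hf1 : n ^ 4 < (f0 + 1) ^ 5 := by
    by_cases hc : f0 + 1 ≤ n
    · have := Nat.findGreatest_is_greatest (P := fun x => x ^ 5 ≤ n ^ 4) (n := n)
        (k := f0 + 1) (Nat.lt_succ_self _) hc
      omega
    · calc n ^ 4 ≤ n ^ 5 := Nat.pow_le_pow_right hn1 (by norm_num)
        _ < (f0 + 1) ^ 5 := Nat.pow_lt_pow_left (by omega) (by norm_num)
  have hf2 : 1 ≤ f0 := by
    by_contra h
    have : f0 = 0 := by omega
    rw [this] at hf1
    have : 1 ≤ n ^ 4 := Nat.one_le_pow _ _ hn1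
    omega
  have hf3 : n ^ 4 ≤ 32 * f0 ^ 5 := by
    calc n ^ 4 ≤ (f0 + 1) ^ 5 := hf1.le
      _ ≤ (2 * f0) ^ 5 := Nat.pow_le_pow_left (by omega) 5
      _ = 32 * f0 ^ 5 := by ring
  refine ⟨f0, hf0, ?_⟩
  intro f j hf hj
  obtain ⟨i, rfl⟩ : ∃ i, j = i + 1 := ⟨j - 1, by omega⟩
  -- lower bound for Ma
  have hMa : f0 ^ i ≤ Ma n f0 (i + 1) := by
    unfold Ma
    have h1 : (fun p => ∑ r ∈ range (i + 1 + 1), if p + 2 * r ≤ i + 1 then f0 ^ (p - 1) * n ^ r else 0) (i + 1)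
        ≤ ∑ p ∈ range (i + 1 + 1), ∑ r ∈ range (i + 1 + 1),
          if p + 2 * r ≤ i + 1 then f0 ^ (p - 1) * n ^ r else 0 :=
      Finset.single_le_sum (f := fun p => ∑ r ∈ range (i + 1 + 1),
        if p + 2 * r ≤ i + 1 then f0 ^ (p - 1) * n ^ r else 0) (fun _ _ => Nat.zero_le _)
        (Finset.mem_range.2 (by omega))
    refine le_trans ?_ h1
    have h2 : (fun r => if (i + 1) + 2 * r ≤ i + 1 then f0 ^ ((i + 1) - 1) * n ^ r else 0) 0 ≤
        ∑ r ∈ range (i + 1 + 1), if (i + 1) + 2 * r ≤ i + 1 then f0 ^ ((i + 1) - 1) * n ^ r else 0 :=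
      Finset.single_le_sum (f := fun r => if (i + 1) + 2 * r ≤ i + 1 then
        f0 ^ ((i + 1) - 1) * n ^ r else 0) (fun _ _ => Nat.zero_le _)
        (Finset.mem_range.2 (by omega))
    refine le_trans ?_ h2
    simp
  -- numerical inequality
  have hnum : 32 ^ i * (n ^ (5 * t + 3 * (i + 1)) * (i + 1 + 1) ^ 10) ≤ n ^ (4 * (i + 1) + 1) := by
    have h1 : 32 ^ i * (i + 1 + 1) ^ 10 ≤ n ^ (i + 1 + 1 - 5 * t) := by
      calc 32 ^ i * (i + 1 + 1) ^ 10 ≤ 2 ^ (5 * i) * (2 ^ (i + 1 + 1)) ^ 10 := by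
            rw [show (32 : ℕ) = 2 ^ 5 by norm_num, ← pow_mul]
            exact Nat.mul_le_mul_left _ (Nat.pow_le_pow_left (Nat.lt_two_pow_self).le 10)
        _ = 2 ^ (5 * i + 10 * (i + 1 + 1)) := by rw [← pow_mul, ← pow_add]; congr 1; ring
        _ ≤ 2 ^ (15 * (5 * t + 2) * (i + 1 + 1 - 5 * t)) := by
            apply Nat.pow_le_pow_right (by norm_num)
            obtain ⟨x, hx⟩ : ∃ x, i + 1 + 1 = 5 * t + 2 + x := ⟨i + 1 + 1 - (5 * t + 2), by omega⟩
            have : i + 1 + 1 - 5 * t = x + 2 := by omega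
            rw [this]
            have h5 : i = 5 * t + x := by omega
            rw [h5]
            nlinarith
        _ = (2 ^ (15 * (5 * t + 2))) ^ (i + 1 + 1 - 5 * t) := by rw [← pow_mul]
        _ ≤ n ^ (i + 1 + 1 - 5 * t) := Nat.pow_le_pow_left hn _
    calc 32 ^ i * (n ^ (5 * t + 3 * (i + 1)) * (i + 1 + 1) ^ 10)
        = (32 ^ i * (i + 1 + 1) ^ 10) * n ^ (5 * t + 3 * (i + 1)) := by ring
      _ ≤ n ^ (i + 1 + 1 - 5 * t) * n ^ (5 * t + 3 * (i + 1)) := Nat.mul_le_mul_right _ h1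
      _ = n ^ (4 * (i + 1) + 1) := by rw [← pow_add]; congr 1; omega
  -- each term
  have hterm : ∀ p r, p + 2 * r ≤ i + 1 →
      n ^ t * (f.choose p * (n / 2).choose r) * (i + 1 + 1) ^ 2 ≤ n * f0 ^ i := by
    intro p r hpr
    rw [← Nat.pow_le_pow_iff_left (n := 5) (by norm_num)]
    have h1 : (f.choose p * (n / 2).choose r) ^ 5 ≤ n ^ (3 * (i + 1)) := by
      calc (f.choose p * (n / 2).choose r) ^ 5 ≤ (f ^ p * n ^ r) ^ 5 := by
            apply Nat.pow_le_pow_left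
            exact Nat.mul_le_mul (Nat.choose_le_pow _ _)
              ((Nat.choose_le_pow _ _).trans (Nat.pow_le_pow_left (Nat.div_le_self _ _) _))
        _ = (f ^ 5) ^ p * n ^ (5 * r) := by
            rw [mul_pow, ← pow_mul, ← pow_mul, ← pow_mul, mul_comm p 5, mul_comm r 5]
        _ ≤ (n ^ 3) ^ p * n ^ (5 * r) := Nat.mul_le_mul_right _ (Nat.pow_le_pow_left hf _)
        _ = n ^ (3 * p + 5 * r) := by rw [← pow_mul, ← pow_add]
        _ ≤ n ^ (3 * (i + 1)) := Nat.pow_le_pow_right hn1 (by omega)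
    have h2 : 32 ^ i * (n ^ t * (f.choose p * (n / 2).choose r) * (i + 1 + 1) ^ 2) ^ 5 ≤
        32 ^ i * (n * f0 ^ i) ^ 5 := by
      calc 32 ^ i * (n ^ t * (f.choose p * (n / 2).choose r) * (i + 1 + 1) ^ 2) ^ 5
          = 32 ^ i * (n ^ (5 * t) * (f.choose p * (n / 2).choose r) ^ 5 * (i + 1 + 1) ^ 10) := by
            rw [mul_pow, mul_pow (n ^ t), ← pow_mul n t 5, mul_comm t 5,
              ← pow_mul (i + 1 + 1) 2 5]
        _ ≤ 32 ^ i * (n ^ (5 * t) * n ^ (3 * (i + 1)) * (i + 1 + 1) ^ 10) := by gcongr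
        _ = 32 ^ i * (n ^ (5 * t + 3 * (i + 1)) * (i + 1 + 1) ^ 10) := by rw [← pow_add]
        _ ≤ n ^ (4 * (i + 1) + 1) := hnum
        _ = n ^ 5 * (n ^ 4) ^ i := by rw [← pow_mul, ← pow_add]; congr 1; ring
        _ ≤ n ^ 5 * (32 * f0 ^ 5) ^ i := Nat.mul_le_mul_left _ (Nat.pow_le_pow_left hf3 _)
        _ = 32 ^ i * (n * f0 ^ i) ^ 5 := by
            rw [mul_pow, mul_pow n, ← pow_mul, ← pow_mul, mul_comm i 5]
            ring
    exact Nat.le_of_mul_le_mul_left h2 (by positivity)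
  -- sum
  have hsum : (i + 1 + 1) ^ 2 * (n ^ t * Mb n f (i + 1)) ≤ (i + 1 + 1) ^ 2 * (n * f0 ^ i) := by
    calc (i + 1 + 1) ^ 2 * (n ^ t * Mb n f (i + 1))
        = ∑ p ∈ range (i + 1 + 1), ∑ r ∈ range (i + 1 + 1),
          (i + 1 + 1) ^ 2 * (n ^ t * (if p + 2 * r ≤ i + 1 then
            f.choose p * (n / 2).choose r else 0)) := by
          unfold Mb
          simp only [Finset.mul_sum]
      _ ≤ ∑ p ∈ range (i + 1 + 1), ∑ r ∈ range (i + 1 + 1), n * f0 ^ i := by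
          apply Finset.sum_le_sum
          intro p _
          apply Finset.sum_le_sum
          intro r _
          split_ifs with h
          · have := hterm p r h
            calc (i + 1 + 1) ^ 2 * (n ^ t * (f.choose p * (n / 2).choose r))
                = n ^ t * (f.choose p * (n / 2).choose r) * (i + 1 + 1) ^ 2 := by ring
              _ ≤ _ := this
          · simp
      _ = (i + 1 + 1) ^ 2 * (n * f0 ^ i) := by
          simp only [Finset.sum_const, Finset.card_range, smul_eq_mul]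
          ring
  exact (Nat.le_of_mul_le_mul_left hsum (by positivity)).trans (Nat.mul_le_mul_left _ hMa)

end Pool.Agent.Helper91.FS
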