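import Pool.Agent.Helper91.FS.Goals

/-! Project FS: SBK -/

set_option autoImplicit false

namespace Pool.Agent.Helper91.FS

open Finset
open Pool.Agent.Helper49.NF
open Pool.Agent.Helper47.SR (Grp mv lev wt Ew W IsInv up dn StarAt HalfStarAt Goal_KKA Goal_KKB)

namespace SBK

theorem au_lower {n j k E : ℕ} {G : Grp n} (h : AU G j k E) {F : Finset (Finset (Fin n))}
    (hF : F ⊆ lev n j) : k * #F ≤ W G F := by
  unfold W
  rw [mul_comm, ← smul_eq_mul]
  exact Finset.card_nsmul_le_sum _ _ _ fun A hA => h.lb A (hF hA)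

theorem au_upper {n j k E : ℕ} {G : Grp n} (h : AU G j k E) {F : Finset (Finset (Fin n))}
    (hF : F ⊆ lev n j) : W G F ≤ k * #F + E := by
  have h1 := au_lower h (F := lev n j \ F) Finset.sdiff_subset
  have h2 : W G (lev n j) = W G (lev n j \ F) + W G F := by
    unfold W
    rw [Finset.sum_sdiff hF]
  have h3 : #(lev n j \ F) + #F = n.choose j := by
    rw [Finset.card_sdiff_add_card_eq_card hF, Finset.card_powersetCard, Finset.card_univ,
      Fintype.card_fin]
  have h4 := h.ex
  have h5 : k * n.choose j = k * #(lev n j \ F) + k * #F := by rw [← h3]; ring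
  omega

theorem goal_SBK (hKKA : Goal_KKA) (hKKB : Goal_KKB) : Goal_SBK := by
  intro n m z k k' E E' G S Y hm hn hmz hzn hF hc hA hA' hkk hT
  obtain ⟨i, hi⟩ : ∃ i, z = m + i := ⟨z - m, by omega⟩
  obtain ⟨l, hl⟩ : ∃ l, n = z + l := ⟨n - z, by omega⟩
  have k1 := hKKA n m z hm hmz Y hF.Y1 hc
  have hcardS : #S ≤ n.choose (n - m) := by
    have := Finset.card_le_card hF.S1
    rw [Finset.card_powersetCard, Finset.card_univ, Fintype.card_fin] at this
    rwa [Nat.choose_symm (by omega)]
  have k2 := hKKB n m n (by omega) (by omega) S hF.S1 hcardS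
  have e1 : z - m = i := by omega
  have e3 : n - (n - m) + 1 = m + 1 := by omega
  have e4 : n - z = l := by omega
  obtain ⟨q, hq⟩ : ∃ q, n - m = q := ⟨_, rfl⟩
  rw [e1] at k1
  rw [e3, hq] at k2
  rw [hq, e4] at hT
  rw [hq] at hkk
  have hq1 : q = i + l := by omega
  have hD1 : dn m Y ⊆ lev n (m + 1) := Finset.filter_subset _ _
  have hU1 : up m S ⊆ lev n (m + 1) := Finset.filter_subset _ _
  have bD := au_upper hA' hD1
  have bU := au_lower hA' hU1
  have bY := au_lower hA hF.Y1
  have bS := au_upper hA hF.S1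
  unfold Sat
  obtain ⟨e, he⟩ : ∃ e, W G S = W G Y + e := ⟨W G S - W G Y, by have := hF.lt; omega⟩
  have hk1 := hA.k1
  have hk1' := hA'.k1
  generalize W G (dn m Y) = wD at *
  generalize W G (up m S) = wU at *
  generalize W G Y = wY at *
  generalize W G S = wS at *
  generalize #(dn m Y) = cD at *
  generalize #(up m S) = cU at *
  generalize #Y = cY at *
  generalize #S = cS at *
  have a1 : k * (m + 1) * wD ≤ k' * i * wY + k * (m + 1) * E' := by
    calc k * (m + 1) * wD ≤ k * (m + 1) * (k' * cD + E') := Nat.mul_le_mul_left _ bD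
      _ = k' * k * ((m + 1) * cD) + k * (m + 1) * E' := by ring
      _ ≤ k' * k * (i * cY) + k * (m + 1) * E' := by gcongr
      _ = k' * i * (k * cY) + k * (m + 1) * E' := by ring
      _ ≤ k' * i * wY + k * (m + 1) * E' := by gcongr
  have a2 : k' * q * wS ≤ k * (m + 1) * wU + k' * q * E := by
    calc k' * q * wS ≤ k' * q * (k * cS + E) := Nat.mul_le_mul_left _ bS
      _ = k * k' * (q * cS) + k' * q * E := by ring
      _ ≤ k * k' * ((m + 1) * cU) + k' * q * E := by gcongr
      _ = k * (m + 1) * (k' * cU) + k' * q * E := by ring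
      _ ≤ k * (m + 1) * wU + k' * q * E := by gcongr
  have a3 : k * (m + 1) * e ≤ k' * q * e := Nat.mul_le_mul_right _ hkk
  have a4 : k' * q * wS = k' * i * wY + k' * l * wY + k' * q * e := by
    rw [he, hq1]
    ring
  have : k * (m + 1) * (wD + wS) ≤ k * (m + 1) * (wU + wY) := by
    have b1 : k * (m + 1) * (wD + wS) = k * (m + 1) * wD + k * (m + 1) * wY + k * (m + 1) * e := by
      rw [he]; ring
    have b2 : k * (m + 1) * (wU + wY) = k * (m + 1) * wU + k * (m + 1) * wY := by ring
    omega
  exact Nat.le_of_mul_le_mul_left this (by positivity)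

end SBK

end Pool.Agent.Helper91.FS
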