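import Pool.Agent.Helper91.FS.Goals
import Pool.Agent.Helper69.NF.ORBK

/-! Project FS: STBB and ORBT -/

set_option autoImplicit false

namespace Pool.Agent.Helper91.FS

open Finset
open Pool.Agent.Helper47.SR (Grp mv lev wt Ew W IsInv up dn StarAt HalfStarAt)
open Pool.Agent.Helper49.NF

namespace STBB

theorem mem_els {n : ℕ} (G : Grp n) (γ : Equiv.Perm (Fin n)) : γ ∈ els G ↔ γ ∈ G := by
  unfold els
  simp

/-- the fibres of the restriction to `T` -/
theorem fib {n : ℕ} (G : Grp n) (L : ℕ) (T : Finset (Fin n)) (hT : pst G T ≤ L)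
    (P : (∀ x : T, Fin n) → Prop) [DecidablePred P] (C : Finset (∀ x : T, Fin n))
    (hC : ∀ γ ∈ G, P (fun x : T => γ x) → (fun x : T => γ x) ∈ C) :
    #((els G).filter (fun γ => P (fun x : T => γ x))) ≤ L * #C := by
  classical

  refine Finset.card_le_mul_card_image_of_maps_to (f := fun γ : Equiv.Perm (Fin n) =>
    (fun x : T => γ x)) (t := C) ?_ L ?_
  · intro γ hγ
    rw [Finset.mem_filter, mem_els] at hγ
    exact hC γ hγ.1 hγ.2
  · intro c _
    by_cases hne : (((els G).filter (fun γ => P (fun x : T => γ x))).filter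
        (fun γ : Equiv.Perm (Fin n) => (fun x : T => γ x) = c)).Nonempty
    · obtain ⟨γ0, h0⟩ := hne
      rw [Finset.mem_filter, Finset.mem_filter, mem_els] at h0
      refine le_trans ?_ hT
      unfold pst
      apply Finset.card_le_card_of_injOn (fun γ => γ0⁻¹ * γ)
      · intro γ hγ
        simp only [Finset.coe_filter, Set.mem_ofPred_eq, mem_els, Finset.mem_filter] at hγ ⊢
        refine ⟨G.mul_mem (G.inv_mem h0.1.1) hγ.1.1, ?_⟩
        intro x hx
        have h1 : γ x = c ⟨x, hx⟩ := congrFun hγ.2 ⟨x, hx⟩
        have h2 : γ0 x = c ⟨x, hx⟩ := congrFun h0.2 ⟨x, hx⟩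
        rw [Equiv.Perm.mul_apply, h1, ← h2]
        simp
      · intro a _ b _ hab
        exact mul_left_cancel hab
    · rw [Finset.not_nonempty_iff_eq_empty] at hne
      rw [hne]
      simp

theorem goal_STBB : Goal_STBB := by
  classical
  intro t n L f G hG
  have key : ∀ T B : Finset (Fin n), #T = t →
      #((els G).filter (fun γ => ∀ x ∈ T, γ x ∈ B)) ≤ L * #B ^ t := by
    intro T B hT
    have h1 := fib G L T (hG.st T hT) (fun c => ∀ x : T, c x ∈ B)
      (Fintype.piFinset (fun _ : T => B)) (by
        intro γ _ h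
        rw [Fintype.mem_piFinset]
        exact h)
    rw [Fintype.card_piFinset] at h1
    simp only [Finset.prod_const, Finset.card_univ, Fintype.card_coe, hT] at h1
    refine le_trans (le_of_eq ?_) h1
    congr 1
    ext γ
    simp only [Finset.mem_filter, Subtype.forall]
  refine ⟨key, ?_, ?_⟩
  · obtain ⟨T, -, hT⟩ := Finset.exists_subset_card_eq (s := (univ : Finset (Fin n))) (n := t)
      (by rw [Finset.card_univ, Fintype.card_fin]; exact hG.tn)
    have h1 := key T univ hT
    rw [Finset.card_univ, Fintype.card_fin] at h1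
    refine le_trans (le_of_eq ?_) h1
    congr 1
    ext γ
    simp
  · intro A hA
    obtain ⟨T, hTA, hT⟩ := Finset.exists_subset_card_eq hA
    refine le_trans ?_ (key T A hT)
    have h1 : insert (1 : Equiv.Perm (Fin n))
        ((univ : Finset (Equiv.Perm (Fin n))).filter (fun γ => γ ∈ G ∧ γ ≠ 1 ∧ mv γ A = A)) ⊆
        (els G).filter (fun γ => ∀ x ∈ T, γ x ∈ A) := by
      intro γ hγ
      rw [Finset.mem_insert] at hγ
      rw [Finset.mem_filter, mem_els]
      rcases hγ with rfl | hγ
      · exact ⟨one_mem G, fun x hx => hTA hx⟩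
      · rw [Finset.mem_filter] at hγ
        refine ⟨hγ.2.1, fun x hx => ?_⟩
        rw [← hγ.2.2.2]
        simp [hTA hx]
    have h2 := Finset.card_le_card h1
    rw [Finset.card_insert_of_notMem (by
      rw [Finset.mem_filter]
      rintro ⟨_, _, h3, _⟩
      exact h3 rfl)] at h2
    have e : wt G A = #((univ : Finset (Equiv.Perm (Fin n))).filter
        (fun γ => γ ∈ G ∧ γ ≠ 1 ∧ mv γ A = A)) := by
      unfold wt
      rfl
    rw [e]
    omega

open Pool.Agent.Helper69.NF (orb mem_orb self_mem_orb orb_eq card_els rep rep_mem rep_eq small_sets)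

/-- the points of `T` have orbits with at most `c` points: `|H| ≤ L c ^ t` -/
theorem small_orbits {n : ℕ} (H : Grp n) (L t c : ℕ) (T : Finset (Fin n)) (hT : #T = t)
    (hL : pst H T ≤ L) (hc : ∀ x ∈ T, #(orb H x) ≤ c) : Nat.card H ≤ L * c ^ t := by
  classical
  have h1 := fib H L T hL (fun _ => True) (Fintype.piFinset (fun x : T => orb H x)) (by
    intro γ hγ _
    rw [Fintype.mem_piFinset]
    intro x
    exact (mem_orb H x _).2 ⟨γ, hγ, rfl⟩)
  rw [Fintype.card_piFinset] at h1
  have h2 : ∏ x : T, #(orb H x) ≤ c ^ t := by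
    calc ∏ x : T, #(orb H x) ≤ ∏ _x : T, c := Finset.prod_le_prod' fun x _ => hc x x.2
      _ = c ^ t := by rw [Finset.prod_const, Finset.card_univ, Fintype.card_coe, hT]
  rw [← card_els]
  calc #(els H) = #((els H).filter (fun _ => True)) := by simp
    _ ≤ L * ∏ x : T, #(orb H x) := h1
    _ ≤ L * c ^ t := Nat.mul_le_mul_left _ h2

theorem goal_ORBT : Goal_ORBT := by
  classical
  intro t n L s b j H ht hst hL1 hb hbs hs
  refine le_trans ?_ (small_sets (n := n) (t - 1 + j / b))
  unfold inv
  apply Finset.card_le_card_of_injOn (fun A => A.image (rep H))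
  · intro A hA
    simp only [Finset.coe_filter, Set.mem_ofPred_eq, mem_powersetCard, mem_univ, true_and] at hA ⊢
    obtain ⟨⟨_, hcard⟩, hinv⟩ := hA
    have hsub : ∀ x ∈ A, orb H x ⊆ A := by
      intro x hx y hy
      obtain ⟨g, hg, rfl⟩ := (mem_orb H x y).1 hy
      have := hinv g hg
      rw [← this]
      simp [hx]
    -- representatives of small orbits
    have hsm : #((A.image (rep H)).filter (fun z => #(orb H z) < b)) ≤ t - 1 := by
      by_contra hcon
      have h1 : t ≤ #((A.image (rep H)).filter (fun z => #(orb H z) < b)) := by omega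
      obtain ⟨T, hT1, hT2⟩ := Finset.exists_subset_card_eq h1
      have h2 : Nat.card H ≤ L * (b - 1) ^ t := by
        refine small_orbits H L t (b - 1) T hT2 (hst T hT2) ?_
        intro x hx
        have := (Finset.mem_filter.1 (hT1 hx)).2
        omega
      have h3 : (b - 1) ^ t < b ^ t := Nat.pow_lt_pow_left (by omega) (by omega)
      have h4 : L * (b - 1) ^ t < L * b ^ t := Nat.mul_lt_mul_of_pos_left h3 (by omega)
      omega
    -- representatives of the other orbits
    have hlg : #((A.image (rep H)).filter (fun z => ¬ #(orb H z) < b)) ≤ j / b := by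
      rw [Nat.le_div_iff_mul_le (by omega)]
      have h1 : ∑ z ∈ (A.image (rep H)).filter (fun z => ¬ #(orb H z) < b), b ≤
          ∑ z ∈ (A.image (rep H)).filter (fun z => ¬ #(orb H z) < b),
            #(A.filter (fun x => rep H x = z)) := by
        apply Finset.sum_le_sum
        intro z hz
        rw [Finset.mem_filter, Finset.mem_image] at hz
        obtain ⟨⟨x, hx, rfl⟩, h2⟩ := hz
        have h3 : orb H (rep H x) = orb H x := orb_eq H x _ (rep_mem H x)
        rw [h3, not_lt] at h2
        refine h2.trans (Finset.card_le_card ?_)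
        intro y hy
        rw [Finset.mem_filter]
        exact ⟨hsub x hx hy, rep_eq H y x (orb_eq H x y hy)⟩
      rw [Finset.sum_const, smul_eq_mul] at h1
      refine h1.trans ?_
      rw [← hcard]
      have h2 : #A = ∑ z ∈ A.image (rep H), #(A.filter (fun x => rep H x = z)) := by
        apply Finset.card_eq_sum_card_fiberwise
        intro x hx
        exact Finset.mem_coe.2 (Finset.mem_image_of_mem _ hx)
      rw [h2]
      exact Finset.sum_le_sum_of_subset (Finset.filter_subset _ _)
    have h5 := Finset.card_filter_add_card_filter_not (s := A.image (rep H))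
      (fun z => #(orb H z) < b)
    omega
  · intro A hA B hB hAB
    simp only [Finset.coe_filter, Set.mem_ofPred_eq, mem_powersetCard] at hA hB
    have key : ∀ C D : Finset (Fin n), (∀ γ ∈ H, mv γ D = D) →
        C.image (rep H) = D.image (rep H) → C ⊆ D := by
      intro C D hD hCD x hx
      have h1 : rep H x ∈ D.image (rep H) := by
        rw [← hCD]
        exact mem_image_of_mem _ hx
      rw [mem_image] at h1
      obtain ⟨y, hy, hyx⟩ := h1
      have h2 : orb H (rep H x) = orb H x := orb_eq H x _ (rep_mem H x)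
      have h3 : orb H (rep H y) = orb H y := orb_eq H y _ (rep_mem H y)
      have h4 : x ∈ orb H y := by
        rw [← h3, hyx, h2]
        exact self_mem_orb H x
      obtain ⟨g, hg, rfl⟩ := (mem_orb H y x).1 h4
      have := hD g hg
      rw [← this]
      simp [hy]
    exact Finset.Subset.antisymm (key A B hB.2 hAB) (key B A hA.2 hAB.symm)

end STBB

end Pool.Agent.Helper91.FS
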