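import Pool.Agent.Helper91.FS.EJT
import Pool.Agent.Helper91.FS.NUM
import Pool.Agent.Helper91.FS.STBB
import Pool.Agent.Helper91.FS.SBK

/-!
# Project FS: assembly
-/

set_option autoImplicit false

namespace Pool.Agent.Helper91.FS

open Finset
open Pool.Agent.Helper47.SR (Grp mv lev wt Ew W IsInv up dn StarAt HalfStarAt QL QR QuotientHasSCD)
open Pool.Agent.Helper49.NF

/-- all levels above `5 t` -/
def Goal_START : Prop :=
  ∀ t : ℕ, 1 ≤ t → ∃ n₀ : ℕ, ∀ n ≥ n₀, ∀ (L f : ℕ) (G : Grp n), Eg t n L f G → L ^ (1000 * t) ≤ n →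
    f ^ 5 ≤ n ^ 3 → ∀ m, 5 * t < m → 2 * (m + 1) ≤ n → StarAt G m

theorem goal_START (h1 : Goal_R1AT) (h2 : Goal_R1BT) (h3 : Goal_R2T) (h4 : Goal_R3T) :
    Goal_START := by
  intro t ht
  obtain ⟨a1, h1⟩ := h1 t ht
  obtain ⟨a2, h2⟩ := h2 t ht
  obtain ⟨a3, h3⟩ := h3 t ht
  obtain ⟨a4, h4⟩ := h4 t ht
  refine ⟨a1 + a2 + a3 + a4, fun n hn L f G hG hL hf m hm hmn => ?_⟩
  rcases Nat.lt_or_ge n (m ^ (400 * t)) with hA | hA
  · rcases Nat.lt_or_ge (n ^ 9) (m ^ 10) with hB | hB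
    · rcases Nat.lt_or_ge (47 * n) (100 * m) with hC | hC
      · exact h4 n (by omega) L f G hG hL hf m (by omega) hC hmn
      · exact h3 n (by omega) L f G hG hL hf m (by omega) hB hC
    · exact h2 n (by omega) L f G hG hL hf m (by omega) hA hB
  · exact h1 n (by omega) L f G hG hL hf m hm hA

/-- the criterion: all the levels `m ≤ 5 t` -/
theorem scd_of (hS : Goal_START)
    (hBASE : Pool.Agent.Helper47.SR.Goal_BASE) (hCONV : Pool.Agent.Helper47.SR.Goal_CONV)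
    (hQSYM : Pool.Agent.Helper47.SR.Goal_QSYM) (hQST : Pool.Agent.Helper47.SR.Goal_QST)
    (hQMID : Pool.Agent.Helper47.SR.Goal_QMID) :
    ∀ t : ℕ, 1 ≤ t → ∃ n₀ : ℕ, ∀ n ≥ n₀, ∀ (L f : ℕ) (G : Grp n), Eg t n L f G →
      L ^ (1000 * t) ≤ n → f ^ 5 ≤ n ^ 3 → (∀ m, m ≤ 5 * t → StarAt G m) → QuotientHasSCD n G := by
  intro t ht
  obtain ⟨n₀, h⟩ := hS t ht
  refine ⟨n₀, fun n hn L f G hG hL hf hlow => ?_⟩
  refine hCONV n G ?_
  refine hBASE n (QL G) QR (hQSYM n G).1 (hQSYM n G).2 ?_ ?_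
  · intro m hm S hS T hT hlt _ _
    refine hQST n G m hm ?_ S hS T hT hlt
    rcases Nat.lt_or_ge (5 * t) m with hc | hc
    · exact h n hn L f G hG hL hf m hc hm
    · exact hlow m hc
  · intro m hm S hS _
    exact hQMID n G m hm S hS

/-- `AU` from the excess of the level (`k = 1`) -/
theorem au_one {n : ℕ} (G : Grp n) (j : ℕ) : AU G j 1 (Ew G (lev n j)) where
  k1 := le_rfl
  lb := fun _ _ => Nat.le_add_right _ _
  ex := by rw [W_eq, card_lev, one_mul]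

/-- a level with few invariant sets -/
def Small (n : ℕ) (G : Grp n) (j : ℕ) : Prop := Ew G (lev n j) ^ 10 ≤ n ^ (10 * j - 1)

/-- almost uniform level -/
def AUn (n : ℕ) (G : Grp n) (j : ℕ) : Prop := ∃ k E : ℕ, AU G j k E ∧ E ^ 10 ≤ n ^ (10 * j - 1)

theorem Small.au {n : ℕ} {G : Grp n} {j : ℕ} (h : Small n G j) : AUn n G j := ⟨1, _, au_one G j, h⟩

/-- levels `t ≤ m ≤ 5 t` -/
theorem low_of (hSTBB : Goal_STBB) (hLEVF : Goal_LEVF) :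
    ∀ t : ℕ, 1 ≤ t → ∀ m : ℕ, t ≤ m → m ≤ 5 * t → ∃ n₀ : ℕ, ∀ n ≥ n₀, ∀ (L f : ℕ) (G : Grp n),
      Eg t n L f G → L ^ (1000 * t) ≤ n → AUn n G m → AUn n G (m + 1) → StarAt G m := by
  intro t ht m htm hm5
  obtain ⟨n₀, h⟩ := hLEVF m (by omega)
  -- n large compared with (m+1)^t
  refine ⟨n₀ + ((m + 1) ^ t) ^ (1000 * m), fun n hn L f G hG hL h1 h2 => ?_⟩
  obtain ⟨k, E, a1, e1⟩ := h1
  obtain ⟨k', E', a2, e2⟩ := h2
  have hw : ∀ j, t ≤ j → j ≤ m + 1 → ∀ A ∈ lev n j, 1 + wt G A ≤ L * (m + 1) ^ t := by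
    intro j hj hjm A hA
    have h4 : #A = j := (Finset.mem_powersetCard.mp hA).2
    have h5 := (hSTBB t n L f G hG).2.2 A (by omega)
    rw [h4] at h5
    exact h5.trans (Nat.mul_le_mul_left _ (Nat.pow_le_pow_left hjm _))
  have hL1 := hG.L1
  refine h n (by omega) (L * (m + 1) ^ t) k k' E E' G ?_ ?_ (hw m htm (by omega))
    (hw (m + 1) (by omega) le_rfl) a1 a2 e1 ?_
  · exact Nat.one_le_iff_ne_zero.2 (by positivity)
  · -- (L (m+1)^t)^(100 m) ≤ n, from the squares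
    have e3 : (L ^ (100 * m)) ^ 2 ≤ n := by
      rw [← pow_mul]
      exact (Nat.pow_le_pow_right hL1 (by nlinarith)).trans hL
    have e4 : (((m + 1) ^ t) ^ (100 * m)) ^ 2 ≤ n := by
      rw [← pow_mul]
      refine (Nat.pow_le_pow_right (Nat.one_le_pow _ _ (by omega)) (?_ : 100 * m * 2 ≤ 1000 * m)).trans
        (by omega)
      omega
    rw [← Nat.pow_le_pow_iff_left (n := 2) (by norm_num), mul_pow, mul_pow]
    calc (L ^ (100 * m)) ^ 2 * (((m + 1) ^ t) ^ (100 * m)) ^ 2 ≤ n * n := Nat.mul_le_mul e3 e4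
      _ = n ^ 2 := by ring
  · have : 10 * (m + 1) - 1 = 10 * m + 9 := by omega
    rw [this] at e2
    exact e2

/-- THEOREM A -/
theorem thA (hSTBB : Goal_STBB) (hLEVF : Goal_LEVF) (hHOM : Goal_HOM)
    (hscd : ∀ t : ℕ, 1 ≤ t → ∃ n₀ : ℕ, ∀ n ≥ n₀, ∀ (L f : ℕ) (G : Grp n), Eg t n L f G →
      L ^ (1000 * t) ≤ n → f ^ 5 ≤ n ^ 3 → (∀ m, m ≤ 5 * t → StarAt G m) → QuotientHasSCD n G) :
    ∀ t : ℕ, 1 ≤ t → ∃ n₀ : ℕ, ∀ n ≥ n₀, ∀ (L f : ℕ) (G : Grp n), Eg t n L f G →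
      L ^ (1000 * t) ≤ n → f ^ 5 ≤ n ^ 3 → Hom G (t - 1) →
      (∀ m, t ≤ m → m ≤ 5 * t → Hom G m ∨ (AUn n G m ∧ AUn n G (m + 1))) → QuotientHasSCD n G := by
  intro t ht
  obtain ⟨n1, h1⟩ := hscd t ht
  have h2 : ∀ m : ℕ, ∃ n₀ : ℕ, t ≤ m → m ≤ 5 * t → ∀ n ≥ n₀, ∀ (L f : ℕ) (G : Grp n),
      Eg t n L f G → L ^ (1000 * t) ≤ n → AUn n G m → AUn n G (m + 1) → StarAt G m := by
    intro m
    by_cases hm : t ≤ m ∧ m ≤ 5 * t
    · obtain ⟨n₀, h⟩ := low_of hSTBB hLEVF t ht m hm.1 hm.2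
      exact ⟨n₀, fun _ _ => h⟩
    · exact ⟨0, fun a b => absurd ⟨a, b⟩ hm⟩
  choose g hg using h2
  refine ⟨n1 + (∑ m ∈ range (5 * t + 1), g m) + 10 * t + 1, fun n hn L f G hG hL hf hH hlow => ?_⟩
  refine h1 n (by omega) L f G hG hL hf ?_
  intro m hm
  rcases Nat.lt_or_ge m t with hc | hc
  · exact (hHOM n m G ((hHOM n (t - 1) G hH).2 (by omega) m (by omega))).1 (by omega)
  · rcases hlow m hc hm with h | ⟨ha, hb⟩
    · exact (hHOM n m G h).1 (by omega)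
    · have h3 : g m ≤ ∑ m ∈ range (5 * t + 1), g m :=
        Finset.single_le_sum (fun _ _ => Nat.zero_le _) (Finset.mem_range.2 (by omega))
      exact hg m hc hm n (by omega) L f G hG hL ha hb

/-- THEOREM B -/
theorem thB (hSTBB : Goal_STBB) (hLEVF : Goal_LEVF) (hHOM : Goal_HOM) (hM0 : Goal_M0)
    (hLOWT : Goal_LOWT) (hM2 : Goal_M2T) (hSYM : Pool.Agent.Helper47.SR.Goal_SYM)
    (hscd : ∀ t : ℕ, 1 ≤ t → ∃ n₀ : ℕ, ∀ n ≥ n₀, ∀ (L f : ℕ) (G : Grp n), Eg t n L f G →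
      L ^ (1000 * t) ≤ n → f ^ 5 ≤ n ^ 3 → (∀ m, m ≤ 5 * t → StarAt G m) → QuotientHasSCD n G) :
    ∃ n₀ : ℕ, ∀ n ≥ n₀, ∀ (L f : ℕ) (G : Grp n), Eg 2 n L f G →
      L ^ 2000 ≤ n → f ^ 5 ≤ n ^ 3 → Hom G 1 → cyc G 3 ^ 5 ≤ n ^ 14 →
      (Hom G 2 ∨ bad2 G ^ 10 ≤ n ^ 19) → QuotientHasSCD n G := by
  obtain ⟨n1, h1⟩ := hscd 2 (by norm_num)
  obtain ⟨n2, h2⟩ := hM2
  obtain ⟨n3, h3⟩ := hLOWT.2
  have h4 : ∀ m : ℕ, ∃ n₀ : ℕ, 2 ≤ m → m ≤ 10 → ∀ n ≥ n₀, ∀ (L f : ℕ) (G : Grp n),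
      Eg 2 n L f G → L ^ 2000 ≤ n → AUn n G m → AUn n G (m + 1) → StarAt G m := by
    intro m
    by_cases hm : 2 ≤ m ∧ m ≤ 10
    · obtain ⟨n₀, h⟩ := low_of hSTBB hLEVF 2 (by norm_num) m hm.1 hm.2
      exact ⟨n₀, fun _ _ => h⟩
    · exact ⟨0, fun a b => absurd ⟨a, b⟩ hm⟩
  choose g hg using h4
  have h5 : ∀ j : ℕ, ∃ n₀ : ℕ, 4 ≤ j → ∀ n ≥ n₀, ∀ (L f : ℕ) (G : Grp n), Eg 2 n L f G →
      L ^ 2000 ≤ n → f ^ 5 ≤ n ^ 3 → Small n G j := by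
    intro j
    by_cases hj : 4 ≤ j
    · obtain ⟨n₀, h⟩ := hLOWT.1 2 j (by norm_num) (by norm_num) hj
      exact ⟨n₀, fun _ => h⟩
    · exact ⟨0, fun a => absurd a hj⟩
  choose g' hg' using h5
  refine ⟨n1 + n2 + n3 + (∑ m ∈ range 11, g m) + (∑ m ∈ range 12, g' m) + 30,
    fun n hn L f G hG hL hf hH hcyc h2' => ?_⟩
  have hE3 : Ew G (lev n 3) ^ 10 ≤ n ^ 29 := h3 n (by omega) L f G hG hL hf hcyc
  refine h1 n (by omega) L f G hG hL hf ?_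
  intro m hm
  have hsm : ∀ j, 3 ≤ j → j ≤ 11 → Small n G j := by
    intro j hj hj2
    rcases Nat.lt_or_ge 3 j with hc | hc
    · have h3 : g' j ≤ ∑ m ∈ range 12, g' m :=
        Finset.single_le_sum (fun _ _ => Nat.zero_le _) (Finset.mem_range.2 (by omega))
      exact hg' j hc n (by omega) L f G hG hL hf
    · have : j = 3 := by omega
      subst this
      exact hE3
  rcases Nat.lt_or_ge m 3 with hm3 | hm3
  · interval_cases m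
    · exact hM0 n G (by omega)
    · exact (hHOM n 1 G hH).1 (by omega)
    · rcases h2' with h | h
      · exact (hHOM n 2 G h).1 (by omega)
      · exact hSYM n G 2 (h2 n (by omega) L f G hG hH hL h hE3)
  · have h3 : g m ≤ ∑ m ∈ range 11, g m :=
      Finset.single_le_sum (fun _ _ => Nat.zero_le _) (Finset.mem_range.2 (by omega))
    exact hg m (by omega) (by omega) n (by omega) L f G hG hL (hsm m hm3 (by omega)).au
      (hsm (m + 1) (by omega) (by omega)).au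

end Pool.Agent.Helper91.FS
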