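import Pool.Agent.Helper91.FS.Goals2
import Pool.Agent.Helper91.FS.Cor

/-!
# Project FS: assembly of part 2
-/

set_option autoImplicit false

namespace Pool.Agent.Helper91.FS

open Finset
open Pool.Agent.Helper47.SR (Grp mv lev wt Ew W IsInv up dn StarAt HalfStarAt QL QR QuotientHasSCD)
open Pool.Agent.Helper49.NF

/-- almost all `m`-sets have a stabiliser of order `k` or `2 k`, the sets with `2 k` form a design -/
def TWn (n : ℕ) (G : Grp n) (m : ℕ) : Prop :=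
  ∃ (l k E d : ℕ) (w : Finset (Fin n) → ℕ), m = l + 1 ∧ Des n l d w ∧ 1 ≤ k ∧
    (∀ A ∈ lev n m, k * (1 + w A) ≤ 1 + wt G A) ∧
    W G (lev n m) ≤ k * ∑ A ∈ lev n m, (1 + w A) + E ∧ E ^ 10 ≤ n ^ (10 * m - 1)

theorem AUn.tw {n : ℕ} {G : Grp n} {m : ℕ} (hm : 1 ≤ m) (h : AUn n G m) : TWn n G m := by
  obtain ⟨k, E, h1, h2⟩ := h
  obtain ⟨l, rfl⟩ : ∃ l, m = l + 1 := ⟨m - 1, by omega⟩
  refine ⟨l, k, E, 0, fun _ => 0, rfl, ⟨fun _ => Nat.zero_le _, fun T _ => by simp⟩, h1.k1,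
    fun A hA => by simpa using h1.lb A hA, ?_, h2⟩
  have h3 := h1.ex
  simp only [add_zero, Finset.sum_const, smul_eq_mul, mul_one, card_lev]
  exact h3

theorem Hom.two {n : ℕ} {G : Grp n} {m : ℕ} (h : Hom G m) : Two G m :=
  fun A hA B hB _ _ => Or.inl (h A hA B hB)

theorem Hom.mono {n : ℕ} {G H : Grp n} {m : ℕ} (h : Hom G m) (hGH : G ≤ H) : Hom H m :=
  fun A hA B hB => by
    obtain ⟨γ, hγ, h1⟩ := h A hA B hB
    exact ⟨γ, hGH hγ, h1⟩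

theorem md_of (hSTBB : Goal_STBB) (hMD : Goal_MD) :
    ∀ t : ℕ, 1 ≤ t → ∀ m : ℕ, t ≤ m → m ≤ 5 * t → ∃ n₀ : ℕ, ∀ n ≥ n₀, ∀ (L f : ℕ) (G : Grp n),
      Eg t n L f G → L ^ (1000 * t) ≤ n → TWn n G m → AUn n G (m + 1) → StarAt G m := by
  intro t ht m htm hm5
  obtain ⟨n₀, h⟩ := hMD (m - 1)
  refine ⟨n₀ + ((m + 1) ^ t) ^ (1000 * m), fun n hn L f G hG hL h1 h2 => ?_⟩
  obtain ⟨l, k, E, d, w, rfl, a1, a2, a3, a4, e1⟩ := h1
  obtain ⟨k', E', b2, e2⟩ := h2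
  rw [Nat.add_sub_cancel] at h
  have hw : ∀ j, t ≤ j → j ≤ l + 2 → ∀ A ∈ lev n j, 1 + wt G A ≤ L * (l + 2) ^ t := by
    intro j hj hjm A hA
    have h4 : #A = j := (Finset.mem_powersetCard.mp hA).2
    have h5 := (hSTBB t n L f G hG).2.2 A (by omega)
    rw [h4] at h5
    exact h5.trans (Nat.mul_le_mul_left _ (Nat.pow_le_pow_left hjm _))
  have hL1 := hG.L1
  refine h n (by omega) (L * (l + 2) ^ t) k k' E E' d w G ?_ ?_ (hw (l + 1) htm (by omega))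
    (hw (l + 2) (by omega) le_rfl) a1 a2 a3 a4 b2 e1 ?_
  · exact Nat.one_le_iff_ne_zero.2 (by positivity)
  · have e3 : (L ^ (100 * (l + 1))) ^ 2 ≤ n := by
      rw [← pow_mul]
      exact (Nat.pow_le_pow_right hL1 (by omega)).trans hL
    have e4 : (((l + 2) ^ t) ^ (100 * (l + 1))) ^ 2 ≤ n := by
      rw [← pow_mul]
      refine (Nat.pow_le_pow_right (Nat.one_le_pow _ _ (by omega))
        (?_ : 100 * (l + 1) * 2 ≤ 1000 * (l + 1))).trans ?_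
      · omega
      · exact le_trans (Nat.le_add_left _ _) hn
    rw [← Nat.pow_le_pow_iff_left (n := 2) (by norm_num), mul_pow, mul_pow]
    calc (L ^ (100 * (l + 1))) ^ 2 * (((l + 2) ^ t) ^ (100 * (l + 1))) ^ 2 ≤ n * n :=
          Nat.mul_le_mul e3 e4
      _ = n ^ 2 := by ring
  · have : 10 * (l + 1 + 1) - 1 = 10 * (l + 1) + 9 := by omega
    rw [this] at e2
    exact e2

/-- the statement of Theorem A, with two weights -/
def StA2 : Prop := ∀ t : ℕ, 1 ≤ t → ∃ n₀ : ℕ, ∀ n ≥ n₀, ∀ (L f : ℕ) (G : Grp n), Eg t n L f G →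
  L ^ (1000 * t) ≤ n → f ^ 5 ≤ n ^ 3 →
  (∀ m, m ≤ 5 * t → Two G m ∨ (t ≤ m ∧ TWn n G m ∧ AUn n G (m + 1))) → QuotientHasSCD n G

theorem thA2 (hSTBB : Goal_STBB) (hMD : Goal_MD) (hTWO : Goal_TWO)
    (hscd : ∀ t : ℕ, 1 ≤ t → ∃ n₀ : ℕ, ∀ n ≥ n₀, ∀ (L f : ℕ) (G : Grp n), Eg t n L f G →
      L ^ (1000 * t) ≤ n → f ^ 5 ≤ n ^ 3 → (∀ m, m ≤ 5 * t → StarAt G m) → QuotientHasSCD n G) :
    StA2 := by
  intro t ht
  obtain ⟨n1, h1⟩ := hscd t ht
  have h2 : ∀ m : ℕ, ∃ n₀ : ℕ, t ≤ m → m ≤ 5 * t → ∀ n ≥ n₀, ∀ (L f : ℕ) (G : Grp n),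
      Eg t n L f G → L ^ (1000 * t) ≤ n → TWn n G m → AUn n G (m + 1) → StarAt G m := by
    intro m
    by_cases hm : t ≤ m ∧ m ≤ 5 * t
    · obtain ⟨n₀, h⟩ := md_of hSTBB hMD t ht m hm.1 hm.2
      exact ⟨n₀, fun _ _ => h⟩
    · exact ⟨0, fun a b => absurd ⟨a, b⟩ hm⟩
  choose g hg using h2
  refine ⟨n1 + (∑ m ∈ range (5 * t + 1), g m) + 10 * t + 1, fun n hn L f G hG hL hf hlow => ?_⟩
  refine h1 n (by omega) L f G hG hL hf ?_
  intro m hm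
  rcases hlow m hm with h | ⟨hc, ha, hb⟩
  · exact hTWO n m G h (by omega)
  · have h3 : g m ≤ ∑ m ∈ range (5 * t + 1), g m :=
      Finset.single_le_sum (fun _ _ => Nat.zero_le _) (Finset.mem_range.2 (by omega))
    exact hg m hc hm n (by omega) L f G hG hL ha hb

/-- a fixed number of levels with few invariant sets -/
theorem small_levels (hLOWT : Goal_LOWT) (t : ℕ) (ht : 1 ≤ t) (ht3 : t ≤ 3) :
    ∃ n₀ : ℕ, ∀ n ≥ n₀, ∀ (L f : ℕ) (G : Grp n), Eg t n L f G → L ^ (1000 * t) ≤ n →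
      f ^ 5 ≤ n ^ 3 → ∀ j, t + 2 ≤ j → j ≤ 5 * t + 1 → Small n G j := by
  have h5 : ∀ j : ℕ, ∃ n₀ : ℕ, t + 2 ≤ j → ∀ n ≥ n₀, ∀ (L f : ℕ) (G : Grp n), Eg t n L f G →
      L ^ (1000 * t) ≤ n → f ^ 5 ≤ n ^ 3 → Small n G j := by
    intro j
    by_cases hj : t + 2 ≤ j
    · obtain ⟨n₀, h⟩ := hLOWT.1 t j ht ht3 hj
      exact ⟨n₀, fun _ => h⟩
    · exact ⟨0, fun a => absurd a hj⟩
  choose g hg using h5
  refine ⟨∑ m ∈ range (5 * t + 2), g m, fun n hn L f G hG hL hf j hj hj2 => ?_⟩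
  have h3 : g j ≤ ∑ m ∈ range (5 * t + 2), g m :=
    Finset.single_le_sum (fun _ _ => Nat.zero_le _) (Finset.mem_range.2 (by omega))
  exact hg j hj n (by omega) L f G hG hL hf

/-- overgroups of subgroups of index at most 2 of `PGL(2, q)` -/
theorem cor_ov (hA : StA2) (hLOWT : Goal_LOWT) (hPG6 : Goal_PG6) (hHOM : Goal_HOM) :
    ∃ n₀ : ℕ, ∀ n ≥ n₀, ∀ (L f : ℕ) (P0 P G N : Grp n), Ov n P0 P G N → Hom G 2 →
      Eg 3 n L f N → L ^ 3000 ≤ n → f ^ 5 ≤ n ^ 3 → QuotientHasSCD n G := by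
  obtain ⟨n1, h1⟩ := hA 3 (by norm_num)
  obtain ⟨n2, h2⟩ := small_levels hLOWT 3 (by norm_num) le_rfl
  refine ⟨n1 + n2 + 1000 ^ 10 + 10, fun n hn L f P0 P G N hov hH hE hL hf => ?_⟩
  obtain ⟨c1, w, d, c2, c3, c4⟩ := hPG6 n L f P0 P G N (by omega) hov hE
  have hEG : Eg 3 n L f G :=
    { t1 := hE.t1
      tn := hE.tn
      L1 := hE.L1
      st := fun T hT => by
        refine le_trans (Finset.card_le_card ?_) (hE.st T hT)
        intro γ hγ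
        rw [Finset.mem_filter, mem_els] at hγ ⊢
        exact ⟨hov.leN hγ.1, hγ.2⟩
      fix := fun γ hγ h1 => hE.fix γ (hov.leN hγ) h1 }
  have hsm := h2 n (by omega) L f G hEG hL hf
  have h12 := (hHOM n 2 G hH).2 (by omega)
  refine h1 n (by omega) L f G hEG hL hf ?_
  intro m hm
  rcases Nat.lt_or_ge m 3 with hc | hc
  · left
    exact (h12 m (by omega)).two
  · rcases Nat.lt_or_ge m 4 with hc4 | hc4
    · left
      have : m = 3 := by omega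
      subst this
      exact c1
    · right
      refine ⟨hc, ?_, (hsm (m + 1) (by omega) (by omega)).au⟩
      rcases Nat.lt_or_ge m 5 with hc5 | hc5
      · have : m = 4 := by omega
        subst this
        refine ⟨3, 2, 1000 * L ^ 2 * f * n ^ 3, d, w, rfl, c2, by norm_num, c3, c4, ?_⟩
        have hn1 : 1 ≤ n := by omega
        have e1 : (L ^ 2) ^ 10 ≤ n := by
          rw [← pow_mul]
          exact (Nat.pow_le_pow_right hE.L1 (by norm_num)).trans hL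
        have e2 : f ^ 10 ≤ n ^ 6 := by
          calc f ^ 10 = (f ^ 5) ^ 2 := by ring
            _ ≤ (n ^ 3) ^ 2 := Nat.pow_le_pow_left hf 2
            _ = n ^ 6 := by ring
        calc (1000 * L ^ 2 * f * n ^ 3) ^ 10 = 1000 ^ 10 * (L ^ 2) ^ 10 * f ^ 10 * n ^ 30 := by ring
          _ ≤ n * n * n ^ 6 * n ^ 30 := by
              apply Nat.mul_le_mul_right
              exact Nat.mul_le_mul (Nat.mul_le_mul (by omega) e1) e2
          _ = n ^ 38 := by ring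
          _ ≤ n ^ (10 * 4 - 1) := Nat.pow_le_pow_right hn1 (by norm_num)
      · exact (hsm m (by omega) (by omega)).au.tw (by omega)

end Pool.Agent.Helper91.FS
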