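import Pool.Agent.Helper91.FS.Main2

/-!
# Project FS: the final form of the general theorem and of the families
-/

set_option autoImplicit false

namespace Pool.Agent.Helper91.FS

open Finset
open Pool.Agent.Helper47.SR (Grp mv lev wt Ew W IsInv up dn StarAt HalfStarAt QL QR QuotientHasSCD)
open Pool.Agent.Helper49.NF
open Pool.Agent.Helper47.FS (Ew_lev_le lowA L10)

/-- the levels `j ≥ t + 2`, `j ≥ 2 t - 1` have few invariant sets (as `goal_LOWT`) -/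
theorem low_gen (hSTB : Goal_STBB) (hEJR : Goal_EJR) :
    ∀ t j : ℕ, 1 ≤ t → t + 2 ≤ j → 2 * t - 1 ≤ j → ∃ n₀ : ℕ, ∀ n ≥ n₀, ∀ (L f : ℕ) (G : Grp n),
      Eg t n L f G → L ^ (1000 * t) ≤ n → f ^ 5 ≤ n ^ 3 → Small n G j := by
  intro t j ht htj htj2
  obtain ⟨c, hc⟩ : ∃ c : ℕ, c = j ^ t * (j + 1) := ⟨_, rfl⟩
  refine ⟨(2 * c) ^ 10 + 1, fun n hn L f G hE hL hf => ?_⟩
  have hn1 : 1 ≤ n := by omega
  obtain ⟨-, b2, -⟩ := hSTB t n L f G hE
  obtain ⟨e1, e2⟩ := hEJR t n L f G hE j (by omega) (by omega)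
  refine le_trans (Nat.pow_le_pow_left ?_ 10) (lowA c L f n j (by omega) (by omega) hn1
    (L10 ht hE.L1 hL) hf)
  refine e1.trans ?_
  have hjt : 1 ≤ j ^ t := Nat.one_le_pow _ _ (by omega)
  have a1 : f * Ew G (lev n (j - 1)) ≤ f * (L * j ^ t * n ^ (j - 1)) := by
    apply Nat.mul_le_mul_left
    refine (Ew_lev_le hSTB hE (j - 1) (by omega)).trans ?_
    apply Nat.mul_le_mul_right
    apply Nat.mul_le_mul_left
    exact Nat.pow_le_pow_left (by omega) t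
  have a2 : n * ∑ k ∈ Ico t (j - 1), Ew G (lev n k) ≤ j * (L * j ^ t * n ^ (j - 1)) := by
    have h1 : ∑ k ∈ Ico t (j - 1), Ew G (lev n k) ≤ ∑ k ∈ Ico t (j - 1), L * j ^ t * n ^ (j - 2) := by
      refine sum_le_sum fun k hk => ?_
      rw [mem_Ico] at hk
      refine (Ew_lev_le hSTB hE k hk.1).trans ?_
      apply Nat.mul_le_mul
      · apply Nat.mul_le_mul_left
        exact Nat.pow_le_pow_left (by omega) t
      · exact Nat.pow_le_pow_right hn1 (by omega)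
    rw [sum_const, smul_eq_mul, Nat.card_Ico] at h1
    have h2 : (j - 1 - t) * (L * j ^ t * n ^ (j - 2)) ≤ j * (L * j ^ t * n ^ (j - 2)) :=
      Nat.mul_le_mul_right _ (by omega)
    have h3 : n * n ^ (j - 2) = n ^ (j - 1) := by
      rw [← pow_succ']
      congr 1
      omega
    calc n * ∑ k ∈ Ico t (j - 1), Ew G (lev n k) ≤ n * (j * (L * j ^ t * n ^ (j - 2))) :=
          Nat.mul_le_mul_left _ (h1.trans h2)
      _ = j * (L * j ^ t * (n * n ^ (j - 2))) := by ring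
      _ = j * (L * j ^ t * n ^ (j - 1)) := by rw [h3]
  have a3 : cyc G j ≤ L * j ^ t * n ^ (j - 1) := by
    refine e2.trans ((Nat.mul_le_mul_left _ b2).trans ?_)
    calc n * (L * n ^ t) = L * 1 * n ^ (t + 1) := by ring
      _ ≤ L * j ^ t * n ^ (j - 1) :=
        Nat.mul_le_mul (Nat.mul_le_mul_left _ hjt) (Nat.pow_le_pow_right hn1 (by omega))
  calc f * Ew G (lev n (j - 1)) + n * ∑ k ∈ Ico t (j - 1), Ew G (lev n k) + cyc G j ≤
        f * (L * j ^ t * n ^ (j - 1)) + j * (L * j ^ t * n ^ (j - 1)) + L * j ^ t * n ^ (j - 1) :=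
        Nat.add_le_add (Nat.add_le_add a1 a2) a3
    _ = L * j ^ t * n ^ (j - 1) * (f + (j + 1)) := by ring
    _ ≤ L * j ^ t * n ^ (j - 1) * ((f + 1) * (j + 1)) := by
        apply Nat.mul_le_mul_left
        nlinarith [Nat.zero_le (f * j)]
    _ = c * (L * ((f + 1) * n ^ (j - 1))) := by rw [hc]; ring

/-- the general theorem: only the levels `m ≤ t + 1` and `m ≤ 2 t - 2` need a hypothesis -/
def StA3 : Prop := ∀ t : ℕ, 1 ≤ t → ∃ n₀ : ℕ, ∀ n ≥ n₀, ∀ (L f : ℕ) (G : Grp n), Eg t n L f G →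
  L ^ (1000 * t) ≤ n → f ^ 5 ≤ n ^ 3 →
  (∀ m, m ≤ t + 1 ∨ m + 2 ≤ 2 * t →
    Two G m ∨ (t ≤ m ∧ TWn n G m ∧ (t + 1 ≤ m ∧ 2 * t - 2 ≤ m ∨ AUn n G (m + 1)))) →
  QuotientHasSCD n G

theorem thA3 (hSTB : Goal_STBB) (hEJR : Goal_EJR) (hA : StA2) : StA3 := by
  intro t ht
  obtain ⟨n1, h1⟩ := hA t ht
  have h5 : ∀ j : ℕ, ∃ n₀ : ℕ, t + 2 ≤ j → 2 * t - 1 ≤ j → ∀ n ≥ n₀, ∀ (L f : ℕ) (G : Grp n),
      Eg t n L f G → L ^ (1000 * t) ≤ n → f ^ 5 ≤ n ^ 3 → Small n G j := by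
    intro j
    by_cases hj : t + 2 ≤ j ∧ 2 * t - 1 ≤ j
    · obtain ⟨n₀, h⟩ := low_gen hSTB hEJR t j ht hj.1 hj.2
      exact ⟨n₀, fun _ _ => h⟩
    · exact ⟨0, fun a b => absurd ⟨a, b⟩ hj⟩
  choose g hg using h5
  refine ⟨n1 + ∑ m ∈ range (5 * t + 2), g m, fun n hn L f G hG hL hf hlow => ?_⟩
  have hsm : ∀ j, t + 2 ≤ j → 2 * t - 1 ≤ j → j ≤ 5 * t + 1 → Small n G j := by
    intro j h2 h3 h4
    have h3' : g j ≤ ∑ m ∈ range (5 * t + 2), g m :=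
      Finset.single_le_sum (fun _ _ => Nat.zero_le _) (Finset.mem_range.2 (by omega))
    exact hg j h2 h3 n (by omega) L f G hG hL hf
  refine h1 n (by omega) L f G hG hL hf ?_
  intro m hm
  by_cases hc : m ≤ t + 1 ∨ m + 2 ≤ 2 * t
  · rcases hlow m hc with h | ⟨h, h', h'' | h''⟩
    · exact Or.inl h
    · exact Or.inr ⟨h, h', (hsm (m + 1) (by omega) (by omega) (by omega)).au⟩
    · exact Or.inr ⟨h, h', h''⟩
  · rw [not_or] at hc
    exact Or.inr ⟨by omega, (hsm m (by omega) (by omega) (by omega)).au.tw (by omega),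
      (hsm (m + 1) (by omega) (by omega) (by omega)).au⟩

theorem stA3 : StA3 :=
  thA3 STBB.goal_STBB Pool.Agent.Helper64.FS.goal_EJR everything.a

/-- transitive subgroups of `AGL(1, K)` -/
theorem cor_le_aff : ∃ n₀ : ℕ, ∀ n ≥ n₀, ∀ (K : Type) [Field K] (e : K ≃ Fin n) (G : Grp n),
    G ≤ aff e ⊤ → (∀ x y : Fin n, ∃ γ ∈ G, γ x = y) → QuotientHasSCD n G := by
  obtain ⟨a1, hF⟩ := everything.frob
  refine ⟨a1 + 3 ^ 5, fun n hn K _ e G he htr => ?_⟩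
  obtain ⟨-, b2, b3⟩ := (Pool.Agent.Helper36.FS.goal_AFH n K e).1 ⊤
  refine hF n (by omega) G htr (fun γ hγ h1 => b2 γ (he hγ) h1) ?_
  have hn1 : 1 ≤ n := by omega
  have b4 : #((els G).filter (fun γ => orderOf γ = 3)) ≤ 3 * n := by
    refine (Finset.card_le_card ?_).trans b3
    intro γ hγ
    rw [Finset.mem_filter, mem_els] at hγ ⊢
    exact ⟨he hγ.1, hγ.2⟩
  calc _ ≤ (3 * n) ^ 5 := Nat.pow_le_pow_left b4 5
    _ = 3 ^ 5 * n ^ 5 := by ring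
    _ ≤ n * n ^ 5 := Nat.mul_le_mul_right _ (by omega)
    _ = n ^ 6 := by ring
    _ ≤ n ^ 9 := Nat.pow_le_pow_right hn1 (by norm_num)

end Pool.Agent.Helper91.FS
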