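import Pool.Agent.Helper91.FS.Cor3
import Pool.Agent.Helper49.NF.Main
import Pool.Agent.Helper98.FS.R1AT
import Pool.Agent.Helper9.FS.NST
import Pool.Agent.Helper7.FS.N0
import Pool.Agent.Helper81.FS.PG4
import Pool.Agent.Helper57.FS.R2T
import Pool.Agent.Helper50.FS.HOM
import Pool.Agent.Helper71.FS.R1K
import Pool.Agent.Helper47.FS.LOWT
import Pool.Agent.Helper47.FS.M2T
import Pool.Agent.Helper58.FS.R1BT
import Pool.Agent.Helper95.FS.R3T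
import Pool.Agent.Helper64.FS.EJR
import Pool.Agent.Helper15.FS.DEG2
import Pool.Agent.Helper90.FS.MDA
import Pool.Agent.Helper20.FS.MDS
import Pool.Agent.Helper13.FS.N0D
import Pool.Agent.Helper61.FS.MD
import Pool.Agent.Helper24.FS.TWO
import Pool.Agent.Helper52.FS.PG5
import Pool.Agent.Helper26.FS.PG6
import Pool.Agent.Helper78.FS.PGLX
import Pool.Agent.Helper83.FS.PSLX
import Pool.Agent.Helper87.FS.NORX
import Pool.Agent.Helper55.FS.PGAMX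
import Pool.Agent.Helper23.FS.AFG
import Pool.Agent.Helper36.FS.AFH
import Pool.Agent.Helper41.FS.BUR1
import Pool.Agent.Helper45.FS.BUR2
import Pool.Agent.Helper16.FS.SOLP
import Pool.Agent.Helper66.FS.ZCNT

/-!
# Project FS: all theorems
-/

set_option autoImplicit false

namespace Pool.Agent.Helper91.FS

open Finset
open Pool.Agent.Helper47.SR (Grp mv lev wt Ew W IsInv up dn StarAt HalfStarAt QL QR QuotientHasSCD)
open Pool.Agent.Helper49.NF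

/-- all the theorems -/
structure Everything : Prop where
  a : StA2
  b : StB
  b2 : StB2
  small : ∃ n₀ : ℕ, ∀ n ≥ n₀, ∀ G : Grp n,
    #(els G) ^ 1000 ≤ n → (∀ γ ∈ G, γ ≠ 1 → fx γ ^ 5 ≤ n ^ 3) → QuotientHasSCD n G
  frob : ∃ n₀ : ℕ, ∀ n ≥ n₀, ∀ G : Grp n,
    (∀ x y : Fin n, ∃ γ ∈ G, γ x = y) → (∀ γ ∈ G, γ ≠ 1 → fx γ ≤ 1) →
    (#((els G).filter (fun γ => orderOf γ = 3))) ^ 5 ≤ n ^ 9 → QuotientHasSCD n G
  fix2 : ∃ n₀ : ℕ, ∀ n ≥ n₀, ∀ G : Grp n, Hom G 2 → (∀ γ ∈ G, γ ≠ 1 → fx γ ≤ 2) →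
      #(els G) ^ 5 ≤ n ^ 14 →
      (#((els G).filter (fun γ => orderOf γ = 2)) +
        #((els G).filter (fun γ => orderOf γ = 3))) ^ 5 ≤ n ^ 9 → QuotientHasSCD n G
  prime : ∃ n₀ : ℕ, ∀ p ≥ n₀, p.Prime → ∀ G : Grp p, (∀ x y : Fin p, ∃ γ ∈ G, γ x = y) →
      (Group.IsSolvable G ∨ ∃ x y x' y' : Fin p, x ≠ y ∧ x' ≠ y' ∧ ∀ γ ∈ G, ¬ (γ x = x' ∧ γ y = y')) →
      QuotientHasSCD p G
  proj : ∃ n₀ : ℕ, ∀ n ≥ n₀, ∀ (K : Type) [Field K] [DecidableEq K] (e : OnePoint K ≃ Fin n)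
      (G : Grp n), psl e ≤ G → G ≤ pgam e → QuotientHasSCD n G
  agam : ∃ n₀ : ℕ, ∀ n ≥ n₀, ∀ (K : Type) [Field K] (e : K ≃ Fin n) (G : Grp n),
      aff e ⊤ ≤ G → G ≤ agam e → QuotientHasSCD n G
  aff : ∃ n₀ : ℕ, ∀ n ≥ n₀, ∀ (K : Type) [Field K] (e : K ≃ Fin n) (A : Subgroup Kˣ),
      QuotientHasSCD n (aff e A)

theorem everything : Everything := by
  have hKKA : Pool.Agent.Helper47.SR.Goal_KKA := Pool.Agent.Helper68.SR.goal_KKA
  have hKKB : Pool.Agent.Helper47.SR.Goal_KKB := Pool.Agent.Helper68.SR.goal_KKB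
  have hORB : Pool.Agent.Helper47.SR.Goal_ORB := Pool.Agent.Helper47.SR.goal_ORB
  have hLA : Pool.Agent.Helper47.SR.Goal_LA := Pool.Agent.Helper47.SR.goal_LA hORB
  have hSTAN : Pool.Agent.Helper47.SR.Goal_STAN :=
    Pool.Agent.Helper47.SR.goal_STAN hLA Pool.Agent.Helper47.SR.goal_UINJ
  have hTR2 : Pool.Agent.Helper47.SR.Goal_TR2 :=
    Pool.Agent.Helper85.SR.goal_TR2 hLA Pool.Agent.Helper47.SR.goal_TRADE
  have hSYM : Pool.Agent.Helper47.SR.Goal_SYM := Pool.Agent.Helper47.SR.goal_SYM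
  have hENT : Pool.Agent.Helper47.SR.Goal_ENT := Pool.Agent.Helper5.SR.goal_ENT
  have hCYC : Goal_CYC := Pool.Agent.Helper88.NF.goal_CYC
  have hSB : Goal_SB := Pool.Agent.Helper90.NF.goal_SB hKKA hKKB
  have hCLS : Goal_CLS := Pool.Agent.Helper17.NF.goal_CLS hKKA hKKB
  have hLOG : Goal_LOG := Pool.Agent.Helper24.NF.goal_LOG
  have hN2X : Goal_N2X := Pool.Agent.Helper42.NF.goal_N2X hLOG
  have hN2H : Goal_N2H := Pool.Agent.Helper31.NF.goal_N2H hN2X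
  have hM2S : Goal_M2S := Pool.Agent.Helper62.NF.goal_M2S hKKA hKKB goal_M2A
  have hSTBB : Goal_STBB := STBB.goal_STBB
  have hORBT : Goal_ORBT := STBB.goal_ORBT
  have hEJT : Goal_EJT := goal_EJT hSTBB hCYC
  have hNST : Goal_NST := Pool.Agent.Helper9.FS.goal_NST hSTBB hORBT Pool.Agent.Helper77.NF.goal_ORBC
  have hNSBT : Goal_NSBT := goal_NSBT hNST
  have hREDT : Goal_REDT := goal_REDT hSTBB hSB hSYM hSTAN hTR2 hKKA
  have hSBK : Goal_SBK := SBK.goal_SBK hKKA hKKB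
  have hR1K : Goal_R1K := Pool.Agent.Helper71.FS.goal_R1K hSBK hCLS hSYM
  have hLEVF : Goal_LEVF := goal_LEVF hR1K Pool.Agent.Helper7.FS.goal_N0
  have hR1AT : Goal_R1AT := Pool.Agent.Helper98.FS.goal_R1AT hSTBB hEJT hR1K goal_CMPT
    Pool.Agent.Helper39.NF.goal_N1A Pool.Agent.Helper41.NF.goal_N1C
  have hR1BT : Goal_R1BT := Pool.Agent.Helper58.FS.goal_R1BT hEJT hNST hREDT hCLS
    Pool.Agent.Helper88.NF.goal_CMB (Pool.Agent.Helper9.NF.goal_N1B hLOG) (goal_NUMK hLOG)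
    (goal_NUMD hLOG)
  have hF1N : Goal_F1N := goal_F1N hLOG
  have hR2T : Goal_R2T := Pool.Agent.Helper57.FS.goal_R2T hNSBT hREDT hF1N hCLS
    (Pool.Agent.Helper38.NF.goal_N2S hN2X) (Pool.Agent.Helper76.NF.goal_N2J hN2X)
    (Pool.Agent.Helper76.NF.goal_N2I Pool.Agent.Helper76.NF.goal_RAT hN2X) hN2H
  have hR3T : Goal_R3T := Pool.Agent.Helper95.FS.goal_R3T hNSBT hREDT hF1N
    (Pool.Agent.Helper59.NF.goal_T3 hKKA) hSTAN hN2H (Pool.Agent.Helper33.NF.goal_N3 hENT hN2X)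
  have hHOM : Goal_HOM := Pool.Agent.Helper50.FS.goal_HOM hSTAN hORB
  have hLOWT : Goal_LOWT := Pool.Agent.Helper47.FS.goal_LOWT hSTBB Pool.Agent.Helper64.FS.goal_EJR
  have hM2T : Goal_M2T := Pool.Agent.Helper47.FS.goal_M2T hSTBB
    (Pool.Agent.Helper15.FS.goal_DEG2 hSTBB) goal_M2A hM2S hCLS
  have hscd := scd_of (goal_START hR1AT hR1BT hR2T hR3T)
    (Pool.Agent.Helper47.SR.goal_BASE
      (Pool.Agent.Helper60.SR.goal_STEP Pool.Agent.Helper47.SR.goal_CT))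
    Pool.Agent.Helper47.SR.goal_CONV Pool.Agent.Helper47.SR.goal_QSYM
    (Pool.Agent.Helper71.SR.goal_QST hORB) (Pool.Agent.Helper47.SR.goal_QMID hORB hSTAN)
  have hMDA : Goal_MDA := Pool.Agent.Helper90.FS.goal_MDA
  have hMD : Goal_MD := Pool.Agent.Helper61.FS.goal_MD hSYM hCLS hMDA
    (Pool.Agent.Helper20.FS.goal_MDS hKKA hKKB hMDA) Pool.Agent.Helper13.FS.goal_N0D
  have hTWO : Goal_TWO := Pool.Agent.Helper24.FS.goal_TWO hSTAN hORB
  have hPG6 : Goal_PG6 := Pool.Agent.Helper26.FS.goal_PG6 hSTBB Pool.Agent.Helper52.FS.goal_PG5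
  have hPGL : Goal_PGLX := Pool.Agent.Helper78.FS.goal_PGLX
  have hPGAM : Goal_PGAMX := Pool.Agent.Helper55.FS.goal_PGAMX hPGL
  have hAFG : Goal_AFG := Pool.Agent.Helper23.FS.goal_AFG hPGAM
  have hAFH : Goal_AFH := Pool.Agent.Helper36.FS.goal_AFH
  have hA : StA := thA hSTBB hLEVF hHOM hscd
  have hA2 : StA2 := thA2 hSTBB hMD hTWO hscd
  have hB : StB := thB hSTBB hLEVF hHOM (goal_M0 hSTAN) hLOWT hM2T hSYM hscd
  have hF := cor_frob hB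
  exact {
    a := hA2
    b := hB
    b2 := thB2 hA2 hLOWT
    small := cor_small hA hCYC
    frob := hF
    fix2 := cor_fix2 hA2 hLOWT Pool.Agent.Helper66.FS.goal_ZCNT hHOM
    prime := cor_prime hF hAFH (Pool.Agent.Helper45.FS.goal_BUR2 Pool.Agent.Helper41.FS.goal_BUR1)
      Pool.Agent.Helper16.FS.goal_SOLP
    proj := cor_proj (cor_ov hA2 hLOWT hPG6 hHOM) hLOG hPGL Pool.Agent.Helper83.FS.goal_PSLX
      Pool.Agent.Helper87.FS.goal_NORX hPGAM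
    agam := cor_agam hB hLOG hHOM hAFG hAFH
    aff := cor_aff hF hAFH }

end Pool.Agent.Helper91.FS
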